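import Pool.Agent.H633R2.LC.NormInst

/-!
# Asymptotic form for the norm family, and the parabola family
-/

namespace H633LC

open Finset

theorem ev (δ C : ℝ) (hδ : 0 < δ) : ∃ n0 : ℕ, ∀ n : ℕ, n0 ≤ n → C ≤ (n : ℝ) ^ δ := by
  have h1 : Filter.Tendsto (fun n : ℕ => (n : ℝ) ^ δ) Filter.atTop Filter.atTop :=
    (tendsto_rpow_atTop hδ).comp tendsto_natCast_atTop_atTop
  exact Filter.eventually_atTop.mp (h1.eventually_ge_atTop C)

/-- the norm family, with all parameters -/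
theorem norm_main (k : ℕ) (hk : 1 ≤ k) : ∃ L : ℕ, ∀ (p K n : ℕ) (_ : Fact p.Prime) (_ : 2 ≤ K)
    (_ : K * ((K * p) ^ k * (k * p ^ 2 + 1)) ≤ n)
    (E : Type) [Field E] [Algebra (ZMod p) E] (β : Module.Basis (Fin k) (ZMod p) E)
    (F : Type) [Field F] (C : LinCircuit F n n)
    (_ : C.Computes (toep F n (K * p) k (normOne β))) (T : Finset C.V) (_ : C.Hits T),
    p ^ (k - 1) ≤ (normOne β).card ∧
    (normOne β).card * n * K ≤ (normOne β).card * (T.card * K + 5 * k * n) +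
      (L * (C.size + n)) * K := by
  obtain ⟨L, hL⟩ := krs k ⟨0, hk⟩
  refine ⟨k * (L + 1), ?_⟩
  intro p K n hpf hK hn E _ _ β F _ C hC T hT
  refine ⟨normOne_card β hk, ?_⟩
  have hp := hpf.out.pos
  have h := toep_bound (F := F) hk hp (by omega : 0 < K) (rfl : K * p = K * p) hn (normOne β)
    (fun a ha => ((mem_normOne β).mp ha).1) k L
    (fun R S hRS => norm_free β (Nat.mul_le_mul_right p hK) ⟨0, hk⟩ L hL rfl R S hRS) C hC T hT
  refine h.trans ?_
  gcongr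
  unfold LinCircuit.size
  have h1 : k * Fintype.card C.V ≤ k * (L + 1) * Fintype.card C.V := by
    gcongr; exact Nat.le_mul_of_pos_right k (by omega)
  have h2 : k * L * C.E.card ≤ k * (L + 1) * C.E.card := by gcongr; omega
  have h3 : L * n ≤ k * (L + 1) * n := by
    gcongr
    calc L ≤ 1 * (L + 1) := by omega
      _ ≤ k * (L + 1) := by gcongr
  linarith [mul_add (k * (L + 1)) (Fintype.card C.V + C.E.card) n,
    mul_add (k * (L + 1)) (Fintype.card C.V) C.E.card]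

theorem norm_asym (ε : ℝ) (hε : 0 < ε) : ∃ (k h : ℕ) (γ c : ℝ), 1 ≤ k ∧ 1 ≤ h ∧ 0 < γ ∧
    0 < c ∧ ∃ n0 : ℕ,
    ∀ n : ℕ, n0 ≤ n → ∀ u : ℕ, u ^ ((k + 2) * (h + 1)) ≤ n → n < (u + 1) ^ ((k + 2) * (h + 1)) →
    ∀ (p : ℕ) (_ : Fact p.Prime), u ^ h ≤ 2 * p → p ≤ u ^ h →
    ∀ (E : Type) [Field E] [Algebra (ZMod p) E] (β : Module.Basis (Fin k) (ZMod p) E),
      0 < u ∧ (n : ℝ) ^ (1 - ε) ≤ (normOne β).card ∧
      ∀ (F : Type) [Field F] (C : LinCircuit F n n)
      (_ : C.Computes (toep F n (u * p) k (normOne β))) (T : Finset C.V) (_ : C.Hits T),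
      (n : ℝ) ^ (1 - γ) ≤ n - T.card →
      c * (normOne β).card * (n - T.card) ≤ C.size := by
  -- reduce to `ε ≤ 1`
  set e : ℝ := min ε 1 with he
  have he0 : 0 < e := lt_min hε one_pos
  have he1 : e ≤ 1 := min_le_right _ _
  have heε : e ≤ ε := min_le_left _ _
  obtain ⟨k, hk⟩ := exists_nat_gt (12 / e)
  obtain ⟨h, hh⟩ := exists_nat_gt (4 / e)
  have hk1 : 1 ≤ k := by
    have : (0 : ℝ) < k := lt_trans (by positivity) hk
    exact_mod_cast this
  have hh1 : 1 ≤ h := by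
    have : (0 : ℝ) < h := lt_trans (by positivity) hh
    exact_mod_cast this
  set N : ℕ := (k + 2) * (h + 1) with hN
  have hN4 : 4 ≤ N := by rw [hN]; nlinarith
  have hNr : (0 : ℝ) < N := by exact_mod_cast (by omega : 0 < N)
  set γ : ℝ := 1 / (2 * N) with hγ
  have hγ0 : 0 < γ := by positivity
  have hγ4 : γ ≤ 1 / 4 := by
    rw [hγ]
    apply one_div_le_one_div_of_le (by norm_num)
    have : (4 : ℝ) ≤ N := by exact_mod_cast hN4
    linarith
  obtain ⟨L0, hL0⟩ := norm_main k hk1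
  set L : ℕ := L0 + 1 with hLdef
  have hLposR : (0 : ℝ) < L := by exact_mod_cast (by omega : 0 < L)
  set c1 : ℝ := 2 ^ (h * (k - 1)) * 2 ^ (k - 1) with hc1
  have hc1pos : 0 < c1 := by positivity
  obtain ⟨n1, hn1⟩ := ev γ (40 * k) hγ0
  obtain ⟨n2, hn2⟩ := ev (1 / 4) (4 * L * c1) (by norm_num)
  obtain ⟨n3, hn3⟩ := ev (e / 2) c1 (by positivity)
  refine ⟨k, h, γ, 1 / (2 * L), hk1, hh1, hγ0, by positivity,
    max (max n1 n2) (max n3 ((k + 3) ^ N)), ?_⟩
  intro n hn u hu1 hu2 p hpf hp1 hp2 E _ _ β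
  have hnn1 : n1 ≤ n := le_trans (le_trans (le_max_left _ _) (le_max_left _ _)) hn
  have hnn2 : n2 ≤ n := le_trans (le_trans (le_max_right _ _) (le_max_left _ _)) hn
  have hnn3 : n3 ≤ n := le_trans (le_trans (le_max_left _ _) (le_max_right _ _)) hn
  have hnn4 : (k + 3) ^ N ≤ n := le_trans (le_trans (le_max_right _ _) (le_max_right _ _)) hn
  rw [← hN] at hu1 hu2
  have hN0 : N ≠ 0 := by omega
  have huk : k + 2 ≤ u := by
    by_contra hlt
    rw [not_le] at hlt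
    have : (u + 1) ^ N ≤ (k + 3) ^ N := Nat.pow_le_pow_left (by omega) N
    omega
  have hn1' : 1 ≤ n := le_trans (Nat.one_le_pow _ _ (by omega)) hnn4
  set X : ℝ := (n : ℝ) with hX
  have hX1 : 1 ≤ X := by rw [hX]; exact_mod_cast hn1'
  have hX0 : 0 < X := by linarith
  have hpp := hpf.out.pos
  -- size condition
  have hcond : u * ((u * p) ^ k * (k * p ^ 2 + 1)) ≤ n := by
    calc u * ((u * p) ^ k * (k * p ^ 2 + 1))
        ≤ u * ((u * u ^ h) ^ k * (k * (u ^ h) ^ 2 + (u ^ h) ^ 2)) := by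
          gcongr
          exact Nat.one_le_pow _ _ (Nat.pow_pos (by omega))
      _ = u ^ (1 + (1 + h) * k + 2 * h) * (k + 1) := by
          have : (u * u ^ h) ^ k = u ^ ((1 + h) * k) := by
            rw [← pow_succ', ← pow_mul]; congr 1; ring
          rw [this]
          have h2 : k * (u ^ h) ^ 2 + (u ^ h) ^ 2 = (u ^ (2 * h)) * (k + 1) := by
            rw [← pow_mul, mul_comm h 2]; ring
          rw [h2, pow_add, pow_add, pow_one]; ring
      _ ≤ u ^ (1 + (1 + h) * k + 2 * h) * u := by gcongr; omega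
      _ = u ^ (N) := by
          rw [← pow_succ]
          congr 1
          rw [hN]; ring
      _ ≤ n := hu1
  have hΩ : p ^ (k - 1) ≤ (normOne β).card := normOne_card β hk1
  set Ω : ℕ := (normOne β).card with hΩdef
  -- `u` versus `n`
  have hu0 : (0 : ℝ) < u := by exact_mod_cast (by omega : 0 < u)
  have hXu : X ^ (1 / (N : ℝ)) ≤ 2 * u := by
    have h1 : X ≤ ((u : ℝ) + 1) ^ N := by
      rw [hX]
      exact_mod_cast hu2.le
    have h2 : X ^ (1 / (N : ℝ)) ≤ (((u : ℝ) + 1) ^ N) ^ (1 / (N : ℝ)) :=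
      Real.rpow_le_rpow hX0.le h1 (by positivity)
    rw [one_div, Real.pow_rpow_inv_natCast (by positivity) hN0] at h2
    have h3 : (1 : ℝ) ≤ u := by exact_mod_cast (by omega : 1 ≤ u)
    rw [one_div]
    linarith
  -- degree
  have hD : X ^ (1 - e / 2) ≤ c1 * Ω := by
    have h1 : ((u : ℝ) ^ h) ^ (k - 1) ≤ 2 ^ (k - 1) * Ω := by
      have h2 : (u ^ h) ^ (k - 1) ≤ 2 ^ (k - 1) * Ω := by
        calc (u ^ h) ^ (k - 1) ≤ (2 * p) ^ (k - 1) := Nat.pow_le_pow_left hp1 _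
          _ = 2 ^ (k - 1) * p ^ (k - 1) := mul_pow _ _ _
          _ ≤ 2 ^ (k - 1) * Ω := by gcongr
      exact_mod_cast h2
    have h3 : (X ^ (1 / (N : ℝ))) ^ (h * (k - 1)) ≤ (2 * (u : ℝ)) ^ (h * (k - 1)) :=
      pow_le_pow_left₀ (by positivity) hXu _
    have h4 : X ^ (1 - e / 2) ≤ (X ^ (1 / (N : ℝ))) ^ (h * (k - 1)) := by
      rw [← Real.rpow_natCast, ← Real.rpow_mul hX0.le]
      apply Real.rpow_le_rpow_of_exponent_le hX1
      push_cast [hk1]
      rw [hN]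
      push_cast
      have hk12 : 12 < e * k := by
        rw [div_lt_iff₀ he0] at hk; linarith
      have hh4 : 4 < e * h := by
        rw [div_lt_iff₀ he0] at hh; linarith
      have hkr : (1 : ℝ) ≤ k := by exact_mod_cast hk1
      have hhr : (1 : ℝ) ≤ h := by exact_mod_cast hh1
      rw [one_div, inv_mul_eq_div, le_div_iff₀ (by positivity)]
      nlinarith [mul_pos he0 (by positivity : (0 : ℝ) < (k : ℝ) * h)]
    calc X ^ (1 - e / 2) ≤ (2 * (u : ℝ)) ^ (h * (k - 1)) := h4.trans h3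
      _ = 2 ^ (h * (k - 1)) * ((u : ℝ) ^ h) ^ (k - 1) := by rw [mul_pow, pow_mul (u : ℝ)]
      _ ≤ 2 ^ (h * (k - 1)) * (2 ^ (k - 1) * Ω) := by gcongr
      _ = c1 * Ω := by rw [hc1]; ring
  refine ⟨by omega, ?_, ?_⟩
  · have h1 : c1 ≤ X ^ (e / 2) := hn3 n hnn3
    have h2 : X ^ (e / 2) * X ^ (1 - e) = X ^ (1 - e / 2) := by
      rw [← Real.rpow_add hX0]; congr 1; ring
    have h3 : c1 * X ^ (1 - e) ≤ c1 * Ω := by
      calc c1 * X ^ (1 - e) ≤ X ^ (e / 2) * X ^ (1 - e) := by gcongr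
        _ = X ^ (1 - e / 2) := h2
        _ ≤ c1 * Ω := hD
    calc X ^ (1 - ε) ≤ X ^ (1 - e) := Real.rpow_le_rpow_of_exponent_le hX1 (by linarith)
      _ ≤ Ω := le_of_mul_le_mul_left h3 hc1pos
  intro F _ C hC T hT hT2
  obtain ⟨-, hmain0⟩ := hL0 p u n hpf (by omega) hcond E β F C hC T hT
  have hmain : Ω * n * u ≤ Ω * (T.card * u + 5 * k * n) + (L * (C.size + n)) * u := by
    refine hmain0.trans ?_
    gcongr
    omega
  -- real form of the main inequality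
  have hmainR : (Ω : ℝ) * X * u ≤ Ω * (T.card * u + 5 * k * X) + (L * (C.size + X)) * u := by
    rw [hX]
    exact_mod_cast hmain
  set t : ℝ := (T.card : ℝ) with ht
  have hXt : 0 < X - t := lt_of_lt_of_le (Real.rpow_pos_of_pos hX0 _) hT2
  -- the loss
  have hloss : 5 * k * X ≤ (X - t) * u / 4 := by
    have h1 : 40 * (k : ℝ) ≤ X ^ γ := hn1 n hnn1
    have h2 : X ^ γ * X ^ (1 - γ) = X := by
      rw [← Real.rpow_add hX0]; simp
    have h3 : X ^ γ * X ^ γ = X ^ (1 / (N : ℝ)) := by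
      rw [← Real.rpow_add hX0, hγ]; congr 1; field_simp; norm_num
    have h4 : 40 * (k : ℝ) * X ^ γ ≤ 2 * u := by
      calc 40 * (k : ℝ) * X ^ γ ≤ X ^ γ * X ^ γ := by gcongr
        _ ≤ 2 * u := by rw [h3]; exact hXu
    calc 5 * k * X = (40 * (k : ℝ) * X ^ γ) * X ^ (1 - γ) / 8 := by
          rw [mul_assoc (40 * (k : ℝ)), h2]; ring
      _ ≤ (2 * u) * (X - t) / 8 := by gcongr
      _ = (X - t) * u / 4 := by ring
  have hstep1 : (Ω : ℝ) * (X - t) * (3 / 4) ≤ L * (C.size + X) := by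
    have h1 : (Ω : ℝ) * (X - t) * u ≤ Ω * ((X - t) * u / 4) + (L * (C.size + X)) * u := by
      have : (Ω : ℝ) * (5 * k * X) ≤ Ω * ((X - t) * u / 4) := by gcongr
      nlinarith
    have h2 : ((Ω : ℝ) * (X - t) * (3 / 4)) * u ≤ (L * (C.size + X)) * u := by nlinarith
    exact le_of_mul_le_mul_right h2 hu0
  have hstep2 : (L : ℝ) * X ≤ Ω * (X - t) / 4 := by
    have h1 : 4 * L * c1 ≤ X ^ (1 / 4 : ℝ) := hn2 n hnn2
    have h2 : X ^ (1 / 4 : ℝ) * X ≤ X ^ (1 - e / 2) * X ^ (1 - γ) := by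
      nth_rewrite 2 [← Real.rpow_one X]
      rw [← Real.rpow_add hX0, ← Real.rpow_add hX0]
      apply Real.rpow_le_rpow_of_exponent_le hX1
      linarith
    have h3 : X ^ (1 - e / 2) * X ^ (1 - γ) ≤ (c1 * Ω) * (X - t) := by gcongr
    have h4 : 4 * L * c1 * X ≤ c1 * Ω * (X - t) := by
      calc 4 * L * c1 * X ≤ X ^ (1 / 4 : ℝ) * X := by gcongr
        _ ≤ _ := h2.trans h3
    have h5 : c1 * (4 * (L * X)) ≤ c1 * (Ω * (X - t)) := by nlinarith
    have h6 := le_of_mul_le_mul_left h5 hc1pos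
    linarith
  have hstep3 : (Ω : ℝ) * (X - t) / 2 ≤ L * C.size := by nlinarith
  rw [div_mul_eq_mul_div, div_mul_eq_mul_div, div_le_iff₀ (by positivity)]
  linarith

/-- the data of the norm family exist for every large `n` -/
theorem norm_exists (k h : ℕ) (hk : 1 ≤ k) (n : ℕ) (hn : 2 ^ ((k + 2) * (h + 1)) ≤ n)
    (hh : 1 ≤ h) :
    ∃ u p : ℕ, u ^ ((k + 2) * (h + 1)) ≤ n ∧ n < (u + 1) ^ ((k + 2) * (h + 1)) ∧ 2 ≤ u ∧
      u ^ h ≤ 2 * p ∧ p ≤ u ^ h ∧ ∃ (_ : Fact p.Prime) (E : Type) (_ : Field E)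
      (_ : Algebra (ZMod p) E), Nonempty (Module.Basis (Fin k) (ZMod p) E) := by
  set N : ℕ := (k + 2) * (h + 1) with hN
  have hN0 : N ≠ 0 := by rw [hN]; positivity
  -- the root
  obtain ⟨u, hu1, hu2⟩ : ∃ u : ℕ, u ^ N ≤ n ∧ n < (u + 1) ^ N := by
    have hex : ∃ v : ℕ, n < (v + 1) ^ N := ⟨n, lt_of_lt_of_le (Nat.lt_succ_self n)
      (Nat.le_self_pow hN0 _)⟩
    classical
    refine ⟨Nat.find hex, ?_, Nat.find_spec hex⟩
    rcases Nat.eq_zero_or_pos (Nat.find hex) with h0 | h0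
    · rw [h0, zero_pow hN0]; exact Nat.zero_le _
    · have := Nat.find_min hex (Nat.sub_lt h0 one_pos)
      rw [not_lt] at this
      have e : Nat.find hex - 1 + 1 = Nat.find hex := by omega
      rw [e] at this
      exact this
  have hu : 2 ≤ u := by
    by_contra hlt
    rw [not_le] at hlt
    have : (u + 1) ^ N ≤ 2 ^ N := Nat.pow_le_pow_left (by omega) N
    omega
  -- Bertrand
  have h2 : 2 ≤ u ^ h := hu.trans (Nat.le_self_pow (by omega) u)
  have hne : u ^ h / 2 ≠ 0 := by omega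
  obtain ⟨p, hp, hp1, hp2⟩ := Nat.exists_prime_lt_and_le_two_mul (u ^ h / 2) hne
  have hpf : Fact p.Prime := ⟨hp⟩
  refine ⟨u, p, hu1, hu2, hu, by omega, by omega, hpf, GaloisField p k, inferInstance,
    inferInstance, ?_⟩
  have hfr : Module.finrank (ZMod p) (GaloisField p k) = k := GaloisField.finrank p (by omega)
  exact ⟨(Module.finBasis (ZMod p) (GaloisField p k)).reindex (finCongr hfr)⟩

/-- the parabola family: explicit constants -/
theorem parabola (K q n : ℕ) (hK : 2 ≤ K) (hq : 1 ≤ q) (hn : 2 * (K ^ 2 * q ^ 3) ≤ n)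
    (F : Type) [Field F] (C : LinCircuit F n n)
    (hC : C.Computes (fun x y => open Classical in
      if ∃ a : ℕ, a < q ∧ (y : ℕ) = x + (a + K * q * a ^ 2) then (1 : F) else 0))
    (T : Finset C.V) (hT : C.Hits T) (hT2 : 10 * n ≤ K * (n - T.card)) :
    q * (n - T.card) ≤ 2 * (C.size + n) := by
  classical
  set Ω : Finset (Fin 1 → ℕ) := (Finset.range q).image (fun a => fun _ => a) with hΩ
  have hΩcard : Ω.card = q := by
    rw [hΩ, Finset.card_image_of_injective, Finset.card_range]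
    intro a b hab
    exact congrFun hab 0
  have hmemΩ : ∀ a : Fin 1 → ℕ, a ∈ Ω ↔ a 0 < q := by
    intro a
    rw [hΩ]
    simp only [Finset.mem_image, Finset.mem_range]
    constructor
    · rintro ⟨b, hb, rfl⟩; exact hb
    · intro ha
      exact ⟨a 0, ha, funext fun i => by rw [Fin.fin_one_eq_zero i]⟩
  have hshift : ∀ a : Fin 1 → ℕ, shift (K * q) 1 a = a 0 + K * q * (a 0) ^ 2 := by
    intro a
    simp [shift]
  have hC' : C.Computes (toep F n (K * q) 1 Ω) := by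
    intro i j
    rw [hC i j]
    unfold toep
    have : (∃ a : ℕ, a < q ∧ (j : ℕ) = i + (a + K * q * a ^ 2)) ↔
        (∃ a ∈ Ω, (j : ℕ) = i + shift (K * q) 1 a) := by
      constructor
      · rintro ⟨a, ha, h⟩
        exact ⟨fun _ => a, (hmemΩ _).mpr ha, by rw [hshift]; exact h⟩
      · rintro ⟨a, ha, h⟩
        exact ⟨a 0, (hmemΩ a).mp ha, by rw [hshift] at h; exact h⟩
    simp only [this]
  have hm0 : 0 < K * q := by positivity
  have hfree : ∀ (R S : Finset (Fin n)),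
      (∀ x ∈ R, ∀ y ∈ S, ∃ a ∈ Ω, (y : ℕ) = x + shift (K * q) 1 a) → R.card ≤ 1 ∨ S.card ≤ 1 := by
    intro R S hRS
    by_contra hcon
    rw [not_or, not_le, not_le, Finset.one_lt_card, Finset.one_lt_card] at hcon
    obtain ⟨⟨x1, hx1, x2, hx2, hx⟩, ⟨y1, hy1, y2, hy2, hy⟩⟩ := hcon
    obtain ⟨a, ha, h1⟩ := hRS x1 hx1 y1 hy1
    obtain ⟨b, hb, h2⟩ := hRS x2 hx2 y1 hy1
    obtain ⟨a', ha', h3⟩ := hRS x1 hx1 y2 hy2
    obtain ⟨b', hb', h4⟩ := hRS x2 hx2 y2 hy2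
    rw [hmemΩ] at ha hb ha' hb'
    have hlt : ∀ z : Fin 1 → ℕ, z 0 < q → ∀ i, z i < q := fun z hz i => by
      rw [Fin.fin_one_eq_zero i]; exact hz
    have hsd := shift_diff (k := 1) hm0 (Nat.mul_le_mul_right q hK) (hlt a ha) (hlt b hb)
      (hlt a' ha') (hlt b' hb') (by omega)
    obtain ⟨e1, e2⟩ := hsd
    have e1' := e1 0
    simp only [Fin.sum_univ_one] at e2
    -- `a - b = a' - b'` and `a^2 - b^2 = a'^2 - b'^2`
    have hab : (a 0 : ℤ) - b 0 ≠ 0 := by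
      intro h0
      have : a = b := by
        funext i
        rw [Fin.fin_one_eq_zero i]
        omega
      rw [this] at h1
      exact hx (Fin.ext (by omega))
    have h5 : ((a 0 : ℤ) - b 0) * ((a 0 + b 0) - (a' 0 + b' 0)) = 0 := by
      have : ((a 0 : ℤ) - b 0) * (a 0 + b 0) = (a' 0 - b' 0) * (a' 0 + b' 0) := by linarith
      rw [mul_sub, this, e1']; ring
    have h6 := (mul_eq_zero.mp h5).resolve_left hab
    have h7 : (a 0 : ℤ) = a' 0 := by linarith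
    have h8 : a = a' := by
      funext i
      rw [Fin.fin_one_eq_zero i]
      exact_mod_cast h7
    rw [h8] at h1
    exact hy (Fin.ext (by omega))
  have hcond : K * ((K * q) ^ 1 * (1 * q ^ 2 + 1)) ≤ n := by
    have h1 : 1 ≤ q ^ 2 := Nat.one_le_pow _ _ hq
    calc K * ((K * q) ^ 1 * (1 * q ^ 2 + 1)) ≤ K * ((K * q) ^ 1 * (1 * q ^ 2 + q ^ 2)) := by
          gcongr
      _ = 2 * (K ^ 2 * q ^ 3) := by ring
      _ ≤ n := hn
  have h := toep_bound (F := F) (le_refl 1) hq (by omega : 0 < K) (rfl : K * q = K * q) hcond Ω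
    (fun a ha i => by rw [Fin.fin_one_eq_zero i]; exact (hmemΩ a).mp ha) 1 1 hfree C hC' T hT
  rw [hΩcard] at h
  simp only [one_mul, mul_one] at h
  have hKpos : 0 < K := by omega
  have hTn : T.card ≤ n := by
    by_contra hlt
    rw [not_le] at hlt
    have h0 : n - T.card = 0 := by omega
    rw [h0, mul_zero] at hT2
    have : 0 < n := lt_of_lt_of_le (by positivity) hn
    omega
  obtain ⟨d, hd⟩ := Nat.exists_eq_add_of_le hTn
  have hd' : n - T.card = d := by omega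
  rw [hd'] at hT2 ⊢
  have hsz : Fintype.card C.V + C.E.card + n = C.size + n := rfl
  rw [hsz] at h
  have h9 : q * d * K ≤ q * (5 * n) + (C.size + n) * K := by
    have : q * n * K = q * (T.card * K) + q * d * K := by
      nth_rewrite 1 [hd]; ring
    rw [this] at h
    have e : q * (T.card * K + 5 * n) = q * (T.card * K) + q * (5 * n) := by ring
    rw [e] at h
    omega
  have h10 : 2 * (q * (5 * n)) ≤ q * d * K := by
    calc 2 * (q * (5 * n)) = q * (10 * n) := by ring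
      _ ≤ q * (K * d) := by gcongr
      _ = q * d * K := by ring
  have h11 : (q * d) * K ≤ (2 * (C.size + n)) * K := by
    have : 2 * (C.size + n) * K = 2 * ((C.size + n) * K) := by ring
    rw [this]
    omega
  exact Nat.le_of_mul_le_mul_right h11 hKpos

/-- the parabola family with the best threshold -/
theorem parabola_five (q n : ℕ) (hq : 2 ≤ q) (hn : 2 * q ^ 5 ≤ n) (hn2 : n < 2 * (q + 1) ^ 5)
    (F : Type) [Field F] (C : LinCircuit F n n)
    (hC : C.Computes (fun x y => open Classical in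
      if ∃ a : ℕ, a < q ∧ (y : ℕ) = x + (a + q * q * a ^ 2) then (1 : F) else 0))
    (T : Finset C.V) (hT : C.Hits T)
    (hT2 : 20 * (n : ℝ) ^ (4 / 5 : ℝ) ≤ n - T.card) :
    (n : ℝ) ^ (1 / 5 : ℝ) * (n - T.card) / 5 ≤ C.size := by
  have hn0 : 0 < n := lt_of_lt_of_le (by positivity) hn
  have hX0 : (0 : ℝ) < n := by exact_mod_cast hn0
  have hq0 : (0 : ℝ) < q := by exact_mod_cast (by omega : 0 < q)
  have hq2 : (2 : ℝ) ≤ q := by exact_mod_cast hq
  -- `q ≥ (4/7) n^(1/5)`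
  have hqn : (n : ℝ) ^ (1 / 5 : ℝ) ≤ 7 / 4 * q := by
    have h1 : (n : ℝ) ≤ (7 / 4 * q) ^ 5 := by
      have h2 : (n : ℝ) < 2 * ((q : ℝ) + 1) ^ 5 := by exact_mod_cast hn2
      have h3 : (q : ℝ) + 1 ≤ 3 / 2 * q := by linarith
      have h4 : ((q : ℝ) + 1) ^ 5 ≤ (3 / 2 * q) ^ 5 := pow_le_pow_left₀ (by positivity) h3 5
      have h5 : 2 * (3 / 2 * (q : ℝ)) ^ 5 ≤ (7 / 4 * q) ^ 5 := by
        have : 0 ≤ (q : ℝ) ^ 5 := by positivity
        nlinarith
      linarith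
    calc (n : ℝ) ^ (1 / 5 : ℝ) ≤ ((7 / 4 * (q : ℝ)) ^ 5) ^ (1 / 5 : ℝ) :=
          Real.rpow_le_rpow hX0.le h1 (by norm_num)
      _ = 7 / 4 * q := by
          rw [← Real.rpow_natCast, ← Real.rpow_mul (by positivity)]
          norm_num
  have hpos : 0 < (n : ℝ) - T.card := lt_of_lt_of_le (by positivity) hT2
  have hTn : T.card ≤ n := by
    have : (T.card : ℝ) ≤ n := by linarith
    exact_mod_cast this
  have hsub : ((n - T.card : ℕ) : ℝ) = (n : ℝ) - T.card := by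
    rw [Nat.cast_sub hTn]
  have h45 : (n : ℝ) ^ (1 / 5 : ℝ) * (n : ℝ) ^ (4 / 5 : ℝ) = n := by
    rw [← Real.rpow_add hX0]; norm_num
  have hcondR : 10 * (n : ℝ) ≤ q * ((n : ℝ) - T.card) := by
    have h1 : (n : ℝ) ^ (1 / 5 : ℝ) * (20 * (n : ℝ) ^ (4 / 5 : ℝ)) ≤
        (7 / 4 * q) * ((n : ℝ) - T.card) := by gcongr
    have h2 : (n : ℝ) ^ (1 / 5 : ℝ) * (20 * (n : ℝ) ^ (4 / 5 : ℝ)) = 20 * n := by
      have e : (n : ℝ) ^ (1 / 5 : ℝ) * (20 * (n : ℝ) ^ (4 / 5 : ℝ)) =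
        20 * ((n : ℝ) ^ (1 / 5 : ℝ) * (n : ℝ) ^ (4 / 5 : ℝ)) := by ring
      rw [e, h45]
    rw [h2] at h1
    linarith
  have hcond : 10 * n ≤ q * (n - T.card) := by
    have : (10 * n : ℝ) ≤ (q : ℝ) * ((n - T.card : ℕ) : ℝ) := by rw [hsub]; exact hcondR
    exact_mod_cast this
  have hmain := parabola q q n hq (by omega) (by
    calc 2 * (q ^ 2 * q ^ 3) = 2 * q ^ 5 := by ring
      _ ≤ n := hn) F C hC T hT hcond
  have hmainR : (q : ℝ) * ((n : ℝ) - T.card) ≤ 2 * (C.size + n) := by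
    rw [← hsub]
    exact_mod_cast hmain
  have h6 : (n : ℝ) ^ (1 / 5 : ℝ) * ((n : ℝ) - T.card) ≤ 7 / 4 * q * ((n : ℝ) - T.card) := by
    gcongr
  linarith

end H633LC
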