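import Pool.Agent.H633R2.LC.Frame

/-!
# Toeplitz matrices with ones at digit-paraboloid shifts
-/

namespace H633LC

open Finset

open Classical in
/-- the 0/1 Toeplitz matrix with ones at the shifts of the digit vectors of `Ω` -/
noncomputable def toep (F : Type) [Field F] (n m k : ℕ) (Ω : Finset (Fin k → ℕ)) :
    Fin n → Fin n → F :=
  fun x y => if ∃ a ∈ Ω, (y : ℕ) = x + shift m k a then 1 else 0

theorem toep_ne {F : Type} [Field F] {n m k : ℕ} {Ω : Finset (Fin k → ℕ)} {x y : Fin n} :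
    toep F n m k Ω x y ≠ 0 ↔ ∃ a ∈ Ω, (y : ℕ) = x + shift m k a := by
  unfold toep
  split_ifs with h
  · simp [h]
  · simp [h]

theorem zero_lemma : ∀ (k : ℕ) (m : ℤ) (_ : 0 < m) (d : Fin k → ℤ) (_ : ∀ i, |d i| < m) (D : ℤ)
    (_ : ∑ i, d i * m ^ (i : ℕ) + m ^ k * D = 0), (∀ i, d i = 0) ∧ D = 0 := by
  intro k
  induction k with
  | zero =>
    intro m _ d _ D h
    simp at h
    exact ⟨fun i => i.elim0, h⟩
  | succ k ih =>
    intro m hm d hd D h
    rw [Fin.sum_univ_succ] at h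
    simp only [Fin.val_zero, pow_zero, mul_one, Fin.val_succ, pow_succ] at h
    have h1 : ∑ i : Fin k, d i.succ * (m ^ (i : ℕ) * m) = m * ∑ i : Fin k, d i.succ * m ^ (i : ℕ) := by
      rw [Finset.mul_sum]
      exact Finset.sum_congr rfl fun i _ => by ring
    rw [h1] at h
    have h2 : m ∣ d 0 := ⟨-(∑ i : Fin k, d i.succ * m ^ (i : ℕ)) - m ^ k * D, by linarith⟩
    have h3 : d 0 = 0 := Int.eq_zero_of_abs_lt_dvd h2 (hd 0)
    rw [h3] at h
    have h4 : m * (∑ i : Fin k, d i.succ * m ^ (i : ℕ) + m ^ k * D) = 0 := by linarith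
    have h5 := (mul_eq_zero.mp h4).resolve_left hm.ne'
    obtain ⟨h6, h7⟩ := ih m hm (fun i => d i.succ) (fun i => hd i.succ) D h5
    refine ⟨fun i => ?_, h7⟩
    refine Fin.cases h3 (fun i => h6 i) i

theorem digits_id (m : ℕ) : ∀ (k x : ℕ),
    x = ∑ i : Fin k, ((x / m ^ (i : ℕ)) % m) * m ^ (i : ℕ) + m ^ k * (x / m ^ k) := by
  intro k
  induction k with
  | zero => intro x; simp
  | succ k ih =>
    intro x
    rw [Fin.sum_univ_castSucc]
    simp only [Fin.val_castSucc, Fin.val_last]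
    have h1 : x / m ^ k = (x / m ^ k) % m + m * (x / m ^ k / m) := (Nat.mod_add_div _ _).symm
    have h2 : x / m ^ (k + 1) = x / m ^ k / m := by rw [pow_succ, Nat.div_div_eq_div_mul]
    calc x = ∑ i : Fin k, ((x / m ^ (i : ℕ)) % m) * m ^ (i : ℕ) + m ^ k * (x / m ^ k) := ih x
      _ = ∑ i : Fin k, ((x / m ^ (i : ℕ)) % m) * m ^ (i : ℕ) +
            m ^ k * ((x / m ^ k) % m + m * (x / m ^ k / m)) := by rw [← h1]
      _ = _ := by rw [h2, pow_succ]; ring

/-- the good rows for the digit vector `a` -/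
def good (n m k p : ℕ) (a : Fin k → ℕ) : Finset (Fin n) :=
  Finset.univ.filter (fun x => (∀ i : Fin k, p ≤ ((x : ℕ) / m ^ (i : ℕ)) % m ∧
    ((x : ℕ) / m ^ (i : ℕ)) % m + p < m) ∧ (x : ℕ) + shift m k a < n)

/-- the key digit argument: no carries between good rows -/
theorem nocarry {n m k p : ℕ} (hm : 0 < m) {a b : Fin k → ℕ} (ha : ∀ i, a i < p)
    (hb : ∀ i, b i < p) {x x' : Fin n}
    (hx : ∀ i : Fin k, p ≤ ((x : ℕ) / m ^ (i : ℕ)) % m ∧ ((x : ℕ) / m ^ (i : ℕ)) % m + p < m)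
    (hx' : ∀ i : Fin k, p ≤ ((x' : ℕ) / m ^ (i : ℕ)) % m ∧ ((x' : ℕ) / m ^ (i : ℕ)) % m + p < m)
    (h : (x' : ℕ) + shift m k a = x + shift m k b) :
    (∀ i : Fin k, ((((x' : ℕ) / m ^ (i : ℕ)) % m : ℕ) : ℤ) - ((((x : ℕ) / m ^ (i : ℕ)) % m : ℕ) : ℤ)
      = (b i : ℤ) - a i) ∧
    (((x' : ℕ) / m ^ k : ℕ) : ℤ) - (((x : ℕ) / m ^ k : ℕ) : ℤ) =
      ∑ i, ((b i : ℤ) ^ 2 - (a i : ℤ) ^ 2) := by
  have e1 := digits_id m k (x : ℕ)
  have e2 := digits_id m k (x' : ℕ)
  have e1' : ((x : ℕ) : ℤ) = ∑ i : Fin k, ((((x : ℕ) / m ^ (i : ℕ)) % m : ℕ) : ℤ) * (m : ℤ) ^ (i : ℕ)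
      + (m : ℤ) ^ k * (((x : ℕ) / m ^ k : ℕ) : ℤ) := by
    have := congrArg (fun z : ℕ => (z : ℤ)) e1
    simp only [Nat.cast_add, Nat.cast_sum, Nat.cast_mul, Nat.cast_pow] at this
    exact this
  have e2' : ((x' : ℕ) : ℤ) = ∑ i : Fin k, ((((x' : ℕ) / m ^ (i : ℕ)) % m : ℕ) : ℤ) *
      (m : ℤ) ^ (i : ℕ) + (m : ℤ) ^ k * (((x' : ℕ) / m ^ k : ℕ) : ℤ) := by
    have := congrArg (fun z : ℕ => (z : ℤ)) e2
    simp only [Nat.cast_add, Nat.cast_sum, Nat.cast_mul, Nat.cast_pow] at this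
    exact this
  have h' : ((x' : ℕ) : ℤ) + (∑ i, (a i : ℤ) * (m : ℤ) ^ (i : ℕ) + (m : ℤ) ^ k * ∑ i, (a i : ℤ) ^ 2)
      = ((x : ℕ) : ℤ) + (∑ i, (b i : ℤ) * (m : ℤ) ^ (i : ℕ) + (m : ℤ) ^ k * ∑ i, (b i : ℤ) ^ 2) := by
    have := congrArg (fun z : ℕ => (z : ℤ)) h
    simp only [shift, Nat.cast_add, Nat.cast_sum, Nat.cast_mul, Nat.cast_pow] at this
    exact this
  have key := zero_lemma k (m : ℤ) (by exact_mod_cast hm)
    (fun i => (((((x' : ℕ) / m ^ (i : ℕ)) % m : ℕ) : ℤ) - ((((x : ℕ) / m ^ (i : ℕ)) % m : ℕ) : ℤ))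
      - ((b i : ℤ) - a i)) ?_
    ((((x' : ℕ) / m ^ k : ℕ) : ℤ) - (((x : ℕ) / m ^ k : ℕ) : ℤ) -
      (∑ i, (b i : ℤ) ^ 2 - ∑ i, (a i : ℤ) ^ 2)) ?_
  · refine ⟨fun i => ?_, ?_⟩
    · have := key.1 i
      linarith
    · rw [Finset.sum_sub_distrib]
      linarith [key.2]
  · intro i
    have h1 := hx i
    have h2 := hx' i
    have h3 := ha i
    have h4 := hb i
    generalize ((x : ℕ) / m ^ (i : ℕ)) % m = u at h1 ⊢
    generalize ((x' : ℕ) / m ^ (i : ℕ)) % m = v at h2 ⊢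
    rw [abs_lt]
    constructor <;> omega
  · simp only [sub_mul, Finset.sum_sub_distrib]
    rw [e1', e2'] at h'
    linarith

/-- strict convexity -/
theorem convex {k : ℕ} (a b : Fin k → ℤ) (h : a ≠ b) :
    ∑ i, 2 * a i * (b i - a i) < ∑ i, ((b i) ^ 2 - (a i) ^ 2) := by
  rw [← sub_pos, ← Finset.sum_sub_distrib]
  have h1 : ∀ i, (b i) ^ 2 - (a i) ^ 2 - 2 * a i * (b i - a i) = (b i - a i) ^ 2 := fun i => by ring
  rw [Finset.sum_congr rfl fun i _ => h1 i]
  obtain ⟨j, hj⟩ := Function.ne_iff.mp h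
  refine Finset.sum_pos' (fun i _ => sq_nonneg _) ⟨j, Finset.mem_univ _, ?_⟩
  have : b j - a j ≠ 0 := sub_ne_zero.mpr (Ne.symm hj)
  positivity

/-- the order functional of the digit vector `a` -/
def phi (n m k : ℕ) (a : Fin k → ℕ) (x : Fin n) : ℤ :=
  ∑ i : Fin k, 2 * (a i : ℤ) * ((((x : ℕ) / m ^ (i : ℕ)) % m : ℕ) : ℤ) - (((x : ℕ) / m ^ k : ℕ) : ℤ)

theorem phi_lt {n m k p : ℕ} (hm : 0 < m) {a b : Fin k → ℕ} (ha : ∀ i, a i < p)
    (hb : ∀ i, b i < p) {x x' : Fin n} (hx : x ∈ good n m k p a) (hx' : x' ∈ good n m k p a)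
    (hne : x' ≠ x) (h : (x' : ℕ) + shift m k a = x + shift m k b) :
    phi n m k a x' < phi n m k a x := by
  simp only [good, Finset.mem_filter, Finset.mem_univ, true_and] at hx hx'
  obtain ⟨h1, h2⟩ := nocarry hm ha hb hx.1 hx'.1 h
  have hab : (fun i => (a i : ℤ)) ≠ (fun i => (b i : ℤ)) := by
    intro hab
    have : a = b := by
      funext i
      have := congrFun hab i
      exact_mod_cast this
    subst this
    exact hne (Fin.ext (by omega))
  have hc := convex (fun i => (a i : ℤ)) (fun i => (b i : ℤ)) hab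
  have h3 : ∑ i : Fin k, 2 * (a i : ℤ) * ((b i : ℤ) - a i) =
      ∑ i : Fin k, 2 * (a i : ℤ) * ((((x' : ℕ) / m ^ (i : ℕ)) % m : ℕ) : ℤ) -
      ∑ i : Fin k, 2 * (a i : ℤ) * ((((x : ℕ) / m ^ (i : ℕ)) % m : ℕ) : ℤ) := by
    rw [← Finset.sum_sub_distrib]
    apply Finset.sum_congr rfl
    intro i _
    rw [← h1 i]
    ring
  rw [h3] at hc
  unfold phi
  linarith

theorem card_mod_le (n P : ℕ) (B : Finset ℕ) :
    (Finset.univ.filter (fun x : Fin n => (x : ℕ) % P ∈ B)).card ≤ (n / P + 1) * B.card := by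
  rw [← Finset.card_range (n / P + 1), ← Finset.card_product]
  apply Finset.card_le_card_of_injOn (fun x : Fin n => ((x : ℕ) / P, (x : ℕ) % P))
  · intro x hx
    simp only [Finset.coe_filter, Set.mem_ofPred_eq, Finset.mem_univ, true_and] at hx
    simp only [Finset.coe_product, Set.mem_prod, Finset.mem_coe, Finset.mem_range]
    exact ⟨Nat.lt_succ_of_le (Nat.div_le_div_right x.2.le), hx⟩
  · intro x _ x' _ h
    simp only [Prod.mk.injEq] at h
    apply Fin.ext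
    rw [← Nat.div_add_mod (x : ℕ) P, ← Nat.div_add_mod (x' : ℕ) P, h.1, h.2]

theorem digit_eq (m i x : ℕ) : (x / m ^ i) % m = (x % m ^ (i + 1)) / m ^ i := by
  rw [pow_succ, Nat.mod_mul_right_div_self]

theorem sum_digits_lt (m : ℕ) : ∀ (k : ℕ) (a : Fin k → ℕ), (∀ i, a i < m) →
    ∑ i, a i * m ^ (i : ℕ) < m ^ k := by
  intro k
  induction k with
  | zero => intro a _; simp
  | succ k ih =>
    intro a ha
    rw [Fin.sum_univ_castSucc]
    simp only [Fin.val_castSucc, Fin.val_last]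
    have h1 := ih (fun i => a i.castSucc) (fun i => ha _)
    have h2 : a (Fin.last k) + 1 ≤ m := ha _
    calc _ < m ^ k + a (Fin.last k) * m ^ k := by gcongr
      _ = (a (Fin.last k) + 1) * m ^ k := by ring
      _ ≤ m * m ^ k := by gcongr
      _ = m ^ (k + 1) := by ring

theorem shift_le {m k p : ℕ} (hpm : p ≤ m) (a : Fin k → ℕ) (ha : ∀ i, a i < p) :
    shift m k a ≤ m ^ k * (k * p ^ 2 + 1) := by
  have h1 := sum_digits_lt m k a (fun i => (ha i).trans_le hpm)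
  have h2 : ∑ i, (a i) ^ 2 ≤ k * p ^ 2 := by
    calc ∑ i, (a i) ^ 2 ≤ ∑ _i : Fin k, p ^ 2 :=
          Finset.sum_le_sum fun i _ => Nat.pow_le_pow_left (ha i).le 2
      _ = k * p ^ 2 := by simp
  unfold shift
  calc _ ≤ m ^ k + m ^ k * (k * p ^ 2) := by gcongr
    _ = _ := by ring

/-- few rows are bad -/
theorem good_card {n m k p K : ℕ} (hk : 1 ≤ k) (hp : 0 < p) (hK : 0 < K) (hm : m = K * p)
    (hn : K * (m ^ k * (k * p ^ 2 + 1)) ≤ n) (a : Fin k → ℕ) (ha : ∀ i, a i < p) :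
    n * K ≤ (good n m k p a).card * K + 5 * k * n := by
  classical
  have hm0 : 0 < m := by rw [hm]; positivity
  have hpm : p ≤ m := by rw [hm]; exact Nat.le_mul_of_pos_left p hK
  have hmk : m ^ k ≤ n := by
    calc m ^ k = 1 * (m ^ k * 1) := by ring
      _ ≤ K * (m ^ k * (k * p ^ 2 + 1)) := by gcongr; exacts [hK, by omega]
      _ ≤ n := hn
  set bad1 : Fin k → Finset (Fin n) := fun i =>
    Finset.univ.filter (fun x : Fin n => (x : ℕ) % m ^ ((i : ℕ) + 1) ∈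
      Finset.range (p * m ^ (i : ℕ))) with hbad1
  set bad2 : Fin k → Finset (Fin n) := fun i =>
    Finset.univ.filter (fun x : Fin n => (x : ℕ) % m ^ ((i : ℕ) + 1) ∈
      Finset.Ico ((m - p) * m ^ (i : ℕ)) (m ^ ((i : ℕ) + 1))) with hbad2
  set bad3 : Finset (Fin n) := Finset.univ.filter (fun x : Fin n => n ≤ (x : ℕ) + shift m k a)
    with hbad3
  have hcover : (Finset.univ : Finset (Fin n)) ⊆ good n m k p a ∪
      ((Finset.univ.biUnion bad1 ∪ Finset.univ.biUnion bad2) ∪ bad3) := by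
    intro x _
    by_contra hcon
    simp only [Finset.mem_union, Finset.mem_biUnion, Finset.mem_univ, true_and, not_or,
      not_exists, hbad1, hbad2, hbad3, Finset.mem_filter, Finset.mem_range, Finset.mem_Ico,
      good, not_lt, not_le] at hcon
    obtain ⟨h1, ⟨h2, h3⟩, h4⟩ := hcon
    apply h1
    refine ⟨fun i => ?_, h4⟩
    rw [digit_eq]
    have hpos : 0 < m ^ (i : ℕ) := pow_pos hm0 _
    constructor
    · rw [Nat.le_div_iff_mul_le hpos]
      exact h2 i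
    · have h5 : (x : ℕ) % m ^ ((i : ℕ) + 1) < m ^ ((i : ℕ) + 1) := Nat.mod_lt _ (pow_pos hm0 _)
      have h6 : (x : ℕ) % m ^ ((i : ℕ) + 1) < (m - p) * m ^ (i : ℕ) := by
        by_contra h7
        rw [not_lt] at h7
        exact absurd ⟨h7, h5⟩ (h3 i)
      have h8 : (x : ℕ) % m ^ ((i : ℕ) + 1) / m ^ (i : ℕ) < m - p :=
        (Nat.div_lt_iff_lt_mul hpos).mpr h6
      omega
  have hK1 : ∀ i : Fin k, (bad1 i).card * K ≤ 2 * n := by
    intro i
    have h1 := card_mod_le n (m ^ ((i : ℕ) + 1)) (Finset.range (p * m ^ (i : ℕ)))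
    rw [Finset.card_range] at h1
    have h2 : m ^ ((i : ℕ) + 1) ≤ n := (Nat.pow_le_pow_right hm0 (by omega)).trans hmk
    calc (bad1 i).card * K ≤ ((n / m ^ ((i : ℕ) + 1) + 1) * (p * m ^ (i : ℕ))) * K := by gcongr
      _ = (n / m ^ ((i : ℕ) + 1) + 1) * (m ^ ((i : ℕ) + 1)) := by
          have : (p * m ^ (i : ℕ)) * K = m ^ ((i : ℕ) + 1) := by
            have e : m ^ ((i : ℕ) + 1) = m ^ (i : ℕ) * (K * p) := by rw [pow_succ, ← hm]
            rw [e]; ring
          rw [mul_assoc, this]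
      _ = n / m ^ ((i : ℕ) + 1) * m ^ ((i : ℕ) + 1) + m ^ ((i : ℕ) + 1) := by ring
      _ ≤ n + n := by gcongr; exact Nat.div_mul_le_self _ _
      _ = 2 * n := by ring
  have hK2 : ∀ i : Fin k, (bad2 i).card * K ≤ 2 * n := by
    intro i
    have h1 := card_mod_le n (m ^ ((i : ℕ) + 1))
      (Finset.Ico ((m - p) * m ^ (i : ℕ)) (m ^ ((i : ℕ) + 1)))
    have hc : (Finset.Ico ((m - p) * m ^ (i : ℕ)) (m ^ ((i : ℕ) + 1))).card = p * m ^ (i : ℕ) := by
      rw [Nat.card_Ico, pow_succ, Nat.sub_mul, mul_comm (m ^ (i : ℕ)) m]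
      have : p * m ^ (i : ℕ) ≤ m * m ^ (i : ℕ) := by gcongr
      omega
    rw [hc] at h1
    have h2 : m ^ ((i : ℕ) + 1) ≤ n := (Nat.pow_le_pow_right hm0 (by omega)).trans hmk
    calc (bad2 i).card * K ≤ ((n / m ^ ((i : ℕ) + 1) + 1) * (p * m ^ (i : ℕ))) * K := by gcongr
      _ = (n / m ^ ((i : ℕ) + 1) + 1) * (m ^ ((i : ℕ) + 1)) := by
          have : (p * m ^ (i : ℕ)) * K = m ^ ((i : ℕ) + 1) := by
            have e : m ^ ((i : ℕ) + 1) = m ^ (i : ℕ) * (K * p) := by rw [pow_succ, ← hm]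
            rw [e]; ring
          rw [mul_assoc, this]
      _ = n / m ^ ((i : ℕ) + 1) * m ^ ((i : ℕ) + 1) + m ^ ((i : ℕ) + 1) := by ring
      _ ≤ n + n := by gcongr; exact Nat.div_mul_le_self _ _
      _ = 2 * n := by ring
  have hK3 : bad3.card * K ≤ n := by
    have h1 : bad3.card ≤ shift m k a := by
      calc bad3.card ≤ (Finset.Ico (n - shift m k a) n).card := by
            apply Finset.card_le_card_of_injOn (fun x : Fin n => (x : ℕ))
            · intro x hx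
              simp only [hbad3, Finset.coe_filter, Finset.mem_univ, true_and,
                Set.mem_ofPred_eq] at hx
              simp only [Finset.coe_Ico, Set.mem_Ico]
              exact ⟨by omega, x.2⟩
            · intro x _ x' _ h
              exact Fin.ext h
        _ ≤ shift m k a := by rw [Nat.card_Ico]; omega
    calc bad3.card * K ≤ (m ^ k * (k * p ^ 2 + 1)) * K := by
          gcongr
          exact h1.trans (shift_le hpm a ha)
      _ ≤ n := by rw [mul_comm]; exact hn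
  have hsum : n ≤ (good n m k p a).card + ((∑ i : Fin k, (bad1 i).card +
      ∑ i : Fin k, (bad2 i).card) + bad3.card) := by
    have h1 := Finset.card_le_card hcover
    rw [Finset.card_univ, Fintype.card_fin] at h1
    refine h1.trans ((Finset.card_union_le _ _).trans ?_)
    gcongr
    refine (Finset.card_union_le _ _).trans ?_
    gcongr
    refine (Finset.card_union_le _ _).trans ?_
    gcongr
    · exact Finset.card_biUnion_le
    · exact Finset.card_biUnion_le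
  calc n * K ≤ ((good n m k p a).card + ((∑ i : Fin k, (bad1 i).card +
      ∑ i : Fin k, (bad2 i).card) + bad3.card)) * K := by gcongr
    _ = (good n m k p a).card * K + ((∑ i : Fin k, (bad1 i).card * K +
      ∑ i : Fin k, (bad2 i).card * K) + bad3.card * K) := by
        rw [← Finset.sum_mul, ← Finset.sum_mul]; ring
    _ ≤ (good n m k p a).card * K + ((∑ _i : Fin k, 2 * n + ∑ _i : Fin k, 2 * n) + n) := by
        have e1 : ∑ i : Fin k, (bad1 i).card * K ≤ ∑ _i : Fin k, 2 * n :=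
          Finset.sum_le_sum fun i _ => hK1 i
        have e2 : ∑ i : Fin k, (bad2 i).card * K ≤ ∑ _i : Fin k, 2 * n :=
          Finset.sum_le_sum fun i _ => hK2 i
        omega
    _ = (good n m k p a).card * K + (4 * k * n + n) := by simp; ring
    _ ≤ (good n m k p a).card * K + 5 * k * n := by
        have : n ≤ k * n := Nat.le_mul_of_pos_left n hk
        nlinarith

/-- injectivity of `shift` on small digit vectors -/
theorem shift_inj {m k p : ℕ} (hm0 : 0 < m) (hpm : p ≤ m) {a b : Fin k → ℕ} (ha : ∀ i, a i < p)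
    (hb : ∀ i, b i < p) (h : shift m k a = shift m k b) : a = b := by
  have h' : (∑ i, (a i : ℤ) * (m : ℤ) ^ (i : ℕ) + (m : ℤ) ^ k * ∑ i, (a i : ℤ) ^ 2)
      = (∑ i, (b i : ℤ) * (m : ℤ) ^ (i : ℕ) + (m : ℤ) ^ k * ∑ i, (b i : ℤ) ^ 2) := by
    have := congrArg (fun z : ℕ => (z : ℤ)) h
    simp only [shift, Nat.cast_add, Nat.cast_sum, Nat.cast_mul, Nat.cast_pow] at this
    exact this
  have key := zero_lemma k (m : ℤ) (by exact_mod_cast hm0) (fun i => (a i : ℤ) - b i) ?_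
    (∑ i, (a i : ℤ) ^ 2 - ∑ i, (b i : ℤ) ^ 2) ?_
  · funext i
    have := key.1 i
    omega
  · intro i
    have h1 := ha i
    have h2 := hb i
    rw [abs_lt]
    constructor <;> omega
  · simp only [sub_mul, Finset.sum_sub_distrib]
    linarith

/-- differences of shifts determine the digit differences -/
theorem shift_diff {m k p : ℕ} (hm0 : 0 < m) (hpm : 2 * p ≤ m) {a b a' b' : Fin k → ℕ}
    (ha : ∀ i, a i < p) (hb : ∀ i, b i < p) (ha' : ∀ i, a' i < p) (hb' : ∀ i, b' i < p)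
    (h : (shift m k a : ℤ) - shift m k b = shift m k a' - shift m k b') :
    (∀ i, (a i : ℤ) - b i = a' i - b' i) ∧
    ∑ i, ((a i : ℤ) ^ 2 - (b i : ℤ) ^ 2) = ∑ i, ((a' i : ℤ) ^ 2 - (b' i : ℤ) ^ 2) := by
  have h' : (∑ i, (a i : ℤ) * (m : ℤ) ^ (i : ℕ) + (m : ℤ) ^ k * ∑ i, (a i : ℤ) ^ 2) -
      (∑ i, (b i : ℤ) * (m : ℤ) ^ (i : ℕ) + (m : ℤ) ^ k * ∑ i, (b i : ℤ) ^ 2) =
      (∑ i, (a' i : ℤ) * (m : ℤ) ^ (i : ℕ) + (m : ℤ) ^ k * ∑ i, (a' i : ℤ) ^ 2) -
      (∑ i, (b' i : ℤ) * (m : ℤ) ^ (i : ℕ) + (m : ℤ) ^ k * ∑ i, (b' i : ℤ) ^ 2) := by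
    have := h
    simp only [shift, Nat.cast_add, Nat.cast_sum, Nat.cast_mul, Nat.cast_pow] at this
    exact this
  have key := zero_lemma k (m : ℤ) (by exact_mod_cast hm0)
    (fun i => ((a i : ℤ) - b i) - (a' i - b' i)) ?_
    ((∑ i, (a i : ℤ) ^ 2 - ∑ i, (b i : ℤ) ^ 2) - (∑ i, (a' i : ℤ) ^ 2 - ∑ i, (b' i : ℤ) ^ 2)) ?_
  · refine ⟨fun i => ?_, ?_⟩
    · have := key.1 i
      linarith
    · rw [Finset.sum_sub_distrib, Finset.sum_sub_distrib]
      linarith [key.2]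
  · intro i
    have h1 := ha i
    have h2 := hb i
    have h3 := ha' i
    have h4 := hb' i
    rw [abs_lt]
    constructor <;> omega
  · simp only [sub_mul, Finset.sum_sub_distrib]
    linarith

/-- **General inequality for digit-paraboloid Toeplitz matrices.** -/
theorem toep_bound {F : Type} [Field F] {n m k p K : ℕ} (hk : 1 ≤ k) (hp : 0 < p) (hK : 0 < K)
    (hm : m = K * p) (hn : K * (m ^ k * (k * p ^ 2 + 1)) ≤ n) (Ω : Finset (Fin k → ℕ))
    (hΩ : ∀ a ∈ Ω, ∀ i, a i < p) (κ l : ℕ)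
    (hfree : ∀ (R S : Finset (Fin n)),
      (∀ x ∈ R, ∀ y ∈ S, ∃ a ∈ Ω, (y : ℕ) = x + shift m k a) → R.card ≤ κ ∨ S.card ≤ l)
    (C : LinCircuit F n n) (hA : C.Computes (toep F n m k Ω)) (T : Finset C.V) (hT : C.Hits T) :
    Ω.card * n * K ≤ Ω.card * (T.card * K + 5 * k * n) +
      (κ * Fintype.card C.V + κ * l * C.E.card + l * n) * K := by
  classical
  have hm0 : 0 < m := by rw [hm]; positivity
  have hpm : p ≤ m := by rw [hm]; exact Nat.le_mul_of_pos_left p hK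
  set y : (Fin k → ℕ) → Fin n → Fin n := fun a x =>
    if h : (x : ℕ) + shift m k a < n then ⟨x + shift m k a, h⟩ else x with hy
  have hyv : ∀ a, ∀ x ∈ good n m k p a, ((y a x : Fin n) : ℕ) = x + shift m k a := by
    intro a x hx
    simp only [good, Finset.mem_filter, Finset.mem_univ, true_and] at hx
    simp only [hy, dif_pos hx.2]
  have hfr := C.frame T (toep F n m k Ω) hA hT κ l
    (fun R S h => hfree R S (fun x hx z hz => toep_ne.mp (h x hx z hz)))
    Ω (good n m k p) y (phi n m k) ?_ ?_ ?_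
  · calc Ω.card * n * K = ∑ _a ∈ Ω, n * K := by rw [Finset.sum_const, smul_eq_mul, mul_assoc]
      _ ≤ ∑ a ∈ Ω, ((good n m k p a).card * K + 5 * k * n) :=
          Finset.sum_le_sum fun a ha => good_card hk hp hK hm hn a (hΩ a ha)
      _ = (∑ a ∈ Ω, (good n m k p a).card) * K + Ω.card * (5 * k * n) := by
          rw [Finset.sum_add_distrib, Finset.sum_mul, Finset.sum_const, smul_eq_mul]
      _ ≤ (Ω.card * T.card + (κ * Fintype.card C.V + κ * l * C.E.card + l * n)) * K +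
          Ω.card * (5 * k * n) := by gcongr
      _ = _ := by ring
  · intro a ha x hx
    exact toep_ne.mpr ⟨a, ha, hyv a x hx⟩
  · intro a ha x hx x' hx' hne hA'
    obtain ⟨b, hb, heq⟩ := toep_ne.mp hA'
    rw [hyv a x' hx'] at heq
    exact phi_lt hm0 (hΩ a ha) (hΩ b hb) hx hx' hne heq
  · intro a ha b hb x hx hx' heq
    have h1 := hyv a x hx
    have h2 := hyv b x hx'
    rw [heq, h2] at h1
    exact (shift_inj hm0 hpm (hΩ b hb) (hΩ a ha) (by omega)).symm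

end H633LC
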