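import Pool.Agent.H633R2.LC.Tau
import Pool.Agent.H633R2.LC.Shift

/-!
# Explicit matrices with large rows and small codegrees
-/

namespace H633LC

open Finset

/-- the shift of a digit vector: `∑ a_i (2p)^i + (2p)^l ((∑ a_i^2) mod p)` -/
def cshift (p l : ℕ) (a : Fin l → ℕ) : ℕ :=
  ∑ i, a i * (2 * p) ^ (i : ℕ) + (2 * p) ^ l * ((∑ i, (a i) ^ 2) % p)

open Classical in
/-- the 0/1 circulant matrix: row `x` has its ones in the columns `x + cshift p l a` mod `n`,
`a ∈ [0, p)^l` -/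
noncomputable def circMat (F : Type) [Field F] (n p l : ℕ) : Fin n → Fin n → F :=
  fun x y => if ∃ a : Fin l → ℕ, (∀ i, a i < p) ∧ (y : ℕ) ≡ x + cshift p l a [MOD n] then 1 else 0

theorem circMat_ne {F : Type} [Field F] {n p l : ℕ} {x y : Fin n} : circMat F n p l x y ≠ 0 ↔
    ∃ a : Fin l → ℕ, (∀ i, a i < p) ∧ (y : ℕ) ≡ x + cshift p l a [MOD n] := by
  unfold circMat
  split_ifs with h
  · simp [h]
  · simp [h]

theorem cshift_lt {p l n : ℕ} (hp : 0 < p) (hn : (2 * p) ^ (l + 1) ≤ n) (a : Fin l → ℕ)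
    (ha : ∀ i, a i < p) : 2 * cshift p l a < n := by
  have h1 := sum_digits_lt (2 * p) l a (fun i => by have := ha i; omega)
  have h2 : (∑ i, (a i) ^ 2) % p < p := Nat.mod_lt _ hp
  have h3 : cshift p l a < (2 * p) ^ l * p := by
    unfold cshift
    calc _ < (2 * p) ^ l + (2 * p) ^ l * ((∑ i, (a i) ^ 2) % p) := by gcongr
      _ = (2 * p) ^ l * ((∑ i, (a i) ^ 2) % p + 1) := by ring
      _ ≤ (2 * p) ^ l * p := by gcongr; omega
  have h4 : (2 * p) ^ (l + 1) = 2 * ((2 * p) ^ l * p) := by rw [pow_succ]; ring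
  omega

/-- differences of shifts determine the digit differences -/
theorem cshift_diff {p l : ℕ} (hp : 0 < p) {a b a' b' : Fin l → ℕ}
    (ha : ∀ i, a i < p) (hb : ∀ i, b i < p) (ha' : ∀ i, a' i < p) (hb' : ∀ i, b' i < p)
    (h : (cshift p l a : ℤ) - cshift p l b = cshift p l a' - cshift p l b') :
    (∀ i, (a i : ℤ) - b i = a' i - b' i) ∧
    ((((∑ i, (a i) ^ 2) % p : ℕ) : ℤ) - (((∑ i, (b i) ^ 2) % p : ℕ) : ℤ)) =
      ((((∑ i, (a' i) ^ 2) % p : ℕ) : ℤ) - (((∑ i, (b' i) ^ 2) % p : ℕ) : ℤ)) := by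
  generalize hA : (∑ i, (a i) ^ 2) % p = A at h ⊢
  generalize hB : (∑ i, (b i) ^ 2) % p = B at h ⊢
  generalize hA' : (∑ i, (a' i) ^ 2) % p = A' at h ⊢
  generalize hB' : (∑ i, (b' i) ^ 2) % p = B' at h ⊢
  have h' : (∑ i, (a i : ℤ) * ((2 * p : ℕ) : ℤ) ^ (i : ℕ) + ((2 * p : ℕ) : ℤ) ^ l * (A : ℤ)) -
      (∑ i, (b i : ℤ) * ((2 * p : ℕ) : ℤ) ^ (i : ℕ) + ((2 * p : ℕ) : ℤ) ^ l * (B : ℤ)) =
      (∑ i, (a' i : ℤ) * ((2 * p : ℕ) : ℤ) ^ (i : ℕ) + ((2 * p : ℕ) : ℤ) ^ l * (A' : ℤ)) -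
      (∑ i, (b' i : ℤ) * ((2 * p : ℕ) : ℤ) ^ (i : ℕ) + ((2 * p : ℕ) : ℤ) ^ l * (B' : ℤ)) := by
    unfold cshift at h
    rw [hA, hB, hA', hB'] at h
    have := h
    simp only [Nat.cast_add, Nat.cast_sum, Nat.cast_mul, Nat.cast_pow] at this ⊢
    exact this
  have key := zero_lemma l ((2 * p : ℕ) : ℤ) (by exact_mod_cast (by omega : 0 < 2 * p))
    (fun i => ((a i : ℤ) - b i) - (a' i - b' i)) ?_ (((A : ℤ) - B) - (A' - B')) ?_
  · refine ⟨fun i => ?_, ?_⟩
    · have := key.1 i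
      linarith
    · linarith [key.2]
  · intro i
    have h1 := ha i
    have h2 := hb i
    have h3 := ha' i
    have h4 := hb' i
    rw [abs_lt]
    constructor <;> push_cast <;> omega
  · simp only [sub_mul, Finset.sum_sub_distrib]
    linarith

theorem cshift_inj {p l : ℕ} (hp : 0 < p) {a b : Fin l → ℕ}
    (ha : ∀ i, a i < p) (hb : ∀ i, b i < p) (h : cshift p l a = cshift p l b) : a = b := by
  have h1 := (cshift_diff hp ha hb hb hb (by rw [h])).1
  funext i
  have := h1 i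
  omega

/-- digit vectors -/
def dig (p l : ℕ) : Finset (Fin l → ℕ) := Fintype.piFinset (fun _ : Fin l => Finset.range p)

theorem mem_dig {p l : ℕ} {a : Fin l → ℕ} : a ∈ dig p l ↔ ∀ i, a i < p := by
  simp [dig, Fintype.mem_piFinset]

theorem dig_card (p l : ℕ) : (dig p l).card = p ^ l := by
  simp [dig, Fintype.card_piFinset]

theorem modEq_inj {n w w' x : ℕ} (hw : w < n) (hw' : w' < n) (h : x + w ≡ x + w' [MOD n]) :
    w = w' := by
  have h1 := Nat.ModEq.add_left_cancel' x h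
  unfold Nat.ModEq at h1
  rwa [Nat.mod_eq_of_lt hw, Nat.mod_eq_of_lt hw'] at h1

theorem circ_row {F : Type} [Field F] {n p l : ℕ} (hp : 0 < p) (hn : (2 * p) ^ (l + 1) ≤ n)
    (S : Finset (Fin n)) (x : Fin n) (hS : ∀ y, y ∈ S ↔ circMat F n p l x y ≠ 0) :
    p ^ l ≤ S.card := by
  have hn0 : 0 < n := lt_of_lt_of_le (by positivity) hn
  rw [← dig_card]
  apply Finset.card_le_card_of_injOn
    (fun a => (⟨(x + cshift p l a) % n, Nat.mod_lt _ hn0⟩ : Fin n))
  · intro a ha
    rw [Finset.mem_coe, mem_dig] at ha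
    rw [Finset.mem_coe, hS, circMat_ne]
    exact ⟨a, ha, Nat.mod_modEq _ _⟩
  · intro a ha b hb h
    rw [Finset.mem_coe, mem_dig] at ha hb
    simp only [Fin.mk.injEq] at h
    have h1 := cshift_lt hp hn a ha
    have h2 := cshift_lt hp hn b hb
    exact cshift_inj hp ha hb (modEq_inj (x := (x : ℕ)) (by omega) (by omega) h)

theorem circ_codeg {F : Type} [Field F] {n p l : ℕ} (hp : p.Prime) (hp2 : p ≠ 2)
    (hn : (2 * p) ^ (l + 1) ≤ n) (x x' : Fin n) (hx : x ≠ x') (S : Finset (Fin n))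
    (hS : ∀ y ∈ S, circMat F n p l x y ≠ 0 ∧ circMat F n p l x' y ≠ 0) :
    S.card ≤ p ^ (l - 1) := by
  classical
  have hp0 := hp.pos
  rcases S.eq_empty_or_nonempty with h0 | ⟨y0, hy0⟩
  · rw [h0]; simp
  have hn0 : 0 < n := lt_of_lt_of_le (by positivity) hn
  have hch : ∀ y : Fin n, ∃ a b : Fin l → ℕ, y ∈ S → (∀ i, a i < p) ∧ (∀ i, b i < p) ∧
      (y : ℕ) ≡ x + cshift p l a [MOD n] ∧ (y : ℕ) ≡ x' + cshift p l b [MOD n] := by
    intro y
    by_cases hy : y ∈ S
    · obtain ⟨h1, h2⟩ := hS y hy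
      rw [circMat_ne] at h1 h2
      obtain ⟨a, ha, hae⟩ := h1
      obtain ⟨b, hb, hbe⟩ := h2
      exact ⟨a, b, fun _ => ⟨ha, hb, hae, hbe⟩⟩
    · exact ⟨0, 0, fun h => absurd h hy⟩
  choose a b hab using hch
  -- all difference vectors are equal
  have hdiff : ∀ y ∈ S, (∀ i, (a y i : ℤ) - b y i = a y0 i - b y0 i) ∧
      ((((∑ i, (a y i) ^ 2) % p : ℕ) : ℤ) - (((∑ i, (b y i) ^ 2) % p : ℕ) : ℤ)) =
      ((((∑ i, (a y0 i) ^ 2) % p : ℕ) : ℤ) - (((∑ i, (b y0 i) ^ 2) % p : ℕ) : ℤ)) := by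
    intro y hy
    obtain ⟨ha, hb, h1, h2⟩ := hab y hy
    obtain ⟨ha0, hb0, h3, h4⟩ := hab y0 hy0
    apply cshift_diff hp0 ha hb ha0 hb0
    have c1 := cshift_lt hp0 hn _ ha
    have c2 := cshift_lt hp0 hn _ hb
    have c3 := cshift_lt hp0 hn _ ha0
    have c4 := cshift_lt hp0 hn _ hb0
    have e1 : (n : ℤ) ∣ ((x : ℤ) + cshift p l (a y)) - (x' + cshift p l (b y)) := by
      have := (h2.symm.trans h1)
      have := (Nat.modEq_iff_dvd.mp this)
      push_cast at this
      exact this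
    have e2 : (n : ℤ) ∣ ((x : ℤ) + cshift p l (a y0)) - (x' + cshift p l (b y0)) := by
      have := (h4.symm.trans h3)
      have := (Nat.modEq_iff_dvd.mp this)
      push_cast at this
      exact this
    have e3 := dvd_sub e1 e2
    have e4 : ((x : ℤ) + cshift p l (a y)) - (x' + cshift p l (b y)) -
        (((x : ℤ) + cshift p l (a y0)) - (x' + cshift p l (b y0))) =
        ((cshift p l (a y) : ℤ) - cshift p l (b y)) -
          (cshift p l (a y0) - cshift p l (b y0)) := by ring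
    rw [e4] at e3
    have e5 := Int.eq_zero_of_abs_lt_dvd e3 (by rw [abs_lt]; constructor <;> omega)
    linarith
  -- some digit differs
  obtain ⟨i0, hi0⟩ : ∃ i0, (a y0 i0 : ℤ) - b y0 i0 ≠ 0 := by
    by_contra hcon
    push Not at hcon
    obtain ⟨ha0, hb0, h3, h4⟩ := hab y0 hy0
    have hEq : a y0 = b y0 := by
      funext i
      have := hcon i
      omega
    rw [hEq] at h3
    have h5 := h3.symm.trans h4
    have h6 : (x : ℕ) ≡ x' [MOD n] := Nat.ModEq.add_right_cancel' _ h5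
    unfold Nat.ModEq at h6
    rw [Nat.mod_eq_of_lt x.2, Nat.mod_eq_of_lt x'.2] at h6
    exact hx (Fin.ext h6)
  -- injection
  have hpos : 1 ≤ l := by
    have := i0.2
    omega
  have hcardT : (Fintype.piFinset (fun i : Fin l => if i = i0 then {0} else Finset.range p)).card
      = p ^ (l - 1) := by
    rw [Fintype.card_piFinset]
    have : ∀ i : Fin l, (if i = i0 then ({0} : Finset ℕ) else Finset.range p).card =
        if i = i0 then 1 else p := by
      intro i
      split_ifs <;> simp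
    rw [Finset.prod_congr rfl fun i _ => this i, Finset.prod_ite]
    simp only [Finset.prod_const_one, one_mul, Finset.prod_const]
    congr 1
    rw [Finset.filter_not, Finset.filter_eq' Finset.univ i0]
    simp [Finset.card_sdiff]
  rw [← hcardT]
  apply Finset.card_le_card_of_injOn (fun y => Function.update (a y) i0 0)
  · intro y hy
    rw [Finset.mem_coe, Fintype.mem_piFinset]
    intro i
    by_cases hi : i = i0
    · subst hi; simp
    · rw [if_neg hi]
      change Function.update (a y) i0 0 i ∈ Finset.range p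
      rw [Function.update_of_ne hi, Finset.mem_range]
      exact (hab y hy).1 i
  · intro y hy y' hy' heq
    obtain ⟨ha, hb, h1, -⟩ := hab y hy
    obtain ⟨ha', hb', h1', -⟩ := hab y' hy'
    obtain ⟨d1, d2⟩ := hdiff y hy
    obtain ⟨d1', d2'⟩ := hdiff y' hy'
    have hag : ∀ i, i ≠ i0 → a y i = a y' i := by
      intro i hi
      have := congrFun heq i
      simpa [Function.update_of_ne hi] using this
    -- the quadratic condition
    have hq : ∀ y ∈ S, ((∑ i, ((a y i : ℤ)) ^ 2 - ∑ i, ((b y i : ℤ)) ^ 2 : ℤ) : ZMod p) =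
        ((∑ i, ((a y0 i : ℤ)) ^ 2 - ∑ i, ((b y0 i : ℤ)) ^ 2 : ℤ) : ZMod p) := by
      intro y hy
      have h := congrArg (fun z : ℤ => (z : ZMod p)) (hdiff y hy).2
      simp only [Int.cast_sub, Int.cast_natCast, ZMod.natCast_mod] at h
      push_cast at h ⊢
      exact h
    have hq1 := hq y hy
    have hq2 := hq y' hy'
    have hsq : ∀ y ∈ S, (∑ i, ((a y i : ℤ)) ^ 2 - ∑ i, ((b y i : ℤ)) ^ 2 : ℤ) =
        ∑ i, (2 * (a y i : ℤ) * (a y0 i - b y0 i) - ((a y0 i : ℤ) - b y0 i) ^ 2) := by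
      intro y hy
      rw [← Finset.sum_sub_distrib]
      apply Finset.sum_congr rfl
      intro i _
      have := (hdiff y hy).1 i
      have hb' : (b y i : ℤ) = a y i - (a y0 i - b y0 i) := by linarith
      rw [hb']; ring
    rw [hsq y hy] at hq1
    rw [hsq y' hy'] at hq2
    have h5 : ((∑ i, (2 * (a y i : ℤ) * (a y0 i - b y0 i) - ((a y0 i : ℤ) - b y0 i) ^ 2) -
        ∑ i, (2 * (a y' i : ℤ) * (a y0 i - b y0 i) - ((a y0 i : ℤ) - b y0 i) ^ 2) : ℤ) : ZMod p)
        = 0 := by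
      rw [Int.cast_sub, hq1, hq2, sub_self]
    rw [← Finset.sum_sub_distrib, Finset.sum_eq_single i0] at h5
    · have h6 : (2 * (a y i0 : ℤ) * (a y0 i0 - b y0 i0) - ((a y0 i0 : ℤ) - b y0 i0) ^ 2 -
          (2 * (a y' i0 : ℤ) * (a y0 i0 - b y0 i0) - ((a y0 i0 : ℤ) - b y0 i0) ^ 2)) =
          2 * (((a y i0 : ℤ) - a y' i0) * (a y0 i0 - b y0 i0)) := by ring
      rw [h6, ZMod.intCast_zmod_eq_zero_iff_dvd] at h5
      have hpp : Prime (p : ℤ) := Nat.prime_iff_prime_int.mp hp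
      obtain ⟨ha0, hb0, -, -⟩ := hab y0 hy0
      rcases hpp.dvd_or_dvd h5 with h7 | h7
      · exfalso
        have : p ∣ 2 := by exact_mod_cast h7
        have := (Nat.prime_dvd_prime_iff_eq hp Nat.prime_two).mp this
        exact hp2 this
      · rcases hpp.dvd_or_dvd h7 with h8 | h8
        · have h9 := Int.eq_zero_of_abs_lt_dvd h8 (by
            have := ha i0
            have := ha' i0
            rw [abs_lt]; constructor <;> omega)
          have h10 : a y = a y' := by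
            funext i
            by_cases hi : i = i0
            · subst hi; omega
            · exact hag i hi
          rw [h10] at h1
          have h11 := h1.trans h1'.symm
          unfold Nat.ModEq at h11
          rw [Nat.mod_eq_of_lt y.2, Nat.mod_eq_of_lt y'.2] at h11
          exact Fin.ext h11
        · exfalso
          exact hi0 (Int.eq_zero_of_abs_lt_dvd h8 (by
            have := ha0 i0
            have := hb0 i0
            rw [abs_lt]; constructor <;> omega))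
    · intro i _ hi
      rw [hag i hi]; ring
    · intro h; exact absurd (Finset.mem_univ _) h

end H633LC
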