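import Mathlib

/-!
# A uniform form of the norm graph lemma

For every `t` there is a constant `L` such that, over every field, for every `t × t` matrix `a`
whose columns have pairwise distinct entries and for every `b`, the solutions of
`∏ j, (x j - a i j) = b i` (`i < t`) have at most `L` different values in each coordinate.
(Kollár, Rónyai and Szabó prove the sharp bound `t!` for the number of solutions.)  The proof
here is a valuation argument over the universal base ring.
-/

namespace H633LC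

open MvPolynomial

variable (t : ℕ)

/-- indices of the variables: `inl (i, j)` is `a i j`, `inr j` is `x j` (or `f j`) -/
abbrev VarIx := (Fin t × Fin t) ⊕ Fin t

abbrev PP := MvPolynomial (VarIx t) ℤ

abbrev LL := FractionRing (PP t)

variable {t}

/-- the polynomial `f i = ∏ j, (x j - a i j)` -/
noncomputable def fP (i : Fin t) : PP t := ∏ j : Fin t, (X (Sum.inr j) - X (Sum.inl (i, j)))

/-- the product of all differences `a i j - a i' j` -/
noncomputable def DD : PP t :=
  ∏ q ∈ (Finset.univ : Finset (Fin t × Fin t × Fin t)).filter (fun q => q.1 ≠ q.2.1),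
    (X (Sum.inl (q.1, q.2.2)) - X (Sum.inl (q.2.1, q.2.2)))

/-- substitution of `f` for the second group of variables -/
noncomputable def sub : PP t →+* PP t :=
  (MvPolynomial.aeval (R := ℤ) (S₁ := PP t)
    (fun v => Sum.elim (fun ij => X (Sum.inl ij)) (fun i => fP i) v)).toRingHom

theorem sub_inl (ij : Fin t × Fin t) : sub (X (Sum.inl ij) : PP t) = X (Sum.inl ij) := by
  simp [sub]

theorem sub_inr (i : Fin t) : sub (X (Sum.inr i) : PP t) = fP i := by
  simp [sub]

theorem sub_DD : sub (DD : PP t) = DD := by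
  simp only [DD, map_prod, map_sub, sub_inl]

theorem sub_DD_pow (N : ℕ) : sub ((DD : PP t) ^ N) = DD ^ N := by
  rw [map_pow, sub_DD]

/-- the generating set of the base ring -/
noncomputable def gens (t : ℕ) : Set (LL t) :=
  {z | (∃ i j, z = algebraMap (PP t) (LL t) (X (Sum.inl (i, j)))) ∨
    (∃ i i' j, i ≠ i' ∧ z = (algebraMap (PP t) (LL t) (X (Sum.inl (i, j)) - X (Sum.inl (i', j))))⁻¹) ∨
    (∃ i, z = algebraMap (PP t) (LL t) (fP i))}

theorem diff_ne {i i' j : Fin t} (h : i ≠ i') :
    (X (Sum.inl (i, j)) - X (Sum.inl (i', j)) : PP t) ≠ 0 := by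
  intro h0
  rw [sub_eq_zero] at h0
  have := MvPolynomial.X_injective h0
  simp only [Sum.inl.injEq, Prod.mk.injEq] at this
  exact h this.1

theorem x_mem_val (j0 : Fin t) (V : ValuationSubring (LL t)) (hV : gens t ⊆ (V : Set (LL t))) :
    algebraMap (PP t) (LL t) (X (Sum.inr j0)) ∈ V := by
  by_contra hx
  set ι := algebraMap (PP t) (LL t) with hι
  have hinj : Function.Injective ι := IsFractionRing.injective _ _
  set v := V.valuation with hv
  have ha : ∀ i j, v (ι (X (Sum.inl (i, j)))) ≤ 1 := fun i j =>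
    (V.valuation_le_one_iff _).mpr (hV (Or.inl ⟨i, j, rfl⟩))
  have hf : ∀ i, v (ι (fP i)) ≤ 1 := fun i =>
    (V.valuation_le_one_iff _).mpr (hV (Or.inr (Or.inr ⟨i, rfl⟩)))
  have hd : ∀ i i' j, i ≠ i' → 1 ≤ v (ι (X (Sum.inl (i, j)) - X (Sum.inl (i', j)))) := by
    intro i i' j h
    have h1 : v (ι (X (Sum.inl (i, j)) - X (Sum.inl (i', j))))⁻¹ ≤ 1 :=
      (V.valuation_le_one_iff _).mpr (hV (Or.inr (Or.inl ⟨i, i', j, h, rfl⟩)))
    rw [map_inv₀] at h1
    have hne : v (ι (X (Sum.inl (i, j)) - X (Sum.inl (i', j)))) ≠ 0 := by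
      rw [Valuation.ne_zero_iff]
      intro h2
      exact diff_ne h (hinj (by rw [h2, map_zero]))
    exact (inv_le_one₀ (zero_lt_iff.mpr hne)).mp h1
  have hx1 : 1 < v (ι (X (Sum.inr j0))) := by
    rw [← not_le]
    intro h
    exact hx ((V.valuation_le_one_iff _).mp h)
  -- for every `i` some factor is small
  have hex : ∀ i : Fin t, ∃ j : Fin t, j ≠ j0 ∧
      v (ι (X (Sum.inr j) - X (Sum.inl (i, j)))) < 1 := by
    intro i
    by_contra hcon
    push Not at hcon
    have h1 : 1 < v (ι (fP i)) := by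
      rw [fP, map_prod, map_prod, ← Finset.mul_prod_erase Finset.univ _ (Finset.mem_univ j0)]
      have h2 : 1 < v (ι (X (Sum.inr j0) - X (Sum.inl (i, j0)))) := by
        rw [map_sub, Valuation.map_sub_eq_of_lt_left]
        · exact hx1
        · exact lt_of_le_of_lt (ha i j0) hx1
      have h3 : 1 ≤ ∏ j ∈ Finset.univ.erase j0, v (ι (X (Sum.inr j) - X (Sum.inl (i, j)))) := by
        apply Finset.one_le_prod''
        intro j
        by_cases hj : j = j0
        · subst hj; exact h2.le
        · exact hcon j hj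
      exact lt_of_lt_of_le h2 (le_mul_of_one_le_right' h3)
    exact absurd h1 (not_lt.mpr (hf i))
  choose g hg1 hg2 using hex
  -- pigeonhole
  have hni : ¬ Function.Injective g := by
    intro hgi
    have hsurj := Finite.injective_iff_surjective.mp hgi
    obtain ⟨i, hi⟩ := hsurj j0
    exact hg1 i hi
  rw [Function.not_injective_iff] at hni
  obtain ⟨i, i', hgi, hne⟩ := hni
  have h1 := hg2 i
  have h2 := hg2 i'
  rw [← hgi] at h2
  have h3 := hd i i' (g i) hne
  have h4 : (X (Sum.inl (i, g i)) - X (Sum.inl (i', g i)) : PP t) =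
      (X (Sum.inr (g i)) - X (Sum.inl (i', g i))) - (X (Sum.inr (g i)) - X (Sum.inl (i, g i))) := by
    ring
  rw [h4, map_sub] at h3
  have h5 := Valuation.map_sub v (ι (X (Sum.inr (g i)) - X (Sum.inl (i', g i))))
    (ι (X (Sum.inr (g i)) - X (Sum.inl (i, g i))))
  exact absurd (lt_of_le_of_lt h5 (max_lt h2 h1)) (not_lt.mpr h3)

theorem x_integral (j0 : Fin t) :
    IsIntegral (Subring.closure (gens t)) (algebraMap (PP t) (LL t) (X (Sum.inr j0))) := by
  have h : algebraMap (PP t) (LL t) (X (Sum.inr j0)) ∈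
      (⨅ V : {V : ValuationSubring (LL t) // gens t ⊆ V.toSubring}, V.1.toSubring) := by
    rw [Subring.mem_iInf]
    rintro ⟨V, hV⟩
    exact x_mem_val j0 V hV
  rw [iInf_valuationSubring_superset] at h
  exact h

theorem clear_denom (z : LL t) (hz : z ∈ Subring.closure (gens t)) :
    ∃ (N : ℕ) (q : PP t), algebraMap (PP t) (LL t) (DD ^ N) * z =
      algebraMap (PP t) (LL t) (sub q) := by
  induction hz using Subring.closure_induction with
  | mem z hz =>
    rcases hz with ⟨i, j, rfl⟩ | ⟨i, i', j, hne, rfl⟩ | ⟨i, rfl⟩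
    · exact ⟨0, X (Sum.inl (i, j)), by rw [sub_inl]; simp⟩
    · refine ⟨1, ∏ q ∈ ((Finset.univ : Finset (Fin t × Fin t × Fin t)).filter
        (fun q => q.1 ≠ q.2.1)).erase (i, i', j),
        (X (Sum.inl (q.1, q.2.2)) - X (Sum.inl (q.2.1, q.2.2))), ?_⟩
      have hmem : (i, i', j) ∈ (Finset.univ : Finset (Fin t × Fin t × Fin t)).filter
        (fun q => q.1 ≠ q.2.1) := by simp [hne]
      have hD : (DD : PP t) = (X (Sum.inl (i, j)) - X (Sum.inl (i', j))) *
          ∏ q ∈ ((Finset.univ : Finset (Fin t × Fin t × Fin t)).filter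
            (fun q => q.1 ≠ q.2.1)).erase (i, i', j),
          (X (Sum.inl (q.1, q.2.2)) - X (Sum.inl (q.2.1, q.2.2))) := by
        rw [DD, ← Finset.mul_prod_erase _ _ hmem]
      have hs : sub (∏ q ∈ ((Finset.univ : Finset (Fin t × Fin t × Fin t)).filter
            (fun q => q.1 ≠ q.2.1)).erase (i, i', j),
          (X (Sum.inl (q.1, q.2.2)) - X (Sum.inl (q.2.1, q.2.2))) : PP t) =
          (∏ q ∈ ((Finset.univ : Finset (Fin t × Fin t × Fin t)).filter
            (fun q => q.1 ≠ q.2.1)).erase (i, i', j),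
          (X (Sum.inl (q.1, q.2.2)) - X (Sum.inl (q.2.1, q.2.2)))) := by
        simp only [map_prod, map_sub, sub_inl]
      have hne0 : algebraMap (PP t) (LL t) (X (Sum.inl (i, j)) - X (Sum.inl (i', j))) ≠ 0 := by
        intro h2
        exact diff_ne hne (IsFractionRing.injective (PP t) (LL t) (by rw [h2, map_zero]))
      rw [hs, pow_one, hD, map_mul]
      field_simp
    · exact ⟨0, X (Sum.inr i), by rw [sub_inr]; simp⟩
  | zero => exact ⟨0, 0, by simp⟩
  | one => exact ⟨0, 1, by simp⟩
  | add x y _ _ hx hy =>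
    obtain ⟨N1, q1, h1⟩ := hx
    obtain ⟨N2, q2, h2⟩ := hy
    refine ⟨N1 + N2, DD ^ N2 * q1 + DD ^ N1 * q2, ?_⟩
    rw [map_add sub, map_mul sub, map_mul sub, sub_DD_pow, sub_DD_pow, map_add, map_mul, map_mul,
      ← h1, ← h2]
    simp only [map_pow]
    ring
  | neg x _ hx =>
    obtain ⟨N1, q1, h1⟩ := hx
    exact ⟨N1, -q1, by rw [mul_neg, h1, map_neg, map_neg]⟩
  | mul x y _ _ hx hy =>
    obtain ⟨N1, q1, h1⟩ := hx
    obtain ⟨N2, q2, h2⟩ := hy
    refine ⟨N1 + N2, q1 * q2, ?_⟩
    rw [map_mul, map_mul, ← h1, ← h2]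
    simp only [map_pow]
    ring

/-- the universal equation -/
theorem universal (j0 : Fin t) : ∃ (d N : ℕ) (G : Polynomial (PP t)), G.natDegree ≤ d ∧
    G.coeff d = DD ^ N ∧ (G.map sub).eval (X (Sum.inr j0)) = 0 := by
  obtain ⟨Q, hQm, hQ⟩ := x_integral j0
  have hc : ∀ e : ℕ, ∃ (N : ℕ) (q : PP t), algebraMap (PP t) (LL t) (DD ^ N) * (Q.coeff e : LL t) =
      algebraMap (PP t) (LL t) (sub q) := fun e => clear_denom _ (Q.coeff e).2
  choose N q hNq using hc
  set d := Q.natDegree with hd
  set M : ℕ := ∑ e ∈ Finset.range d, N e with hM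
  have hNM : ∀ e ∈ Finset.range d, N e ≤ M := fun e he =>
    Finset.single_le_sum (f := N) (fun _ _ => Nat.zero_le _) he
  refine ⟨d, M, (∑ e ∈ Finset.range d, Polynomial.monomial e (DD ^ (M - N e) * q e)) +
    Polynomial.monomial d (DD ^ M), ?_, ?_, ?_⟩
  · refine (Polynomial.natDegree_add_le _ _).trans (max_le ?_ (Polynomial.natDegree_monomial_le _))
    apply Polynomial.natDegree_sum_le_of_forall_le
    intro e he
    exact (Polynomial.natDegree_monomial_le _).trans (Finset.mem_range.mp he).le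
  · rw [Polynomial.coeff_add, Polynomial.finsetSum_coeff, Finset.sum_eq_zero, zero_add,
      Polynomial.coeff_monomial_same]
    intro e he
    rw [Polynomial.coeff_monomial_of_ne]
    exact (Finset.mem_range.mp he).ne'
  · apply IsFractionRing.injective (PP t) (LL t)
    rw [map_zero, Polynomial.map_add, Polynomial.eval_add, Polynomial.map_sum,
      Polynomial.eval_finsetSum, map_add, map_sum]
    have h1 : ∀ e ∈ Finset.range d, algebraMap (PP t) (LL t)
        (Polynomial.eval (X (Sum.inr j0)) (Polynomial.map sub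
          (Polynomial.monomial e (DD ^ (M - N e) * q e)))) =
        algebraMap (PP t) (LL t) (DD ^ M) * ((Q.coeff e : LL t) *
          (algebraMap (PP t) (LL t) (X (Sum.inr j0))) ^ e) := by
      intro e he
      rw [Polynomial.map_monomial, Polynomial.eval_monomial, map_mul sub, sub_DD_pow,
        map_mul, map_mul, ← hNq e, map_pow (algebraMap (PP t) (LL t)) (X (Sum.inr j0))]
      have : (DD : PP t) ^ M = DD ^ (M - N e) * DD ^ N e := by
        rw [← pow_add, Nat.sub_add_cancel (hNM e he)]
      rw [this, map_mul]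
      ring
    rw [Finset.sum_congr rfl h1, Polynomial.map_monomial, Polynomial.eval_monomial, sub_DD_pow,
      map_mul, ← Finset.mul_sum, map_pow (algebraMap (PP t) (LL t)) (X (Sum.inr j0)),
      ← mul_add]
    have h2 : Polynomial.aeval (algebraMap (PP t) (LL t) (X (Sum.inr j0))) Q = 0 := hQ
    rw [Polynomial.aeval_eq_sum_range, Finset.sum_range_succ, ← hd] at h2
    have h3 : Q.coeff d = 1 := hQm
    rw [h3, one_smul] at h2
    have h4 : ∀ e ∈ Finset.range d, (Q.coeff e) • (algebraMap (PP t) (LL t) (X (Sum.inr j0))) ^ e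
        = (Q.coeff e : LL t) * (algebraMap (PP t) (LL t) (X (Sum.inr j0))) ^ e := fun e _ => rfl
    rw [Finset.sum_congr rfl h4] at h2
    rw [h2, mul_zero]

/-- **Uniform norm graph lemma.** -/
theorem krs (t : ℕ) (j0 : Fin t) : ∃ L : ℕ, ∀ (K : Type) [Field K] (a : Fin t → Fin t → K),
    (∀ i i' j, i ≠ i' → a i j ≠ a i' j) → ∀ (b : Fin t → K) (S : Finset K),
    (∀ z ∈ S, ∃ x : Fin t → K, x j0 = z ∧ ∀ i, ∏ j, (x j - a i j) = b i) → S.card ≤ L := by
  obtain ⟨d, N, G, hG1, hG2, hG3⟩ := universal j0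
  refine ⟨d, ?_⟩
  intro K _ a ha b S hS
  classical
  -- evaluation of the coefficients
  set ev : PP t →+* K := (MvPolynomial.aeval (R := ℤ) (S₁ := K)
    (fun v => Sum.elim (fun ij : Fin t × Fin t => a ij.1 ij.2) (fun i => b i) v)).toRingHom
    with hev
  have hDD : ev DD ≠ 0 := by
    rw [DD, map_prod, Finset.prod_ne_zero_iff]
    rintro ⟨i, i', j⟩ hq
    simp only [Finset.mem_filter, Finset.mem_univ, true_and] at hq
    simp only [hev, map_sub, AlgHom.toRingHom_eq_coe, RingHom.coe_coe, aeval_X, Sum.elim_inl]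
    exact sub_ne_zero.mpr (ha i i' j hq)
  have hGne : G.map ev ≠ 0 := by
    intro h0
    have : (G.map ev).coeff d = 0 := by rw [h0, Polynomial.coeff_zero]
    rw [Polynomial.coeff_map, hG2, map_pow] at this
    exact pow_ne_zero N hDD this
  have hroot : ∀ z ∈ S, z ∈ (G.map ev).roots.toFinset := by
    intro z hz
    obtain ⟨x, hxz, hx⟩ := hS z hz
    rw [Multiset.mem_toFinset, Polynomial.mem_roots hGne, Polynomial.IsRoot.def]
    set ex : PP t →+* K := (MvPolynomial.aeval (R := ℤ) (S₁ := K)
      (fun v => Sum.elim (fun ij : Fin t × Fin t => a ij.1 ij.2) (fun i => x i) v)).toRingHom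
      with hex
    have hcomp : ev = ex.comp sub := by
      apply MvPolynomial.ringHom_ext
      · intro r
        simp [hev, hex, sub]
      · rintro (ij | i)
        · simp [hev, hex, sub_inl]
        · rw [RingHom.comp_apply, sub_inr, fP, map_prod]
          simp only [hev, hex, map_sub, AlgHom.toRingHom_eq_coe, RingHom.coe_coe, aeval_X,
            Sum.elim_inl, Sum.elim_inr]
          exact (hx i).symm
    have hz' : z = ex (X (Sum.inr j0)) := by
      simp [hex, hxz]
    rw [hcomp, ← Polynomial.map_map, hz', Polynomial.eval_map, Polynomial.eval₂_at_apply, hG3,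
      map_zero]
  calc S.card ≤ (G.map ev).roots.toFinset.card := Finset.card_le_card hroot
    _ ≤ Multiset.card (G.map ev).roots := Multiset.toFinset_card_le _
    _ ≤ (G.map ev).natDegree := Polynomial.card_roots' _
    _ ≤ G.natDegree := Polynomial.natDegree_map_le
    _ ≤ d := hG1

end H633LC
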