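import Pool.Agent.H633R2.LC.Shift
import Pool.Agent.H633R2.LC.Norm

/-!
# The norm-one digit vectors: many of them, and no large all-one submatrix
-/

namespace H633LC

open Finset

variable {p k : ℕ} [hpf : Fact p.Prime] {E : Type} [Field E] [Algebra (ZMod p) E]
  (β : Module.Basis (Fin k) (ZMod p) E)

theorem mem_normOne {a : Fin k → ℕ} : a ∈ normOne β ↔
    (∀ i, a i < p) ∧ (elt β a) ^ (∑ i ∈ Finset.range k, p ^ i) = 1 := by
  simp [normOne, Fintype.mem_piFinset]

theorem elt_inj {a b : Fin k → ℕ} (ha : ∀ i, a i < p) (hb : ∀ i, b i < p)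
    (h : elt β a = elt β b) : a = b := by
  funext i
  have h1 : β.repr (elt β a) i = β.repr (elt β b) i := by rw [h]
  unfold elt at h1
  rw [β.repr_sum_self, β.repr_sum_self] at h1
  have h2 := (ZMod.natCast_eq_natCast_iff' _ _ _).mp h1
  rwa [Nat.mod_eq_of_lt (ha i), Nat.mod_eq_of_lt (hb i)] at h2

theorem elt_surj (z : E) : ∃ a : Fin k → ℕ, (∀ i, a i < p) ∧ elt β a = z := by
  have : NeZero p := ⟨hpf.out.ne_zero⟩
  refine ⟨fun i => (β.repr z i).val, fun i => ZMod.val_lt _, ?_⟩
  unfold elt
  simp only [ZMod.natCast_val, ZMod.cast_id', id_eq]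
  exact β.sum_repr z

theorem normOne_card (hk : 1 ≤ k) : p ^ (k - 1) ≤ (normOne β).card := by
  classical
  have : NeZero p := ⟨hpf.out.ne_zero⟩
  have : Module.Finite (ZMod p) E := Module.Finite.of_basis β
  have : Finite E := Module.finite_of_finite (ZMod p)
  have : Fintype E := Fintype.ofFinite E
  have hp2 : 2 ≤ p := hpf.out.two_le
  set S : ℕ := ∑ i ∈ Finset.range k, p ^ i with hS
  have hcardE : Fintype.card E = p ^ k := by
    rw [Module.card_eq_pow_finrank (K := ZMod p) (V := E), ZMod.card,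
      Module.finrank_eq_card_basis β, Fintype.card_fin]
  have hgeom : (p - 1) * S = p ^ k - 1 := by
    have := Nat.geomSum_eq hp2 k
    rw [hS, this]
    exact Nat.mul_div_cancel' (Nat.sub_one_dvd_pow_sub_one p k)
  have hcardU : Fintype.card Eˣ = p ^ k - 1 := by
    rw [Fintype.card_units, hcardE]
  have hSpos : p ^ (k - 1) ≤ S := by
    rw [hS]
    exact Finset.single_le_sum (f := fun i => p ^ i) (fun _ _ => Nat.zero_le _)
      (Finset.mem_range.mpr (by omega))
  -- the kernel of the power map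
  set ker : Finset Eˣ := Finset.univ.filter (fun x => x ^ S = 1) with hker
  have h1 : (Finset.univ : Finset Eˣ).card ≤
      ker.card * ((Finset.univ : Finset Eˣ).image (fun x => x ^ S)).card := by
    apply Finset.card_le_mul_card_image
    intro w hw
    obtain ⟨x0, -, rfl⟩ := Finset.mem_image.mp hw
    apply Finset.card_le_card_of_injOn (fun x => x * x0⁻¹)
    · intro x hx
      simp only [Finset.coe_filter, Finset.mem_univ, true_and, Set.mem_ofPred_eq] at hx
      simp only [hker, Finset.coe_filter, Finset.mem_univ, true_and, Set.mem_ofPred_eq]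
      rw [mul_pow, hx, ← mul_pow, mul_inv_cancel, one_pow]
    · intro x _ x' _ h
      exact mul_right_cancel h
  have h2 : ((Finset.univ : Finset Eˣ).image (fun x => x ^ S)).card ≤ p - 1 := by
    calc ((Finset.univ : Finset Eˣ).image (fun x => x ^ S)).card
        ≤ ((Finset.univ : Finset Eˣ).filter (fun x => x ^ (p - 1) = 1)).card := by
          apply Finset.card_le_card
          intro w hw
          obtain ⟨x0, -, rfl⟩ := Finset.mem_image.mp hw
          simp only [Finset.mem_filter, Finset.mem_univ, true_and]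
          rw [← pow_mul, mul_comm, hgeom, ← hcardU, pow_card_eq_one]
      _ ≤ p - 1 := IsCyclic.card_pow_eq_one_le (by omega)
  have h3 : S ≤ ker.card := by
    have h4 : (p - 1) * S ≤ (p - 1) * ker.card := by
      rw [hgeom, ← hcardU, ← Finset.card_univ, mul_comm (p - 1)]
      exact h1.trans (Nat.mul_le_mul_left _ h2)
    exact Nat.le_of_mul_le_mul_left h4 (by omega)
  refine hSpos.trans (h3.trans ?_)
  choose f hf1 hf2 using elt_surj β
  apply Finset.card_le_card_of_injOn (fun x : Eˣ => f (x : E))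
  · intro x hx
    simp only [hker, Finset.coe_filter, Finset.mem_univ, true_and, Set.mem_ofPred_eq] at hx
    rw [Finset.mem_coe, mem_normOne]
    refine ⟨hf1 _, ?_⟩
    rw [hf2, ← hS, ← Units.val_pow_eq_pow_val, hx, Units.val_one]
  · intro x _ x' _ h
    simp only at h
    apply Units.ext
    rw [← hf2 (x : E), h, hf2]

/-- the shifts of the norm-one vectors: any `k` distinct rows have a bounded number of common
columns -/
theorem norm_free {m : ℕ} (hpm : 2 * p ≤ m) (j0 : Fin k) (L : ℕ)
    (hL : ∀ (K : Type) [Field K] (a : Fin k → Fin k → K),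
      (∀ i i' j, i ≠ i' → a i j ≠ a i' j) → ∀ (b : Fin k → K) (S : Finset K),
      (∀ z ∈ S, ∃ x : Fin k → K, x j0 = z ∧ ∀ i, ∏ j, (x j - a i j) = b i) → S.card ≤ L)
    (hj0 : (j0 : ℕ) = 0)
    {n : ℕ} (R S : Finset (Fin n))
    (h : ∀ x ∈ R, ∀ y ∈ S, ∃ a ∈ normOne β, (y : ℕ) = x + shift m k a) :
    R.card ≤ k ∨ S.card ≤ L := by
  classical
  have : CharP E p := charP_of_injective_algebraMap (algebraMap (ZMod p) E).injective p
  have hp2 : 2 ≤ p := hpf.out.two_le
  have hm0 : 0 < m := by omega
  rcases S.eq_empty_or_nonempty with hS | ⟨y0, hy0⟩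
  · right; rw [hS]; simp
  by_contra hcon
  rw [not_or, not_le, not_le] at hcon
  obtain ⟨hR, hScard⟩ := hcon
  obtain ⟨R', hR'sub, hR'card⟩ := Finset.exists_subset_card_eq hR.le
  set x : Fin k → Fin n := fun i => (R'.equivFinOfCardEq hR'card).symm i with hx
  have hxR : ∀ i, x i ∈ R := fun i => hR'sub ((R'.equivFinOfCardEq hR'card).symm i).2
  have hxinj : ∀ i i', x i = x i' → i = i' := by
    intro i i' hh
    exact (R'.equivFinOfCardEq hR'card).symm.injective (Subtype.ext hh)
  have hch : ∀ (y : Fin n) (i : Fin k), ∃ a : Fin k → ℕ, y ∈ S →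
      a ∈ normOne β ∧ (y : ℕ) = x i + shift m k a := by
    intro y i
    by_cases hy : y ∈ S
    · obtain ⟨a, ha, hae⟩ := h (x i) (hxR i) y hy
      exact ⟨a, fun _ => ⟨ha, hae⟩⟩
    · exact ⟨0, fun hh => absurd hh hy⟩
  choose A hA using hch
  have hlt : ∀ y ∈ S, ∀ i j, A y i j < p := fun y hy i => ((mem_normOne β).mp (hA y i hy).1).1
  have hno : ∀ y ∈ S, ∀ i, (elt β (A y i)) ^ (∑ i ∈ Finset.range k, p ^ i) = 1 :=
    fun y hy i => ((mem_normOne β).mp (hA y i hy).1).2
  have hval : ∀ y ∈ S, ∀ i, (y : ℕ) = x i + shift m k (A y i) := fun y hy i => (hA y i hy).2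
  set δ : Fin k → E := fun i => elt β (A y0 j0) - elt β (A y0 i) with hδ
  have hdiff : ∀ y ∈ S, ∀ i, elt β (A y i) = elt β (A y j0) - δ i := by
    intro y hy i
    have e1 := hval y hy i
    have e2 := hval y hy j0
    have e3 := hval y0 hy0 i
    have e4 := hval y0 hy0 j0
    have hsd : (shift m k (A y j0) : ℤ) - shift m k (A y i) =
        shift m k (A y0 j0) - shift m k (A y0 i) := by omega
    have h2 := (shift_diff hm0 hpm (hlt y hy j0) (hlt y hy i) (hlt y0 hy0 j0) (hlt y0 hy0 i)
      hsd).1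
    have h3 : elt β (A y j0) - elt β (A y i) = δ i := by
      rw [hδ]
      simp only [elt]
      rw [← Finset.sum_sub_distrib, ← Finset.sum_sub_distrib]
      apply Finset.sum_congr rfl
      intro j _
      rw [← sub_smul, ← sub_smul]
      congr 1
      have h4 := congrArg (fun z : ℤ => (z : ZMod p)) (h2 j)
      simp only [Int.cast_sub, Int.cast_natCast] at h4
      exact h4
    rw [← h3]; ring
  have hδinj : ∀ i i', i ≠ i' → δ i ≠ δ i' := by
    intro i i' hne heq
    apply hne
    have h5 : elt β (A y0 i) = elt β (A y0 i') := by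
      rw [hδ] at heq
      simp only [sub_right_inj] at heq
      exact heq
    have h6 := elt_inj β (hlt y0 hy0 i) (hlt y0 hy0 i') h5
    have e3 := hval y0 hy0 i
    have e4 := hval y0 hy0 i'
    rw [h6] at e3
    exact hxinj i i' (Fin.ext (by omega))
  have hcard := hL E (fun i j => (δ i) ^ (p ^ (j : ℕ))) ?_ (fun _ => 1)
    (S.image (fun y => elt β (A y j0))) ?_
  · rw [Finset.card_image_of_injOn] at hcard
    · omega
    · intro y hy y' hy' heq
      simp only at heq
      have h6 := elt_inj β (hlt y hy j0) (hlt y' hy' j0) heq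
      have e3 := hval y hy j0
      have e4 := hval y' hy' j0
      rw [h6] at e3
      exact Fin.ext (by omega)
  · intro i i' j hne heq
    have h7 : (δ i - δ i') ^ (p ^ (j : ℕ)) = 0 := by
      rw [sub_pow_char_pow]
      exact sub_eq_zero.mpr heq
    exact hδinj i i' hne (sub_eq_zero.mp (pow_eq_zero_iff (pow_pos (by omega) _).ne' |>.mp h7))
  · intro z hz
    obtain ⟨y, hy, rfl⟩ := Finset.mem_image.mp hz
    refine ⟨fun j => (elt β (A y j0)) ^ (p ^ (j : ℕ)), by simp [hj0], fun i => ?_⟩
    have h8 : ∀ j : Fin k, (elt β (A y j0)) ^ (p ^ (j : ℕ)) - (δ i) ^ (p ^ (j : ℕ)) =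
        (elt β (A y i)) ^ (p ^ (j : ℕ)) := by
      intro j
      rw [hdiff y hy i]
      exact (sub_pow_char_pow (elt β (A y j0)) (δ i) (j : ℕ)).symm
    rw [Finset.prod_congr rfl fun j _ => h8 j, Finset.prod_pow_eq_pow_sum]
    have h9 := hno y hy i
    rw [Finset.sum_range] at h9
    exact h9

end H633LC
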