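import Pool.Agent.H633R2.LC.Uni
import Pool.Agent.H633R2.LC.NormInst
import Pool.Agent.H633R2.LC.Circ

/-!
# Circulant 0/1 matrices from elements of norm one
-/

namespace H633LC

open Finset

theorem circ01_ne {F : Type} [Field F] {n : ℕ} {W : Finset ℕ} {x y : Fin n} :
    circ01 F n W x y ≠ 0 ↔ ∃ w ∈ W, (y : ℕ) ≡ x + w [MOD n] := by
  unfold circ01
  split_ifs with h
  · exact ⟨fun _ => h, fun _ => one_ne_zero⟩
  · exact ⟨fun h' => absurd rfl h', fun h' => absurd h' h⟩

theorem circ01_row {F : Type} [Field F] {n : ℕ} {W : Finset ℕ} (hW : ∀ w ∈ W, w < n)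
    (S : Finset (Fin n)) (x : Fin n) (hS : ∀ y, y ∈ S ↔ circ01 F n W x y ≠ 0) :
    S.card = W.card := by
  have hn0 : 0 < n := x.pos
  symm
  apply Finset.card_bij (fun w _ => (⟨(x + w) % n, Nat.mod_lt _ hn0⟩ : Fin n))
  · intro w hw
    rw [hS, circ01_ne]
    exact ⟨w, hw, Nat.mod_modEq _ _⟩
  · intro w hw w' hw' h
    simp only [Fin.mk.injEq] at h
    exact modEq_inj (x := (x : ℕ)) (hW w hw) (hW w' hw') h
  · intro y hy
    rw [hS, circ01_ne] at hy
    obtain ⟨w, hw, h⟩ := hy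
    refine ⟨w, hw, Fin.ext ?_⟩
    change (x + w) % n = y
    unfold Nat.ModEq at h
    rw [← h, Nat.mod_eq_of_lt y.2]

section abstr

variable {F : Type} [Field F] {n : ℕ} {α : Type} [DecidableEq α] {Ω : Finset α} {s : α → ℕ}
  (hs : ∀ a ∈ Ω, 2 * s a < n) {E : Type} [AddCommGroup E] [DecidableEq E] {ψ : α → E}
  (hinj : ∀ a ∈ Ω, ∀ b ∈ Ω, ψ a = ψ b → a = b)
  (hdiff : ∀ a ∈ Ω, ∀ b ∈ Ω, ∀ a' ∈ Ω, ∀ b' ∈ Ω,
    (s a : ℤ) - s b = s a' - s b' → ψ a - ψ b = ψ a' - ψ b')

include hs in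
omit [DecidableEq α] in
theorem int_diff {x x' y y0 : ℕ} {a b a0 b0 : α} (ha : a ∈ Ω) (hb : b ∈ Ω) (ha0 : a0 ∈ Ω)
    (hb0 : b0 ∈ Ω) (h1 : y ≡ x + s a [MOD n]) (h2 : y ≡ x' + s b [MOD n])
    (h3 : y0 ≡ x + s a0 [MOD n]) (h4 : y0 ≡ x' + s b0 [MOD n]) :
    (s a : ℤ) - s b = s a0 - s b0 := by
  have c1 := hs a ha
  have c2 := hs b hb
  have c3 := hs a0 ha0
  have c4 := hs b0 hb0
  have e1 : (n : ℤ) ∣ ((x : ℤ) + s a) - (x' + s b) := by
    have := Nat.modEq_iff_dvd.mp (h2.symm.trans h1)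
    push_cast at this
    exact this
  have e2 : (n : ℤ) ∣ ((x : ℤ) + s a0) - (x' + s b0) := by
    have := Nat.modEq_iff_dvd.mp (h4.symm.trans h3)
    push_cast at this
    exact this
  have e3 := dvd_sub e1 e2
  have e4 : ((x : ℤ) + s a) - (x' + s b) - (((x : ℤ) + s a0) - (x' + s b0)) =
      ((s a : ℤ) - s b) - (s a0 - s b0) := by ring
  rw [e4] at e3
  have e5 := Int.eq_zero_of_abs_lt_dvd e3 (by rw [abs_lt]; constructor <;> omega)
  linarith

theorem col_eq {x y y' w : ℕ} (hy : y < n) (hy' : y' < n) (h : y ≡ x + w [MOD n])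
    (h' : y' ≡ x + w [MOD n]) : y = y' := by
  have h11 := h.trans h'.symm
  unfold Nat.ModEq at h11
  rwa [Nat.mod_eq_of_lt hy, Nat.mod_eq_of_lt hy'] at h11

include hs hinj hdiff in
omit [DecidableEq α] in
theorem circ01_codeg (d : ℕ) (hd : ∀ e : E, e ≠ 0 → ∀ S : Finset E,
      (∀ z ∈ S, z ∈ Ω.image ψ ∧ z - e ∈ Ω.image ψ) → S.card ≤ d)
    (x x' : Fin n) (hx : x ≠ x') (S : Finset (Fin n))
    (hS : ∀ y ∈ S, circ01 F n (Ω.image s) x y ≠ 0 ∧ circ01 F n (Ω.image s) x' y ≠ 0) :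
    S.card ≤ d := by
  rcases S.eq_empty_or_nonempty with h0 | ⟨y0, hy0⟩
  · rw [h0]; simp
  have hch : ∀ y ∈ S, ∃ a b : α, a ∈ Ω ∧ b ∈ Ω ∧ (y : ℕ) ≡ x + s a [MOD n] ∧
      (y : ℕ) ≡ x' + s b [MOD n] := by
    intro y hy
    obtain ⟨h1, h2⟩ := hS y hy
    rw [circ01_ne] at h1 h2
    obtain ⟨w, hw, h3⟩ := h1
    obtain ⟨w', hw', h4⟩ := h2
    obtain ⟨a, ha, rfl⟩ := Finset.mem_image.mp hw
    obtain ⟨b, hb, rfl⟩ := Finset.mem_image.mp hw'
    exact ⟨a, b, ha, hb, h3, h4⟩
  have hne : Nonempty α := by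
    obtain ⟨a, -⟩ := hch y0 hy0
    exact ⟨a⟩
  choose! a b ha hb hya hyb using hch
  set e : E := ψ (a y0) - ψ (b y0) with he
  have hde : ∀ y ∈ S, ψ (a y) - ψ (b y) = e := fun y hy =>
    hdiff _ (ha y hy) _ (hb y hy) _ (ha y0 hy0) _ (hb y0 hy0)
      (int_diff hs (ha y hy) (hb y hy) (ha y0 hy0) (hb y0 hy0) (hya y hy) (hyb y hy)
        (hya y0 hy0) (hyb y0 hy0))
  have hene : e ≠ 0 := by
    intro h0
    have h1 : a y0 = b y0 := hinj _ (ha y0 hy0) _ (hb y0 hy0) (sub_eq_zero.mp h0)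
    have h2 := hya y0 hy0
    rw [h1] at h2
    have h5 := h2.symm.trans (hyb y0 hy0)
    have h6 : (x : ℕ) ≡ x' [MOD n] := Nat.ModEq.add_right_cancel' _ h5
    unfold Nat.ModEq at h6
    rw [Nat.mod_eq_of_lt x.2, Nat.mod_eq_of_lt x'.2] at h6
    exact hx (Fin.ext h6)
  have h1 := hd e hene (S.image (fun y => ψ (a y))) (by
    intro z hz
    obtain ⟨y, hy, rfl⟩ := Finset.mem_image.mp hz
    refine ⟨Finset.mem_image_of_mem _ (ha y hy), ?_⟩
    have : ψ (a y) - e = ψ (b y) := by rw [← hde y hy]; abel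
    rw [this]
    exact Finset.mem_image_of_mem _ (hb y hy))
  rwa [Finset.card_image_of_injOn] at h1
  intro y hy y' hy' h
  simp only at h
  have h2 := hinj _ (ha y hy) _ (ha y' hy') h
  have h3 := hya y' hy'
  rw [← h2] at h3
  exact Fin.ext (col_eq y.2 y'.2 (hya y hy) h3)

include hs hinj hdiff in
omit [DecidableEq α] in
theorem circ01_free (k L : ℕ) (hL : ∀ δ : Fin k → E, Function.Injective δ → ∀ S : Finset E,
      (∀ z ∈ S, ∀ i, z - δ i ∈ Ω.image ψ) → S.card ≤ L) (hk : 1 ≤ k)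
    (R S : Finset (Fin n))
    (h : ∀ x ∈ R, ∀ y ∈ S, circ01 F n (Ω.image s) x y ≠ 0) : R.card ≤ k ∨ S.card ≤ L := by
  rcases S.eq_empty_or_nonempty with hS | ⟨y0, hy0⟩
  · right; rw [hS]; simp
  by_contra hcon
  rw [not_or, not_le, not_le] at hcon
  obtain ⟨hR, hScard⟩ := hcon
  obtain ⟨R', hR'sub, hR'card⟩ := Finset.exists_subset_card_eq hR.le
  set x : Fin k → Fin n := fun i => (R'.equivFinOfCardEq hR'card).symm i with hx
  have hxR : ∀ i, x i ∈ R := fun i => hR'sub ((R'.equivFinOfCardEq hR'card).symm i).2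
  have hxinj : ∀ i i', x i = x i' → i = i' := by
    intro i i' hh
    exact (R'.equivFinOfCardEq hR'card).symm.injective (Subtype.ext hh)
  have hch : ∀ y ∈ S, ∀ i, ∃ a : α, a ∈ Ω ∧ (y : ℕ) ≡ x i + s a [MOD n] := by
    intro y hy i
    have h1 := h (x i) (hxR i) y hy
    rw [circ01_ne] at h1
    obtain ⟨w, hw, h3⟩ := h1
    obtain ⟨a, ha, rfl⟩ := Finset.mem_image.mp hw
    exact ⟨a, ha, h3⟩
  have hne : Nonempty α := by
    obtain ⟨a, -⟩ := hch y0 hy0 ⟨0, hk⟩
    exact ⟨a⟩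
  choose! A hA hyA using hch
  set j0 : Fin k := ⟨0, hk⟩ with hj0
  set δ : Fin k → E := fun i => ψ (A y0 j0) - ψ (A y0 i) with hδ
  have hd : ∀ y ∈ S, ∀ i, ψ (A y j0) - ψ (A y i) = δ i := fun y hy i =>
    hdiff _ (hA y hy j0) _ (hA y hy i) _ (hA y0 hy0 j0) _ (hA y0 hy0 i)
      (int_diff hs (hA y hy j0) (hA y hy i) (hA y0 hy0 j0) (hA y0 hy0 i) (hyA y hy j0)
        (hyA y hy i) (hyA y0 hy0 j0) (hyA y0 hy0 i))
  have hδinj : Function.Injective δ := by
    intro i i' heq
    apply hxinj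
    have h5 : ψ (A y0 i) = ψ (A y0 i') := by
      rw [hδ] at heq
      simpa using heq
    have h6 := hinj _ (hA y0 hy0 i) _ (hA y0 hy0 i') h5
    have h7 := hyA y0 hy0 i
    rw [h6] at h7
    have h8 := h7.symm.trans (hyA y0 hy0 i')
    have h9 : (x i : ℕ) ≡ x i' [MOD n] := Nat.ModEq.add_right_cancel' _ h8
    unfold Nat.ModEq at h9
    rw [Nat.mod_eq_of_lt (x i).2, Nat.mod_eq_of_lt (x i').2] at h9
    exact Fin.ext h9
  have h1 := hL δ hδinj (S.image (fun y => ψ (A y j0))) (by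
    intro z hz i
    obtain ⟨y, hy, rfl⟩ := Finset.mem_image.mp hz
    have : ψ (A y j0) - δ i = ψ (A y i) := by rw [← hd y hy i]; abel
    rw [this]
    exact Finset.mem_image_of_mem _ (hA y hy i))
  rw [Finset.card_image_of_injOn] at h1
  · omega
  · intro y hy y' hy' hh
    simp only at hh
    have h2 := hinj _ (hA y hy j0) _ (hA y' hy' j0) hh
    have h3 := hyA y' hy' j0
    rw [← h2] at h3
    exact Fin.ext (col_eq y.2 y'.2 (hyA y hy j0) h3)

end abstr

section norm

variable {p k : ℕ} [hpf : Fact p.Prime] {E : Type} [Field E] [Algebra (ZMod p) E]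
  (β : Module.Basis (Fin k) (ZMod p) E)

/-- any `k` distinct translates of the norm-one group have boundedly many common elements -/
theorem norm_group (hk : 1 ≤ k) (L : ℕ)
    (hL : ∀ (K : Type) [Field K] (a : Fin k → Fin k → K),
      (∀ i i' j, i ≠ i' → a i j ≠ a i' j) → ∀ (b : Fin k → K) (S : Finset K),
      (∀ z ∈ S, ∃ x : Fin k → K, x ⟨0, hk⟩ = z ∧ ∀ i, ∏ j, (x j - a i j) = b i) → S.card ≤ L)
    (δ : Fin k → E) (hδ : Function.Injective δ) (S : Finset E)
    (hS : ∀ z ∈ S, ∀ i, (z - δ i) ^ (∑ i ∈ Finset.range k, p ^ i) = 1) : S.card ≤ L := by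
  have : CharP E p := charP_of_injective_algebraMap (algebraMap (ZMod p) E).injective p
  have hp2 : 2 ≤ p := hpf.out.two_le
  refine hL E (fun i j => (δ i) ^ (p ^ (j : ℕ))) ?_ (fun _ => 1) S ?_
  · intro i i' j hne heq
    have h7 : (δ i - δ i') ^ (p ^ (j : ℕ)) = 0 := by
      rw [sub_pow_char_pow]
      exact sub_eq_zero.mpr heq
    exact hne (hδ (sub_eq_zero.mp
      (pow_eq_zero_iff (pow_pos (by omega) _).ne' |>.mp h7)))
  · intro z hz
    refine ⟨fun j => z ^ (p ^ (j : ℕ)), by simp, fun i => ?_⟩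
    have h8 : ∀ j : Fin k, z ^ (p ^ (j : ℕ)) - (δ i) ^ (p ^ (j : ℕ)) =
        (z - δ i) ^ (p ^ (j : ℕ)) := fun j => (sub_pow_char_pow z (δ i) (j : ℕ)).symm
    rw [Finset.prod_congr rfl fun j _ => h8 j, Finset.prod_pow_eq_pow_sum]
    have h9 := hS z hz i
    rw [Finset.sum_range] at h9
    exact h9

omit hpf [Algebra (ZMod p) E] in
open Classical in
/-- two translates of the norm-one group have few common elements -/
theorem norm_codeg (L : ℕ)
    (hL : ∀ δ : Fin k → E, Function.Injective δ → ∀ S : Finset E,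
      (∀ z ∈ S, ∀ i, (z - δ i) ^ (∑ i ∈ Finset.range k, p ^ i) = 1) → S.card ≤ L)
    (N1 : Finset E) (hN1 : ∀ z, z ∈ N1 ↔ z ^ (∑ i ∈ Finset.range k, p ^ i) = 1)
    (hk : 1 ≤ k) (M : ℕ) (hM : M ≤ N1.card) (e : E) (he : e ≠ 0) (S : Finset E)
    (hS : ∀ z ∈ S, z ∈ N1 ∧ z - e ∈ N1) :
    M * S.card ≤ k * N1.card + M * (2 ^ M * L) := by
  obtain ⟨Θ, hΘ, hΘM⟩ := Finset.exists_subset_card_eq hM
  set s : ℕ := ∑ i ∈ Finset.range k, p ^ i with hs
  have hs0 : s ≠ 0 := by
    rw [hs]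
    have : p ^ 0 ≤ ∑ i ∈ Finset.range k, p ^ i :=
      Finset.single_le_sum (f := fun i => p ^ i) (fun _ _ => Nat.zero_le _)
        (Finset.mem_range.mpr (by omega))
    simp only [pow_zero] at this
    omega
  have hne : ∀ θ ∈ Θ, θ ≠ 0 := by
    intro θ hθ h0
    have := (hN1 θ).mp (hΘ hθ)
    rw [h0, zero_pow hs0] at this
    exact zero_ne_one this
  -- scaling
  have h1 : ∀ θ ∈ Θ, S.card ≤ (N1.filter (fun z => z - θ * e ∈ N1)).card := by
    intro θ hθ
    apply Finset.card_le_card_of_injOn (fun z => θ * z)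
    · intro z hz
      obtain ⟨hz1, hz2⟩ := hS z hz
      rw [hN1] at hz1 hz2
      have hθ1 := (hN1 θ).mp (hΘ hθ)
      rw [Finset.mem_coe, Finset.mem_filter, hN1, hN1]
      refine ⟨by rw [mul_pow, hθ1, hz1, one_mul], ?_⟩
      have : θ * z - θ * e = θ * (z - e) := by ring
      rw [this, mul_pow, hθ1, hz2, one_mul]
    · intro z _ z' _ h
      exact mul_left_cancel₀ (hne θ hθ) h
  have h2 : M * S.card ≤ ∑ z ∈ N1, (Θ.filter (fun θ => z - θ * e ∈ N1)).card := by
    calc M * S.card = ∑ _θ ∈ Θ, S.card := by rw [Finset.sum_const, smul_eq_mul, hΘM]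
      _ ≤ ∑ θ ∈ Θ, (N1.filter (fun z => z - θ * e ∈ N1)).card := Finset.sum_le_sum h1
      _ = ∑ θ ∈ Θ, ∑ z ∈ N1, (if z - θ * e ∈ N1 then 1 else 0) := by
          apply Finset.sum_congr rfl
          intro θ _
          rw [Finset.card_filter]
      _ = ∑ z ∈ N1, ∑ θ ∈ Θ, (if z - θ * e ∈ N1 then 1 else 0) := Finset.sum_comm
      _ = _ := by
          apply Finset.sum_congr rfl
          intro z _
          rw [Finset.card_filter]
  -- the elements of large degree
  set B : Finset E := N1.filter (fun z => k ≤ (Θ.filter (fun θ => z - θ * e ∈ N1)).card) with hB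
  have hBc : B.card ≤ 2 ^ M * L := by
    have hsub : B ⊆ (Θ.powerset.filter (fun U => U.card = k)).biUnion
        (fun U => N1.filter (fun z => ∀ θ ∈ U, z - θ * e ∈ N1)) := by
      intro z hz
      rw [hB, Finset.mem_filter] at hz
      obtain ⟨U, hU, hUk⟩ := Finset.exists_subset_card_eq hz.2
      rw [Finset.mem_biUnion]
      refine ⟨U, ?_, ?_⟩
      · rw [Finset.mem_filter, Finset.mem_powerset]
        exact ⟨fun θ hθ => (Finset.mem_filter.mp (hU hθ)).1, hUk⟩
      · rw [Finset.mem_filter]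
        exact ⟨hz.1, fun θ hθ => (Finset.mem_filter.mp (hU hθ)).2⟩
    calc B.card ≤ _ := Finset.card_le_card hsub
      _ ≤ ∑ U ∈ Θ.powerset.filter (fun U => U.card = k),
            (N1.filter (fun z => ∀ θ ∈ U, z - θ * e ∈ N1)).card := Finset.card_biUnion_le
      _ ≤ ∑ _U ∈ Θ.powerset.filter (fun U => U.card = k), L := by
          apply Finset.sum_le_sum
          intro U hU
          rw [Finset.mem_filter, Finset.mem_powerset] at hU
          refine hL (fun i => ((U.equivFinOfCardEq hU.2).symm i : E) * e) ?_ _ ?_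
          · intro i i' hii
            have h3 := mul_right_cancel₀ he hii
            exact (U.equivFinOfCardEq hU.2).symm.injective (Subtype.ext h3)
          · intro z hz i
            rw [Finset.mem_filter] at hz
            exact (hN1 _).mp (hz.2 _ ((U.equivFinOfCardEq hU.2).symm i).2)
      _ = (Θ.powerset.filter (fun U => U.card = k)).card * L := by
          rw [Finset.sum_const, smul_eq_mul]
      _ ≤ 2 ^ M * L := by
          gcongr
          rw [← hΘM, ← Finset.card_powerset]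
          exact Finset.card_filter_le _ _
  calc M * S.card ≤ _ := h2
    _ ≤ ∑ z ∈ N1, (k + if z ∈ B then M else 0) := by
        apply Finset.sum_le_sum
        intro z hz
        by_cases hzB : z ∈ B
        · rw [if_pos hzB]
          have : (Θ.filter (fun θ => z - θ * e ∈ N1)).card ≤ M := by
            rw [← hΘM]; exact Finset.card_filter_le _ _
          omega
        · rw [if_neg hzB]
          rw [hB, Finset.mem_filter, not_and, not_le] at hzB
          have := hzB hz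
          omega
    _ = k * N1.card + M * B.card := by
        rw [Finset.sum_add_distrib, Finset.sum_const, smul_eq_mul, mul_comm N1.card k,
          ← Finset.sum_filter, Finset.sum_const, smul_eq_mul, mul_comm M B.card]
        congr 2
        congr 1
        ext z
        rw [Finset.mem_filter]
        exact ⟨fun h => h.2, fun h => ⟨(Finset.mem_filter.mp h).1, h⟩⟩
    _ ≤ _ := by gcongr

omit hpf in
theorem nshift_lt {n : ℕ} (hn : (2 * p) ^ k ≤ n) (a : Fin k → ℕ)
    (ha : ∀ i, a i < p) : 2 * nshift p k a < n := by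
  refine lt_of_lt_of_le ?_ hn
  have h1 : ∀ (k : ℕ) (a : Fin k → ℕ), (∀ i, a i < p) →
      2 * ∑ i, a i * (2 * p) ^ (i : ℕ) < (2 * p) ^ k := by
    intro k
    induction k with
    | zero => intro a _; simp
    | succ k ih =>
      intro a ha
      rw [Fin.sum_univ_castSucc]
      simp only [Fin.val_castSucc, Fin.val_last]
      have h1 := ih (fun i => a i.castSucc) (fun i => ha _)
      have h2 : a (Fin.last k) + 1 ≤ p := ha _
      calc 2 * (∑ i : Fin k, a i.castSucc * (2 * p) ^ (i : ℕ) + a (Fin.last k) * (2 * p) ^ k)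
          < (2 * p) ^ k + 2 * (a (Fin.last k) * (2 * p) ^ k) := by omega
        _ ≤ 2 * (2 * p) ^ k + 2 * (a (Fin.last k) * (2 * p) ^ k) := by omega
        _ = 2 * ((a (Fin.last k) + 1) * (2 * p) ^ k) := by ring
        _ ≤ 2 * (p * (2 * p) ^ k) := by gcongr
        _ = (2 * p) ^ (k + 1) := by ring
  exact h1 k a ha

omit hpf in
theorem nshift_diff (hp : 0 < p) {a b a' b' : Fin k → ℕ}
    (ha : ∀ i, a i < p) (hb : ∀ i, b i < p) (ha' : ∀ i, a' i < p) (hb' : ∀ i, b' i < p)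
    (h : (nshift p k a : ℤ) - nshift p k b = nshift p k a' - nshift p k b') :
    ∀ i, (a i : ℤ) - b i = a' i - b' i := by
  have h' : (∑ i, (a i : ℤ) * ((2 * p : ℕ) : ℤ) ^ (i : ℕ)) -
      (∑ i, (b i : ℤ) * ((2 * p : ℕ) : ℤ) ^ (i : ℕ)) =
      (∑ i, (a' i : ℤ) * ((2 * p : ℕ) : ℤ) ^ (i : ℕ)) -
      (∑ i, (b' i : ℤ) * ((2 * p : ℕ) : ℤ) ^ (i : ℕ)) := by
    unfold nshift at h
    simp only [Nat.cast_sum, Nat.cast_mul, Nat.cast_pow] at h ⊢
    exact h
  have key := zero_lemma k ((2 * p : ℕ) : ℤ) (by exact_mod_cast (by omega : 0 < 2 * p))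
    (fun i => ((a i : ℤ) - b i) - (a' i - b' i)) ?_ 0 ?_
  · intro i
    have := key.1 i
    linarith
  · intro i
    have h1 := ha i
    have h2 := hb i
    have h3 := ha' i
    have h4 := hb' i
    rw [abs_lt]
    constructor <;> push_cast <;> omega
  · simp only [sub_mul, Finset.sum_sub_distrib, mul_zero, add_zero]
    linarith

theorem elt_diff {a b a' b' : Fin k → ℕ} (h : ∀ i, (a i : ℤ) - b i = a' i - b' i) :
    elt β a - elt β b = elt β a' - elt β b' := by
  simp only [elt]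
  rw [← Finset.sum_sub_distrib, ← Finset.sum_sub_distrib]
  apply Finset.sum_congr rfl
  intro j _
  rw [← sub_smul, ← sub_smul]
  congr 1
  have h4 := congrArg (fun z : ℤ => (z : ZMod p)) (h j)
  simp only [Int.cast_sub, Int.cast_natCast] at h4
  exact h4

open Classical in
/-- **Master inequality for the circulant norm matrices.** -/
theorem cnorm_master (k : ℕ) (hk : 2 ≤ k) : ∃ Q p0 : ℕ, 0 < Q ∧ ∀ (p n : ℕ) (_ : Fact p.Prime)
    (_ : p0 ≤ p) (_ : (2 * p) ^ k ≤ n) (E : Type) [Field E] [Algebra (ZMod p) E]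
    (β : Module.Basis (Fin k) (ZMod p) E),
    (∀ w ∈ normShifts β, 2 * w < n) ∧ p ^ (k - 1) ≤ (normShifts β).card ∧
    ∀ (F : Type) [Field F] (C : LinCircuit F n n) (_ : C.Computes (circ01 F n (normShifts β)))
      (H : Finset C.V) (r : ℕ) (_ : r + H.card ≤ n),
      r ^ 2 * (normShifts β).card ≤
        Q * C.E.card * (r + ∑ v ∈ Finset.univ \ H, (C.cancelSet v).card) := by
  have hk1 : 1 ≤ k := by omega
  obtain ⟨L0, hL0⟩ := krs k ⟨0, hk1⟩
  set L : ℕ := L0 + 1 with hLdef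
  set M : ℕ := 8 * k ^ 2 with hMdef
  set B : ℕ := 2 ^ M * L with hBdef
  refine ⟨4 * k * (L + k * (k + 1)), 8 * k * B + 2 * L + 1 + M, by positivity, ?_⟩
  intro p n hpf hp0 hn E _ _ β
  have hpp := hpf.out.pos
  have hlt : ∀ a ∈ normOne β, ∀ i, a i < p := fun a ha => ((mem_normOne β).mp ha).1
  have hsh : ∀ a ∈ normOne β, 2 * nshift p k a < n := fun a ha => nshift_lt hn a (hlt a ha)
  have hinj : ∀ a ∈ normOne β, ∀ b ∈ normOne β, elt β a = elt β b → a = b :=
    fun a ha b hb h => elt_inj β (hlt a ha) (hlt b hb) h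
  have hdiff : ∀ a ∈ normOne β, ∀ b ∈ normOne β, ∀ a' ∈ normOne β, ∀ b' ∈ normOne β,
      (nshift p k a : ℤ) - nshift p k b = nshift p k a' - nshift p k b' →
      elt β a - elt β b = elt β a' - elt β b' := fun a ha b hb a' ha' b' hb' h =>
    elt_diff β (nshift_diff hpp (hlt a ha) (hlt b hb) (hlt a' ha') (hlt b' hb') h)
  have hsinj : ∀ a ∈ normOne β, ∀ b ∈ normOne β, nshift p k a = nshift p k b → a = b := by
    intro a ha b hb h
    apply hinj a ha b hb
    have := hdiff a ha b hb b hb b hb (by rw [h])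
    rw [sub_self] at this
    exact sub_eq_zero.mp this
  have hcardW : (normShifts β).card = (normOne β).card := by
    unfold normShifts
    exact Finset.card_image_of_injOn (fun a ha b hb h => hsinj a ha b hb h)
  have hcardN : ((normOne β).image (elt β)).card = (normOne β).card :=
    Finset.card_image_of_injOn (fun a ha b hb h => hinj a ha b hb h)
  have hmemN : ∀ z, z ∈ (normOne β).image (elt β) ↔
      z ^ (∑ i ∈ Finset.range k, p ^ i) = 1 := by
    intro z
    rw [Finset.mem_image]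
    constructor
    · rintro ⟨a, ha, rfl⟩; exact ((mem_normOne β).mp ha).2
    · intro hz
      obtain ⟨a, ha, hae⟩ := elt_surj β z
      exact ⟨a, (mem_normOne β).mpr ⟨ha, by rw [hae]; exact hz⟩, hae⟩
  have hbig : p ^ (k - 1) ≤ (normShifts β).card := by
    rw [hcardW]; exact normOne_card β hk1
  have hpbig : p ≤ (normShifts β).card := by
    refine le_trans ?_ hbig
    exact Nat.le_self_pow (by omega) p
  refine ⟨?_, hbig, ?_⟩
  · intro w hw
    obtain ⟨a, ha, rfl⟩ := Finset.mem_image.mp hw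
    exact hsh a ha
  intro F _ C hC H r hr
  set D : ℕ := (normShifts β).card with hD
  have hgrp : ∀ δ : Fin k → E, Function.Injective δ → ∀ S : Finset E,
      (∀ z ∈ S, ∀ i, (z - δ i) ^ (∑ i ∈ Finset.range k, p ^ i) = 1) → S.card ≤ L :=
    fun δ hδ S hS => (norm_group hk1 L0 hL0 δ hδ S hS).trans (by omega)
  have hrow : ∀ i, D ≤ (C.supp (C.out i)).card := by
    intro i
    apply le_of_eq
    symm
    apply circ01_row (F := F) (n := n) (W := normShifts β) _ _ i
    · intro y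
      rw [LinCircuit.mem_supp, hC i y]
    · intro w hw
      obtain ⟨a, ha, rfl⟩ := Finset.mem_image.mp hw
      have := hsh a ha
      omega
  have hfree : ∀ (R : Finset (Fin n)) (S : Finset (Fin n)),
      (∀ i ∈ R, ∀ j ∈ S, C.form (C.out i) j ≠ 0) → R.card ≤ k ∨ S.card ≤ L := by
    intro R S hRS
    apply circ01_free (F := F) hsh hinj hdiff k L _ hk1 R S
    · intro x hx y hy
      have := hRS x hx y hy
      rw [hC x y] at this
      exact this
    · intro δ hδ S hS
      exact hgrp δ hδ S fun z hz i => (hmemN _).mp (hS z hz i)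
  have hkB : 0 < 8 * k := by omega
  set d : ℕ := (D + 8 * k * B) / (8 * k) with hd
  have hco : ∀ i i', i ≠ i' → (C.supp (C.out i) ∩ C.supp (C.out i')).card ≤ d := by
    intro i i' hne
    apply circ01_codeg (F := F) hsh hinj hdiff d _ i i' hne
    · intro y hy
      rw [Finset.mem_inter, LinCircuit.mem_supp, LinCircuit.mem_supp, hC i y, hC i' y] at hy
      exact hy
    · intro e he S hS
      rw [hd, Nat.le_div_iff_mul_le hkB]
      have h1 := norm_codeg (p := p) L hgrp ((normOne β).image (elt β)) hmemN hk1 M (by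
        rw [hcardN, ← hcardW]; omega) e he S hS
      rw [hcardN, ← hcardW, hMdef] at h1
      have h2 : k * (S.card * (8 * k)) ≤ k * (D + 8 * k * B) := by
        calc k * (S.card * (8 * k)) = 8 * k ^ 2 * S.card := by ring
          _ ≤ k * D + 8 * k ^ 2 * (2 ^ (8 * k ^ 2) * L) := h1
          _ = k * (D + 8 * k * B) := by rw [hBdef, hMdef]; ring
      exact Nat.le_of_mul_le_mul_left h2 (by omega)
  have hD2 : 4 * k * d ≤ D := by
    have h1 : 8 * k * d ≤ D + 8 * k * B := by rw [hd]; exact Nat.mul_div_le _ _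
    have h2 : 8 * k * B ≤ D := by omega
    have h3 : 2 * (4 * k * d) ≤ 2 * D := by
      calc 2 * (4 * k * d) = 8 * k * d := by ring
        _ ≤ D + 8 * k * B := h1
        _ ≤ 2 * D := by omega
    omega
  have hmain := C.master k L d D hk1 (by omega) (by omega) hD2 hrow hfree hco H r hr
  refine hmain.trans ?_
  set τ := ∑ v ∈ Finset.univ \ H, (C.cancelSet v).card with hτ
  calc 4 * k * C.E.card * (L * r + k * (k + 1) * τ)
      ≤ 4 * k * C.E.card * ((L + k * (k + 1)) * (r + τ)) := by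
        gcongr
        nlinarith [Nat.zero_le (k * (k + 1) * r), Nat.zero_le (L * τ)]
    _ = 4 * k * (L + k * (k + 1)) * C.E.card * (r + τ) := by ring

end norm

end H633LC
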