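import Mathlib

/-!
# Definitions: linear circuits, cancellations, the explicit matrices
-/

namespace H633LC

open Finset

/-- A linear circuit over the field `F` with input variables `x_0, ..., x_{n-1}` and `r`
designated output nodes.  `V` is the finite set of nodes, `E` the set of edges (acyclic, since
`rank` increases along the edges), `wt u v` the scalar on the edge `(u, v)`.  A node with label
`some j` is a source carrying the variable `x_j`; every other node is an addition gate.
`form v` is the linear form computed at `v` (the vector of its coefficients); it is determined by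
`form_source` and `form_gate`. -/
structure LinCircuit (F : Type) [Field F] (n r : ℕ) where
  V : Type
  [fin : Fintype V]
  [dec : DecidableEq V]
  label : V → Option (Fin n)
  E : Finset (V × V)
  wt : V → V → F
  rank : V → ℕ
  acyclic : ∀ u v, (u, v) ∈ E → rank u < rank v
  source : ∀ u v, (u, v) ∈ E → label v = none
  form : V → Fin n → F
  form_source : ∀ v j, label v = some j → form v = Pi.single j 1
  form_gate : ∀ v, label v = none → ∀ j,
    form v j = ∑ u ∈ Finset.univ.filter (fun u => (u, v) ∈ E), wt u v * form u j
  out : Fin r → V

attribute [instance] LinCircuit.fin LinCircuit.dec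

namespace LinCircuit

variable {F : Type} [Field F] {n r : ℕ} (C : LinCircuit F n r)

/-- The size: number of nodes plus number of edges. -/
def size : ℕ := Fintype.card C.V + C.E.card

/-- `C` computes the matrix `A`. -/
def Computes (A : Fin r → Fin n → F) : Prop := ∀ i j, C.form (C.out i) j = A i j

/-- The variable `x_j` cancels at the node `v`: it occurs in the form of some in-neighbour
(with nonzero scalar) but not in the form of `v`. -/
def Cancels (v : C.V) (j : Fin n) : Prop :=
  C.form v j = 0 ∧ ∃ u, (u, v) ∈ C.E ∧ C.wt u v ≠ 0 ∧ C.form u j ≠ 0

open Classical in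
/-- The cancelling gates: the nodes at which some variable cancels. -/
noncomputable def cancelGates : Finset C.V :=
  Finset.univ.filter (fun v => ∃ j, C.Cancels v j)

open Classical in
/-- The variables that cancel at `v`. -/
noncomputable def cancelSet (v : C.V) : Finset (Fin n) :=
  Finset.univ.filter (fun j => C.Cancels v j)

/-- One step of a path avoiding `T`. -/
def Step (T : Finset C.V) (u v : C.V) : Prop :=
  (u, v) ∈ C.E ∧ C.wt u v ≠ 0 ∧ v ∉ T

/-- There is a path (all scalars nonzero) from `u` to `v` all of whose nodes are outside `T`. -/
def Avoid (T : Finset C.V) (u v : C.V) : Prop :=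
  u ∉ T ∧ Relation.ReflTransGen (C.Step T) u v

/-- `T` meets every path from a source labelled `x_j` to an output whose form does not contain
`x_j`. -/
def Hits (T : Finset C.V) : Prop :=
  ∀ i j, C.form (C.out i) j = 0 → ∀ s, C.label s = some j → ¬ C.Avoid T s (C.out i)

end LinCircuit

open Classical in
/-- The `n × n` circulant 0/1 matrix whose row `x` has its ones in the columns `x + w` modulo `n`,
`w ∈ W`. -/
noncomputable def circ01 (F : Type) [Field F] (n : ℕ) (W : Finset ℕ) : Fin n → Fin n → F :=
  fun x y => if ∃ w ∈ W, (y : ℕ) ≡ x + w [MOD n] then 1 else 0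

open Classical in
/-- the `n × n` Toeplitz matrix with a one at `(x, y)` exactly when `y - x ∈ W` -/
noncomputable def toeplitz01 (F : Type) [Field F] (n : ℕ) (W : Finset ℕ) : Fin n → Fin n → F :=
  fun x y => if ∃ w ∈ W, (y : ℕ) = x + w then 1 else 0

section norm

variable {p k : ℕ} [hpf : Fact p.Prime] {E : Type} [Field E] [Algebra (ZMod p) E]
  (β : Module.Basis (Fin k) (ZMod p) E)

/-- the element of `E` with coordinates `a` -/
noncomputable def elt (a : Fin k → ℕ) : E := ∑ i, ((a i : ℕ) : ZMod p) • β i

open Classical in
/-- the coordinate vectors in `[0, p)^k` of the elements `z` of norm one,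
`z ^ (1 + p + ... + p^(k-1)) = 1` -/
noncomputable def normOne : Finset (Fin k → ℕ) :=
  (Fintype.piFinset (fun _ : Fin k => Finset.range p)).filter
    (fun a => (elt β a) ^ (∑ i ∈ Finset.range k, p ^ i) = 1)

/-- the number with base-`2p` digits `a` -/
def nshift (p k : ℕ) (a : Fin k → ℕ) : ℕ := ∑ i, a i * (2 * p) ^ (i : ℕ)

/-- the numbers whose base-`2p` digits are the coordinates of an element of norm one -/
noncomputable def normShifts : Finset ℕ := (normOne β).image (nshift p k)

/-- the shift attached to a digit vector: digits in base `m`, then the sum of their squares -/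
def shift (m k : ℕ) (a : Fin k → ℕ) : ℕ := ∑ i, a i * m ^ (i : ℕ) + m ^ k * ∑ i, (a i) ^ 2

/-- the shifts `∑ a_i m^i + m^k ∑ a_i^2` of the coordinate vectors `a` of the norm-one elements -/
noncomputable def liftShifts (m : ℕ) : Finset ℕ := (normOne β).image (shift m k)

end norm

end H633LC
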