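import Pool.Agent.H633R2.LC.Frame

/-!
# Toeplitz matrices have linear circuits of size `O(n log n)` over `ℂ`
-/

namespace H633LC

open Finset Polynomial

/-- linear circuits over `ℂ` between arbitrary finite index types; every variable labels at most
one node -/
structure GC (ι κ : Type) [DecidableEq ι] where
  V : Type
  [fin : Fintype V]
  [dec : DecidableEq V]
  label : V → Option ι
  E : Finset (V × V)
  wt : V → V → ℂ
  rank : V → ℕ
  acyclic : ∀ u v, (u, v) ∈ E → rank u < rank v
  source : ∀ u v, (u, v) ∈ E → label v = none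
  form : V → ι → ℂ
  form_source : ∀ v j, label v = some j → form v = Pi.single j 1
  form_gate : ∀ v, label v = none → ∀ j,
    form v j = ∑ u ∈ Finset.univ.filter (fun u => (u, v) ∈ E), wt u v * form u j
  out : κ → V
  inj : ∀ u v j, label u = some j → label v = some j → u = v

attribute [instance] GC.fin GC.dec

/-- `A` has a circuit of size at most `s` -/
def LCx {ι κ : Type} [DecidableEq ι] (A : Matrix κ ι ℂ) (s : ℕ) : Prop :=
  ∃ C : GC ι κ, (∀ k i, C.form (C.out k) i = A k i) ∧ Fintype.card C.V + C.E.card ≤ s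

theorem LCx.mono {ι κ : Type} [DecidableEq ι] {A : Matrix κ ι ℂ} {s s' : ℕ} (h : LCx A s)
    (hs : s ≤ s') : LCx A s' := by
  obtain ⟨C, h1, h2⟩ := h
  exact ⟨C, h1, h2.trans hs⟩

theorem LCx.one {ι : Type} [DecidableEq ι] [Fintype ι] : LCx (1 : Matrix ι ι ℂ) (Fintype.card ι) := by
  refine ⟨{ V := ι
            label := some
            E := ∅
            wt := fun _ _ => 0
            rank := fun _ => 0
            acyclic := fun u v h => absurd h (Finset.notMem_empty _)
            source := fun u v h => absurd h (Finset.notMem_empty _)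
            form := fun v => Pi.single v 1
            form_source := fun v j h => by rw [Option.some.inj h]
            form_gate := fun v h => absurd h (by simp)
            out := id
            inj := fun u v j hu hv => (Option.some.inj hu).trans (Option.some.inj hv).symm }, ?_, ?_⟩
  · intro k i
    simp only [id, Matrix.one_apply, Pi.single_apply, eq_comm]
  · simp

/-- number of nonzero entries -/
noncomputable def nnz {ι κ : Type} [Fintype ι] [Fintype κ] (A : Matrix κ ι ℂ) : ℕ := by
  classical
  exact ((Finset.univ : Finset (κ × ι)).filter (fun q => A q.1 q.2 ≠ 0)).card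

/-- a sparse layer after the circuit -/
theorem LCx.post {ι κ κ' : Type} [DecidableEq ι] [Fintype κ] [Fintype κ'] [DecidableEq κ]
    [DecidableEq κ'] {A : Matrix κ ι ℂ} {s : ℕ} (h : LCx A s) (M : Matrix κ' κ ℂ) :
    LCx (M * A) (s + (Fintype.card κ' + nnz M)) := by
  classical
  obtain ⟨C, hC, hs⟩ := h
  set E1 : Finset ((C.V ⊕ κ') × (C.V ⊕ κ')) := C.E.image (fun q => (Sum.inl q.1, Sum.inl q.2))
    with hE1
  set E2 : Finset ((C.V ⊕ κ') × (C.V ⊕ κ')) :=
    ((Finset.univ : Finset (κ' × κ)).filter (fun q => M q.1 q.2 ≠ 0)).image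
      (fun q => (Sum.inl (C.out q.2), Sum.inr q.1)) with hE2
  set wt' : (C.V ⊕ κ') → (C.V ⊕ κ') → ℂ := fun a b => match a, b with
    | Sum.inl v, Sum.inl w => C.wt v w
    | Sum.inl v, Sum.inr k' => ∑ k ∈ Finset.univ.filter (fun k => C.out k = v), M k' k
    | _, _ => 0 with hwt
  set form' : (C.V ⊕ κ') → ι → ℂ := fun a => match a with
    | Sum.inl v => C.form v
    | Sum.inr k' => fun i => ∑ k, M k' k * C.form (C.out k) i with hform
  have hm1 : ∀ v w, ((Sum.inl v : C.V ⊕ κ'), (Sum.inl w : C.V ⊕ κ')) ∈ E1 ∪ E2 ↔ (v, w) ∈ C.E := by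
    intro v w
    simp [hE1, hE2]
  have hm2 : ∀ v k', ((Sum.inl v : C.V ⊕ κ'), (Sum.inr k' : C.V ⊕ κ')) ∈ E1 ∪ E2 ↔
      ∃ k, M k' k ≠ 0 ∧ C.out k = v := by
    intro v k'
    simp [hE1, hE2]
  have hm3 : ∀ k' (b : C.V ⊕ κ'), ((Sum.inr k' : C.V ⊕ κ'), b) ∉ E1 ∪ E2 := by
    intro k' b
    simp [hE1, hE2]
  refine ⟨{ V := C.V ⊕ κ'
            label := fun a => Sum.elim C.label (fun _ => none) a
            E := E1 ∪ E2
            wt := wt'
            rank := fun a => Sum.elim C.rank (fun _ => Finset.univ.sup C.rank + 1) a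
            acyclic := ?_
            source := ?_
            form := form'
            form_source := ?_
            form_gate := ?_
            out := Sum.inr
            inj := ?_ }, ?_, ?_⟩
  · rintro (v | k) (w | k') h
    · exact C.acyclic v w ((hm1 v w).mp h)
    · simp only [Sum.elim_inl, Sum.elim_inr]
      exact Nat.lt_succ_of_le (Finset.le_sup (f := C.rank) (Finset.mem_univ v))
    · exact absurd h (hm3 _ _)
    · exact absurd h (hm3 _ _)
  · rintro (v | k) (w | k') h
    · exact C.source v w ((hm1 v w).mp h)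
    · rfl
    · exact absurd h (hm3 _ _)
    · exact absurd h (hm3 _ _)
  · rintro (v | k) j h
    · exact C.form_source v j h
    · simp at h
  · rintro (v | k') h j
    · have h0 : C.label v = none := h
      rw [Finset.sum_filter, Fintype.sum_sum_type]
      have h2 : ∑ i : κ', (if ((Sum.inr i : C.V ⊕ κ'), (Sum.inl v : C.V ⊕ κ')) ∈ E1 ∪ E2 then
          wt' (Sum.inr i) (Sum.inl v) * form' (Sum.inr i) j else 0) = 0 := by
        apply Finset.sum_eq_zero
        intro i _
        rw [if_neg (hm3 i _)]
      rw [h2, add_zero]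
      simp only [hm1]
      rw [← Finset.sum_filter]
      exact C.form_gate v h0 j
    · rw [Finset.sum_filter, Fintype.sum_sum_type]
      have h2 : ∑ i : κ', (if ((Sum.inr i : C.V ⊕ κ'), (Sum.inr k' : C.V ⊕ κ')) ∈ E1 ∪ E2 then
          wt' (Sum.inr i) (Sum.inr k') * form' (Sum.inr i) j else 0) = 0 := by
        apply Finset.sum_eq_zero
        intro i _
        rw [if_neg (hm3 i _)]
      rw [h2, add_zero]
      have h3 : ∀ v : C.V, (if ((Sum.inl v : C.V ⊕ κ'), (Sum.inr k' : C.V ⊕ κ')) ∈ E1 ∪ E2 then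
          wt' (Sum.inl v) (Sum.inr k') * form' (Sum.inl v) j else 0) =
          ∑ k ∈ Finset.univ.filter (fun k => C.out k = v), M k' k * C.form (C.out k) j := by
        intro v
        have h4 : ∑ k ∈ Finset.univ.filter (fun k => C.out k = v), M k' k * C.form (C.out k) j =
            (∑ k ∈ Finset.univ.filter (fun k => C.out k = v), M k' k) * C.form v j := by
          rw [Finset.sum_mul]
          apply Finset.sum_congr rfl
          intro k hk
          simp only [Finset.mem_filter, Finset.mem_univ, true_and] at hk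
          rw [hk]
        split_ifs with hh
        · rw [h4]
        · rw [hm2] at hh
          push Not at hh
          symm
          apply Finset.sum_eq_zero
          intro k hk
          simp only [Finset.mem_filter, Finset.mem_univ, true_and] at hk
          have : M k' k = 0 := by
            by_contra hne
            exact hh k hne hk
          rw [this, zero_mul]
      rw [Finset.sum_congr rfl fun v _ => h3 v]
      exact (Finset.sum_fiberwise Finset.univ C.out (fun k => M k' k * C.form (C.out k) j)).symm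
  · rintro (u | k) (v | k') j hu hv
    · exact congrArg Sum.inl (C.inj u v j hu hv)
    · simp at hv
    · simp at hu
    · simp at hu
  · intro k' i
    change ∑ k, M k' k * C.form (C.out k) i = (M * A) k' i
    rw [Matrix.mul_apply]
    exact Finset.sum_congr rfl fun k _ => by rw [hC]
  · change Fintype.card (C.V ⊕ κ') + (E1 ∪ E2).card ≤ _
    have h1 : (E1 ∪ E2).card ≤ C.E.card + nnz M :=
      (Finset.card_union_le _ _).trans (Nat.add_le_add Finset.card_image_le (by
        unfold nnz
        exact Finset.card_image_le))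
    rw [Fintype.card_sum]
    omega

/-- a sparse layer before the circuit -/
theorem LCx.pre {ι ι' κ : Type} [DecidableEq ι] [Fintype ι] [Fintype ι'] [DecidableEq ι']
    {A : Matrix κ ι ℂ} {s : ℕ} (h : LCx A s) (M : Matrix ι ι' ℂ) :
    LCx (A * M) (s + (Fintype.card ι' + nnz M)) := by
  classical
  obtain ⟨C, hC, hs⟩ := h
  set E1 : Finset ((C.V ⊕ ι') × (C.V ⊕ ι')) := C.E.image (fun q => (Sum.inl q.1, Sum.inl q.2))
    with hE1
  set E2 : Finset ((C.V ⊕ ι') × (C.V ⊕ ι')) :=
    (Finset.univ : Finset (C.V × ι')).filter (fun q => ∃ i, C.label q.1 = some i ∧ M i q.2 ≠ 0)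
      |>.image (fun q => (Sum.inr q.2, Sum.inl q.1)) with hE2
  set wt' : (C.V ⊕ ι') → (C.V ⊕ ι') → ℂ := fun a b => match a, b with
    | Sum.inl v, Sum.inl w => C.wt v w
    | Sum.inr j, Sum.inl v => match C.label v with
      | some i => M i j
      | none => 0
    | _, _ => 0 with hwt
  set form' : (C.V ⊕ ι') → ι' → ℂ := fun a => match a with
    | Sum.inl v => fun j => ∑ i, C.form v i * M i j
    | Sum.inr j => Pi.single j 1 with hform
  have hm1 : ∀ v w, ((Sum.inl v : C.V ⊕ ι'), (Sum.inl w : C.V ⊕ ι')) ∈ E1 ∪ E2 ↔ (v, w) ∈ C.E := by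
    intro v w
    simp [hE1, hE2]
  have hm2 : ∀ j v, ((Sum.inr j : C.V ⊕ ι'), (Sum.inl v : C.V ⊕ ι')) ∈ E1 ∪ E2 ↔
      ∃ i, C.label v = some i ∧ M i j ≠ 0 := by
    intro j v
    simp [hE1, hE2]
  have hm3 : ∀ j (a : C.V ⊕ ι'), (a, (Sum.inr j : C.V ⊕ ι')) ∉ E1 ∪ E2 := by
    intro j a
    simp [hE1, hE2]
  refine ⟨{ V := C.V ⊕ ι'
            label := fun a => Sum.elim (fun _ => none) (fun j => some j) a
            E := E1 ∪ E2
            wt := wt'
            rank := fun a => Sum.elim (fun v => C.rank v + 1) (fun _ => 0) a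
            acyclic := ?_
            source := ?_
            form := form'
            form_source := ?_
            form_gate := ?_
            out := fun k => Sum.inl (C.out k)
            inj := ?_ }, ?_, ?_⟩
  · rintro (v | k) (w | k') h
    · have := C.acyclic v w ((hm1 v w).mp h)
      simp only [Sum.elim_inl]
      omega
    · exact absurd h (hm3 _ _)
    · simp
    · exact absurd h (hm3 _ _)
  · rintro (v | k) (w | k') h
    · rfl
    · exact absurd h (hm3 _ _)
    · rfl
    · exact absurd h (hm3 _ _)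
  · rintro (v | k) j h
    · simp at h
    · simp only [Sum.elim_inr, Option.some.injEq] at h
      subst h
      rfl
  · rintro (v | k') h j
    · rw [Finset.sum_filter, Fintype.sum_sum_type]
      rcases hl : C.label v with _ | i0
      · have h2 : ∑ i : ι', (if ((Sum.inr i : C.V ⊕ ι'), (Sum.inl v : C.V ⊕ ι')) ∈ E1 ∪ E2 then
            wt' (Sum.inr i) (Sum.inl v) * form' (Sum.inr i) j else 0) = 0 := by
          apply Finset.sum_eq_zero
          intro i _
          rw [if_neg]
          rw [hm2, hl]
          simp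
        rw [h2, add_zero]
        simp only [hm1]
        rw [← Finset.sum_filter]
        change ∑ i, C.form v i * M i j = ∑ u ∈ Finset.univ.filter (fun u => (u, v) ∈ C.E),
          C.wt u v * ∑ i, C.form u i * M i j
        have h5 : ∀ i, C.form v i * M i j = ∑ u ∈ Finset.univ.filter (fun u => (u, v) ∈ C.E),
            C.wt u v * (C.form u i * M i j) := by
          intro i
          rw [C.form_gate v hl i, Finset.sum_mul]
          exact Finset.sum_congr rfl fun u _ => by ring
        rw [Finset.sum_congr rfl fun i _ => h5 i, Finset.sum_comm]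
        exact Finset.sum_congr rfl fun u _ => (Finset.mul_sum _ _ _).symm
      · have h2 : ∑ u : C.V, (if ((Sum.inl u : C.V ⊕ ι'), (Sum.inl v : C.V ⊕ ι')) ∈ E1 ∪ E2 then
            wt' (Sum.inl u) (Sum.inl v) * form' (Sum.inl u) j else 0) = 0 := by
          apply Finset.sum_eq_zero
          intro u _
          rw [if_neg]
          rw [hm1]
          intro hh
          rw [C.source u v hh] at hl
          exact absurd hl (by simp)
        rw [h2, zero_add]
        have h6 : form' (Sum.inl v) j = M i0 j := by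
          change ∑ i, C.form v i * M i j = M i0 j
          rw [C.form_source v i0 hl, Finset.sum_eq_single i0]
          · simp
          · intro i _ hi
            simp [hi]
          · intro hh; exact absurd (Finset.mem_univ _) hh
        have h7 : ∀ j', wt' (Sum.inr j') (Sum.inl v) = M i0 j' := by
          intro j'
          simp only [hwt, hl]
        rw [h6, Finset.sum_eq_single j]
        · rw [h7]
          split_ifs with hh
          · change M i0 j = M i0 j * (Pi.single j (1 : ℂ) : ι' → ℂ) j
            simp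
          · rw [hm2] at hh
            push Not at hh
            exact hh i0 hl
        · intro j' _ hj'
          split_ifs with hh
          · change wt' (Sum.inr j') (Sum.inl v) * (Pi.single j' (1 : ℂ) : ι' → ℂ) j = 0
            rw [Pi.single_eq_of_ne (Ne.symm hj'), mul_zero]
          · rfl
        · intro hh; exact absurd (Finset.mem_univ _) hh
    · simp at h
  · rintro (u | k) (v | k') j hu hv
    · simp at hu
    · simp at hu
    · simp at hv
    · simp only [Sum.elim_inr, Option.some.injEq] at hu hv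
      rw [hu, hv]
  · intro k j
    change ∑ i, C.form (C.out k) i * M i j = (A * M) k j
    rw [Matrix.mul_apply]
    exact Finset.sum_congr rfl fun i _ => by rw [hC]
  · change Fintype.card (C.V ⊕ ι') + (E1 ∪ E2).card ≤ _
    have h2 : E2.card ≤ nnz M := by
      refine Finset.card_image_le.trans ?_
      unfold nnz
      calc _ ≤ (((Finset.univ : Finset (ι × ι')).filter (fun q => M q.1 q.2 ≠ 0)).image
            (fun q => (some q.1, q.2))).card := by
            apply Finset.card_le_card_of_injOn (fun q : C.V × ι' => (C.label q.1, q.2))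
            · rintro ⟨v, j⟩ hq
              simp only [Finset.coe_filter, Finset.mem_univ, true_and, Set.mem_ofPred_eq] at hq
              obtain ⟨i, hi, hne⟩ := hq
              rw [Finset.mem_coe, Finset.mem_image]
              exact ⟨(i, j), by simpa using hne, by simp [hi]⟩
            · rintro ⟨v, j⟩ hq ⟨v', j'⟩ hq' heq
              simp only [Finset.coe_filter, Finset.mem_univ, true_and, Set.mem_ofPred_eq] at hq hq'
              simp only [Prod.mk.injEq] at heq
              obtain ⟨i, hi, -⟩ := hq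
              have hi' : C.label v' = some i := by rw [← heq.1, hi]
              exact Prod.ext (C.inj _ _ _ hi hi') heq.2
        _ ≤ _ := Finset.card_image_le
    have h1 : (E1 ∪ E2).card ≤ C.E.card + nnz M :=
      (Finset.card_union_le _ _).trans (Nat.add_le_add Finset.card_image_le h2)
    rw [Fintype.card_sum]
    omega

/-- two circuits side by side -/
theorem LCx.par {ι₁ ι₂ κ₁ κ₂ : Type} [DecidableEq ι₁] [DecidableEq ι₂]
    {A : Matrix κ₁ ι₁ ℂ} {B : Matrix κ₂ ι₂ ℂ} {s t : ℕ} (hA : LCx A s) (hB : LCx B t) :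
    LCx (Matrix.fromBlocks A 0 0 B) (s + t) := by
  classical
  obtain ⟨C, hC, hs⟩ := hA
  obtain ⟨D, hD, ht⟩ := hB
  set E1 : Finset ((C.V ⊕ D.V) × (C.V ⊕ D.V)) := C.E.image (fun q => (Sum.inl q.1, Sum.inl q.2))
    with hE1
  set E2 : Finset ((C.V ⊕ D.V) × (C.V ⊕ D.V)) := D.E.image (fun q => (Sum.inr q.1, Sum.inr q.2))
    with hE2
  set wt' : (C.V ⊕ D.V) → (C.V ⊕ D.V) → ℂ := fun a b => match a, b with
    | Sum.inl v, Sum.inl w => C.wt v w
    | Sum.inr v, Sum.inr w => D.wt v w
    | _, _ => 0 with hwt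
  set form' : (C.V ⊕ D.V) → (ι₁ ⊕ ι₂) → ℂ := fun a => match a with
    | Sum.inl v => Sum.elim (C.form v) (fun _ => 0)
    | Sum.inr v => Sum.elim (fun _ => 0) (D.form v) with hform
  have hm1 : ∀ v w, ((Sum.inl v : C.V ⊕ D.V), (Sum.inl w : C.V ⊕ D.V)) ∈ E1 ∪ E2 ↔
      (v, w) ∈ C.E := by
    intro v w
    simp [hE1, hE2]
  have hm2 : ∀ v w, ((Sum.inr v : C.V ⊕ D.V), (Sum.inr w : C.V ⊕ D.V)) ∈ E1 ∪ E2 ↔
      (v, w) ∈ D.E := by
    intro v w
    simp [hE1, hE2]
  have hm3 : ∀ v w, ((Sum.inl v : C.V ⊕ D.V), (Sum.inr w : C.V ⊕ D.V)) ∉ E1 ∪ E2 := by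
    intro v w
    simp [hE1, hE2]
  have hm4 : ∀ v w, ((Sum.inr v : C.V ⊕ D.V), (Sum.inl w : C.V ⊕ D.V)) ∉ E1 ∪ E2 := by
    intro v w
    simp [hE1, hE2]
  refine ⟨{ V := C.V ⊕ D.V
            label := fun a => Sum.elim (fun v => (C.label v).map Sum.inl)
              (fun v => (D.label v).map Sum.inr) a
            E := E1 ∪ E2
            wt := wt'
            rank := fun a => Sum.elim C.rank D.rank a
            acyclic := ?_
            source := ?_
            form := form'
            form_source := ?_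
            form_gate := ?_
            out := fun k => Sum.elim (fun k => Sum.inl (C.out k)) (fun k => Sum.inr (D.out k)) k
            inj := ?_ }, ?_, ?_⟩
  · rintro (v | v) (w | w) h
    · exact C.acyclic v w ((hm1 v w).mp h)
    · exact absurd h (hm3 _ _)
    · exact absurd h (hm4 _ _)
    · exact D.acyclic v w ((hm2 v w).mp h)
  · rintro (v | v) (w | w) h
    · simp only [Sum.elim_inl, C.source v w ((hm1 v w).mp h), Option.map_none]
    · exact absurd h (hm3 _ _)
    · exact absurd h (hm4 _ _)
    · simp only [Sum.elim_inr, D.source v w ((hm2 v w).mp h), Option.map_none]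
  · rintro (v | v) j h
    · simp only [Sum.elim_inl, Option.map_eq_some_iff] at h
      obtain ⟨i, hi, rfl⟩ := h
      funext j'
      rcases j' with j' | j'
      · change C.form v j' = _
        rw [C.form_source v i hi]
        simp [Pi.single_apply]
      · change (0 : ℂ) = _
        simp
    · simp only [Sum.elim_inr, Option.map_eq_some_iff] at h
      obtain ⟨i, hi, rfl⟩ := h
      funext j'
      rcases j' with j' | j'
      · change (0 : ℂ) = _
        simp
      · change D.form v j' = _
        rw [D.form_source v i hi]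
        simp [Pi.single_apply]
  · rintro (v | v) h j
    · have hl : C.label v = none := by
        simpa only [Sum.elim_inl, Option.map_eq_none_iff] using h
      rw [Finset.sum_filter, Fintype.sum_sum_type]
      have h2 : ∑ u : D.V, (if ((Sum.inr u : C.V ⊕ D.V), (Sum.inl v : C.V ⊕ D.V)) ∈ E1 ∪ E2 then
          wt' (Sum.inr u) (Sum.inl v) * form' (Sum.inr u) j else 0) = 0 :=
        Finset.sum_eq_zero fun u _ => if_neg (hm4 u v)
      rw [h2, add_zero]
      simp only [hm1]
      rw [← Finset.sum_filter]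
      rcases j with j | j
      · exact C.form_gate v hl j
      · change (0 : ℂ) = ∑ u ∈ _, C.wt u v * 0
        simp
    · have hl : D.label v = none := by
        simpa only [Sum.elim_inr, Option.map_eq_none_iff] using h
      rw [Finset.sum_filter, Fintype.sum_sum_type]
      have h2 : ∑ u : C.V, (if ((Sum.inl u : C.V ⊕ D.V), (Sum.inr v : C.V ⊕ D.V)) ∈ E1 ∪ E2 then
          wt' (Sum.inl u) (Sum.inr v) * form' (Sum.inl u) j else 0) = 0 :=
        Finset.sum_eq_zero fun u _ => if_neg (hm3 u v)
      rw [h2, zero_add]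
      simp only [hm2]
      rw [← Finset.sum_filter]
      rcases j with j | j
      · change (0 : ℂ) = ∑ u ∈ _, D.wt u v * 0
        simp
      · exact D.form_gate v hl j
  · rintro (u | u) (v | v) j hu hv
    · simp only [Sum.elim_inl, Option.map_eq_some_iff] at hu hv
      obtain ⟨a, ha, rfl⟩ := hu
      obtain ⟨b, hb, hab⟩ := hv
      rw [Sum.inl.inj hab] at hb
      exact congrArg Sum.inl (C.inj u v a ha hb)
    · simp only [Sum.elim_inl, Sum.elim_inr, Option.map_eq_some_iff] at hu hv
      obtain ⟨a, ha, rfl⟩ := hu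
      obtain ⟨b, hb, hab⟩ := hv
      simp at hab
    · simp only [Sum.elim_inl, Sum.elim_inr, Option.map_eq_some_iff] at hu hv
      obtain ⟨a, ha, rfl⟩ := hu
      obtain ⟨b, hb, hab⟩ := hv
      simp at hab
    · simp only [Sum.elim_inr, Option.map_eq_some_iff] at hu hv
      obtain ⟨a, ha, rfl⟩ := hu
      obtain ⟨b, hb, hab⟩ := hv
      rw [Sum.inr.inj hab] at hb
      exact congrArg Sum.inr (D.inj u v a ha hb)
  · rintro (k | k) (i | i)
    · exact hC k i
    · rfl
    · rfl
    · exact hD k i
  · change Fintype.card (C.V ⊕ D.V) + (E1 ∪ E2).card ≤ _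
    have h1 : (E1 ∪ E2).card ≤ C.E.card + D.E.card :=
      (Finset.card_union_le _ _).trans (Nat.add_le_add Finset.card_image_le Finset.card_image_le)
    rw [Fintype.card_sum]
    omega

/-! ### The fast multiplication modulo `X^(2^k) - a` -/

/-- the index type with `2^k` elements -/
def II : ℕ → Type
  | 0 => Unit
  | k + 1 => II k ⊕ II k

instance instFII : ∀ k, Fintype (II k)
  | 0 => inferInstanceAs (Fintype Unit)
  | k + 1 => by
    haveI := instFII k
    exact inferInstanceAs (Fintype (II k ⊕ II k))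

instance instDII : ∀ k, DecidableEq (II k)
  | 0 => inferInstanceAs (DecidableEq Unit)
  | k + 1 => by
    haveI := instDII k
    exact inferInstanceAs (DecidableEq (II k ⊕ II k))

theorem card_II : ∀ k, Fintype.card (II k) = 2 ^ k
  | 0 => rfl
  | k + 1 => by
    have h := card_II k
    have : Fintype.card (II (k + 1)) = Fintype.card (II k) + Fintype.card (II k) :=
      Fintype.card_sum
    rw [this, h, pow_succ]; ring

/-- the exponent of an index -/
def ps : ∀ k, II k → ℕ
  | 0, _ => 0
  | k + 1, Sum.inl i => ps k i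
  | k + 1, Sum.inr i => 2 ^ k + ps k i

theorem ps_lt : ∀ k (i : II k), ps k i < 2 ^ k
  | 0, _ => by simp [ps]
  | k + 1, Sum.inl i => by
    have := ps_lt k i
    have h2 : 2 ^ (k + 1) = 2 ^ k + 2 ^ k := by ring
    simp only [ps]; omega
  | k + 1, Sum.inr i => by
    have := ps_lt k i
    have h2 : 2 ^ (k + 1) = 2 ^ k + 2 ^ k := by ring
    simp only [ps]; omega

theorem ps_inj : ∀ k (i j : II k), ps k i = ps k j → i = j
  | 0, _, _ => fun _ => rfl
  | k + 1, Sum.inl i, Sum.inl j => fun h => congrArg Sum.inl (ps_inj k i j h)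
  | k + 1, Sum.inr i, Sum.inr j => fun h => congrArg Sum.inr (ps_inj k i j (by
      simp only [ps] at h; omega))
  | k + 1, Sum.inl i, Sum.inr j => fun h => by
      have := ps_lt k i
      simp only [ps] at h; omega
  | k + 1, Sum.inr i, Sum.inl j => fun h => by
      have := ps_lt k j
      simp only [ps] at h; omega

theorem ps_surj : ∀ k (e : ℕ), e < 2 ^ k → ∃ i : II k, ps k i = e
  | 0, e => fun h => ⟨(), by simp at h; simp [ps, h]⟩
  | k + 1, e => fun h => by
    by_cases he : e < 2 ^ k
    · obtain ⟨i, hi⟩ := ps_surj k e he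
      exact ⟨Sum.inl i, hi⟩
    · have h2 : 2 ^ (k + 1) = 2 ^ k + 2 ^ k := by ring
      obtain ⟨i, hi⟩ := ps_surj k (e - 2 ^ k) (by omega)
      exact ⟨Sum.inr i, by simp only [ps, hi]; omega⟩

/-- the polynomial of a coefficient vector -/
noncomputable def pol (k : ℕ) (x : II k → ℂ) : ℂ[X] := ∑ i, C (x i) * X ^ (ps k i)

theorem pol_succ (k : ℕ) (x : II (k + 1) → ℂ) :
    pol (k + 1) x = pol k (fun i => x (Sum.inl i)) + X ^ (2 ^ k) * pol k (fun i => x (Sum.inr i)) := by
  unfold pol
  have : ∑ i : II (k + 1), C (x i) * X ^ (ps (k + 1) i) =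
      ∑ i : II k, C (x (Sum.inl i)) * X ^ (ps (k + 1) (Sum.inl i)) +
      ∑ i : II k, C (x (Sum.inr i)) * X ^ (ps (k + 1) (Sum.inr i)) :=
    Fintype.sum_sum_type (fun i : II k ⊕ II k => C (x i) * X ^ (ps (k + 1) i))
  rw [this, Finset.mul_sum]
  congr 1
  apply Finset.sum_congr rfl
  intro i _
  simp only [ps, pow_add]
  ring

theorem pol_add (k : ℕ) (x y : II k → ℂ) : pol k (x + y) = pol k x + pol k y := by
  unfold pol
  rw [← Finset.sum_add_distrib]
  exact Finset.sum_congr rfl fun i _ => by simp [add_mul]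

theorem pol_smul (k : ℕ) (a : ℂ) (x : II k → ℂ) : pol k (a • x) = C a * pol k x := by
  unfold pol
  rw [Finset.mul_sum]
  exact Finset.sum_congr rfl fun i _ => by simp [mul_assoc]

theorem nnz_le {ι κ : Type} [Fintype ι] [Fintype κ] (A : Matrix κ ι ℂ) (l : ℕ)
    (h : ∀ k, ∃ s : Finset ι, s.card ≤ l ∧ ∀ i, A k i ≠ 0 → i ∈ s) :
    nnz A ≤ Fintype.card κ * l := by
  classical
  choose s hs1 hs2 using h
  unfold nnz
  calc _ ≤ ((Finset.univ : Finset κ).sigma s).card := by
        apply Finset.card_le_card_of_injOn (fun q : κ × ι => (⟨q.1, q.2⟩ : (_ : κ) × ι))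
        · rintro ⟨k, i⟩ hq
          simp only [Finset.coe_filter, Finset.mem_univ, true_and, Set.mem_ofPred_eq] at hq
          simp only [Finset.mem_coe, Finset.mem_sigma, Finset.mem_univ, true_and]
          exact hs2 k i hq
        · rintro ⟨k, i⟩ _ ⟨k', i'⟩ _ heq
          simp only [Sigma.mk.injEq, heq_eq_eq] at heq
          exact Prod.ext heq.1 heq.2
    _ = ∑ k : κ, (s k).card := Finset.card_sigma _ _
    _ ≤ ∑ _k : κ, l := Finset.sum_le_sum fun k _ => hs1 k
    _ = _ := by simp

theorem nnz_blocks {ι : Type} [Fintype ι] [DecidableEq ι] (a b u v : ℂ) :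
    nnz (Matrix.fromBlocks (a • (1 : Matrix ι ι ℂ)) (b • (1 : Matrix ι ι ℂ))
      (u • (1 : Matrix ι ι ℂ)) (v • (1 : Matrix ι ι ℂ))) ≤ Fintype.card (ι ⊕ ι) * 2 := by
  apply nnz_le
  rintro (k | k)
  · refine ⟨{Sum.inl k, Sum.inr k}, Finset.card_le_two, ?_⟩
    rintro (i | i) h
    · simp only [Matrix.fromBlocks_apply₁₁, Matrix.smul_apply, Matrix.one_apply, smul_eq_mul,
        mul_ite, mul_one, mul_zero, ne_eq, ite_eq_right_iff, not_forall] at h
      obtain ⟨rfl, -⟩ := h
      simp
    · simp only [Matrix.fromBlocks_apply₁₂, Matrix.smul_apply, Matrix.one_apply, smul_eq_mul,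
        mul_ite, mul_one, mul_zero, ne_eq, ite_eq_right_iff, not_forall] at h
      obtain ⟨rfl, -⟩ := h
      simp
  · refine ⟨{Sum.inl k, Sum.inr k}, Finset.card_le_two, ?_⟩
    rintro (i | i) h
    · simp only [Matrix.fromBlocks_apply₂₁, Matrix.smul_apply, Matrix.one_apply, smul_eq_mul,
        mul_ite, mul_one, mul_zero, ne_eq, ite_eq_right_iff, not_forall] at h
      obtain ⟨rfl, -⟩ := h
      simp
    · simp only [Matrix.fromBlocks_apply₂₂, Matrix.smul_apply, Matrix.one_apply, smul_eq_mul,
        mul_ite, mul_one, mul_zero, ne_eq, ite_eq_right_iff, not_forall] at h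
      obtain ⟨rfl, -⟩ := h
      simp

instance : Unique (II 0) := inferInstanceAs (Unique Unit)

/-- the polynomial of a coefficient vector on two halves -/
noncomputable def pol2 (k : ℕ) (x : II k ⊕ II k → ℂ) : ℂ[X] :=
  pol k (fun i => x (Sum.inl i)) + X ^ (2 ^ k) * pol k (fun i => x (Sum.inr i))

/-- first butterfly -/
noncomputable def S1 (k : ℕ) (d : ℂ) : Matrix (II k ⊕ II k) (II k ⊕ II k) ℂ :=
  Matrix.fromBlocks ((1 : ℂ) • 1) (d • 1) ((1 : ℂ) • 1) ((-d) • 1)

/-- second butterfly -/
noncomputable def S2 (k : ℕ) (d : ℂ) : Matrix (II k ⊕ II k) (II k ⊕ II k) ℂ :=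
  Matrix.fromBlocks ((1 / 2 : ℂ) • 1) ((1 / 2 : ℂ) • 1) ((1 / (2 * d)) • 1)
    ((-(1 / (2 * d))) • 1)

theorem step (W : ℂ[X]) (k : ℕ) (d : ℂ) (hd0 : d ≠ 0) (A1 A2 : Matrix (II k) (II k) ℂ)
    (hA1 : ∀ x, (X ^ (2 ^ k) - C d) ∣ pol k (A1.mulVec x) - W * pol k x)
    (hA2 : ∀ x, (X ^ (2 ^ k) - C (-d)) ∣ pol k (A2.mulVec x) - W * pol k x)
    (x : II k ⊕ II k → ℂ) :
    (X ^ (2 ^ (k + 1)) - C (d ^ 2)) ∣
      pol2 k ((S2 k d * (Matrix.fromBlocks A1 0 0 A2 * S1 k d)).mulVec x) - W * pol2 k x := by
  set l : II k → ℂ := fun i => x (Sum.inl i) with hl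
  set r : II k → ℂ := fun i => x (Sum.inr i) with hr
  have hx : x = Sum.elim l r := by
    funext i; rcases i with i | i <;> rfl
  set y1 := A1.mulVec (l + d • r) with hy1
  set y2 := A2.mulVec (l + (-d) • r) with hy2
  have hy : (S2 k d * (Matrix.fromBlocks A1 0 0 A2 * S1 k d)).mulVec x =
      Sum.elim ((1 / 2 : ℂ) • y1 + (1 / 2 : ℂ) • y2)
        ((1 / (2 * d)) • y1 + (-(1 / (2 * d))) • y2) := by
    rw [← Matrix.mulVec_mulVec, ← Matrix.mulVec_mulVec, hx, S1, S2,
      Matrix.fromBlocks_mulVec, Matrix.fromBlocks_mulVec, Matrix.fromBlocks_mulVec]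
    simp only [Matrix.smul_mulVec, Matrix.one_mulVec, Matrix.zero_mulVec, one_smul, add_zero,
      zero_add, Sum.elim_comp_inl, Sum.elim_comp_inr]
    rfl
  have hp : pol2 k ((S2 k d * (Matrix.fromBlocks A1 0 0 A2 * S1 k d)).mulVec x) =
      (C (1 / 2) * pol k y1 + C (1 / 2) * pol k y2) +
      X ^ (2 ^ k) * (C (1 / (2 * d)) * pol k y1 + C (-(1 / (2 * d))) * pol k y2) := by
    rw [pol2, hy]
    simp only [Sum.elim_inl, Sum.elim_inr]
    rw [show (fun i => ((1 / 2 : ℂ) • y1 + (1 / 2 : ℂ) • y2) i) =
      ((1 / 2 : ℂ) • y1 + (1 / 2 : ℂ) • y2) from rfl,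
      show (fun i => ((1 / (2 * d)) • y1 + (-(1 / (2 * d))) • y2) i) =
      ((1 / (2 * d)) • y1 + (-(1 / (2 * d))) • y2) from rfl, pol_add, pol_add, pol_smul,
      pol_smul, pol_smul, pol_smul]
  have hpx : pol2 k x = pol k l + X ^ (2 ^ k) * pol k r := rfl
  have h1 := hA1 (l + d • r)
  have h2 := hA2 (l + (-d) • r)
  rw [← hy1, pol_add, pol_smul] at h1
  rw [← hy2, pol_add, pol_smul] at h2
  set Y : ℂ[X] := X ^ (2 ^ k) with hY
  have hfac : (X : ℂ[X]) ^ (2 ^ (k + 1)) - C (d ^ 2) = (Y - C d) * (Y - C (-d)) := by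
    rw [hY, pow_succ 2 k, pow_mul]
    simp only [map_neg, map_pow]
    ring
  rw [hfac, hp, hpx]
  have e1 : (C (1 / 2) : ℂ[X]) = C d * C (1 / (2 * d)) := by
    rw [← C_mul]; congr 1; field_simp
  have e2 : (C (1 / 2) : ℂ[X]) + C (1 / 2) = 1 := by
    rw [← C_add]; norm_num
  have e3 : (C (-(1 / (2 * d))) : ℂ[X]) = - C (1 / (2 * d)) := by rw [← C_neg]
  have e4 : (C (-d) : ℂ[X]) = - C d := by rw [← C_neg]
  rw [e4] at h2 ⊢
  apply IsCoprime.mul_dvd
  · refine ⟨- C (1 / (2 * d)), C (1 / (2 * d)), ?_⟩
    have : -C (1 / (2 * d)) * (Y - C d) + C (1 / (2 * d)) * (Y - -C d) =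
        C d * C (1 / (2 * d)) + C d * C (1 / (2 * d)) := by ring
    rw [this, ← e1, e2]
  · obtain ⟨q, hq⟩ := h1
    refine ⟨q + C (1 / (2 * d)) * (pol k y1 - pol k y2) - W * pol k r, ?_⟩
    rw [e3]
    linear_combination hq + (-(pol k y1) + pol k y2) * e1 + (pol k y1) * e2
  · obtain ⟨q, hq⟩ := h2
    refine ⟨q + C (1 / (2 * d)) * (pol k y1 - pol k y2) - W * pol k r, ?_⟩
    rw [e3]
    linear_combination hq + ((pol k y1) - pol k y2) * e1 + (pol k y2) * e2

theorem fft (W : ℂ[X]) : ∀ (k : ℕ) (a : ℂ), a ≠ 0 → ∃ A : Matrix (II k) (II k) ℂ,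
    (∀ x, (X ^ (2 ^ k) - C a) ∣ pol k (A.mulVec x) - W * pol k x) ∧
    LCx A (2 ^ k * (3 + 6 * k)) := by
  intro k
  induction k with
  | zero =>
    intro a _
    set M0 : Matrix (II 0) (II 0) ℂ := Matrix.of (fun _ _ => W.eval a) with hM0
    refine ⟨M0, ?_, ?_⟩
    · intro x
      have h1 : pol 0 (M0.mulVec x) = C (W.eval a) * pol 0 x := by
        rw [← pol_smul]
        congr 1
        funext i
        change ∑ j, W.eval a * x j = W.eval a * x i
        rw [Fintype.sum_unique, Subsingleton.elim default i]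
      rw [h1, ← sub_mul, pow_zero, pow_one]
      apply Dvd.dvd.mul_right
      rw [← neg_sub W, dvd_neg]
      exact Polynomial.X_sub_C_dvd_sub_C_eval
    · have h1 := (LCx.one (ι := II 0)).post M0
      rw [Matrix.mul_one] at h1
      refine h1.mono ?_
      have h2 := nnz_le M0 1
        (fun _ => ⟨Finset.univ, by rw [Finset.card_univ, card_II, pow_zero],
          fun i _ => Finset.mem_univ i⟩)
      rw [card_II] at h2 ⊢
      simp only [pow_zero, one_mul, mul_one, mul_zero, add_zero] at h2 ⊢
      omega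
  | succ k ih =>
    intro a ha
    obtain ⟨d, hd⟩ : ∃ d : ℂ, a = d ^ 2 := by
      obtain ⟨d, hd⟩ := IsAlgClosed.exists_pow_nat_eq a (n := 2) (by norm_num)
      exact ⟨d, hd.symm⟩
    have hd0 : d ≠ 0 := by
      rintro rfl
      exact ha (by rw [hd]; norm_num)
    obtain ⟨A1, hA1, hL1⟩ := ih d hd0
    obtain ⟨A2, hA2, hL2⟩ := ih (-d) (neg_ne_zero.mpr hd0)
    refine ⟨(S2 k d * (Matrix.fromBlocks A1 0 0 A2 * S1 k d) :
      Matrix (II k ⊕ II k) (II k ⊕ II k) ℂ), ?_, ?_⟩
    · intro x
      have h := step W k d hd0 A1 A2 hA1 hA2 x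
      rw [hd]
      rw [pol_succ k x, pol_succ k]
      exact h
    · have hL := ((hL1.par hL2).pre (S1 k d)).post (S2 k d)
      refine hL.mono ?_
      have n1 : nnz (S1 k d) ≤ _ := nnz_blocks 1 d 1 (-d)
      have n2 : nnz (S2 k d) ≤ _ := nnz_blocks (1 / 2) (1 / 2) (1 / (2 * d)) (-(1 / (2 * d)))
      have hc : Fintype.card (II k ⊕ II k) = 2 * 2 ^ k := by
        rw [Fintype.card_sum, card_II]; ring
      rw [hc] at n1 n2 ⊢
      have : 2 ^ (k + 1) * (3 + 6 * (k + 1)) = 2 * (2 ^ k * (3 + 6 * k)) + 12 * 2 ^ k := by ring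
      rw [this]
      omega

/-! ### Toeplitz matrices -/

theorem pol_coeff (k : ℕ) (x : II k → ℂ) (i : II k) : (pol k x).coeff (ps k i) = x i := by
  unfold pol
  rw [Polynomial.finsetSum_coeff, Finset.sum_eq_single i]
  · simp
  · intro j _ hj
    rw [Polynomial.coeff_C_mul, Polynomial.coeff_X_pow, if_neg, mul_zero]
    intro h
    exact hj (ps_inj k j i h.symm)
  · intro h; exact absurd (Finset.mem_univ _) h

theorem pol_degree (k : ℕ) (x : II k → ℂ) : (pol k x).degree < ((2 ^ k : ℕ) : WithBot ℕ) := by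
  unfold pol
  refine (Polynomial.degree_sum_le _ _).trans_lt ?_
  rw [Finset.sup_lt_iff (WithBot.bot_lt_coe _)]
  intro i _
  refine (Polynomial.degree_C_mul_X_pow_le _ _).trans_lt ?_
  exact_mod_cast ps_lt k i

/-- the polynomial of a Toeplitz matrix -/
noncomputable def toepPol (n : ℕ) (τ : ℤ → ℂ) : ℂ[X] :=
  ∑ j ∈ Finset.range (2 * n - 1), C (τ ((n : ℤ) - 1 - j)) * X ^ j

theorem toepPol_coeff (n : ℕ) (τ : ℤ → ℂ) (j : ℕ) (hj : j < 2 * n - 1) :
    (toepPol n τ).coeff j = τ ((n : ℤ) - 1 - j) := by
  unfold toepPol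
  rw [Polynomial.finsetSum_coeff, Finset.sum_eq_single j]
  · simp
  · intro i _ hi
    rw [Polynomial.coeff_C_mul, Polynomial.coeff_X_pow, if_neg (Ne.symm hi), mul_zero]
  · intro h; exact absurd (Finset.mem_range.mpr hj) h

theorem toeplitz_LCx (n : ℕ) (hn : 1 ≤ n) (τ : ℤ → ℂ) (k : ℕ) (hk : 3 * n ≤ 2 ^ k) :
    LCx (fun x y : Fin n => τ ((y : ℤ) - (x : ℤ)) : Matrix (Fin n) (Fin n) ℂ)
      (2 ^ k * (3 + 6 * k) + 4 * n) := by
  classical
  obtain ⟨A, hA, hL⟩ := fft (toepPol n τ) k 1 one_ne_zero
  set M1 : Matrix (II k) (Fin n) ℂ := fun i y => if ps k i = (y : ℕ) then 1 else 0 with hM1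
  set M2 : Matrix (Fin n) (II k) ℂ := fun x i => if ps k i = (x : ℕ) + n - 1 then 1 else 0 with hM2
  have n1 : nnz M1 ≤ n := by
    unfold nnz
    calc _ ≤ (Finset.univ : Finset (Fin n)).card := by
          apply Finset.card_le_card_of_injOn (fun q : II k × Fin n => q.2)
          · intro q _; exact Finset.mem_coe.mpr (Finset.mem_univ _)
          · rintro ⟨i, y⟩ hq ⟨i', y'⟩ hq' heq
            simp only [Finset.coe_filter, Finset.mem_univ, true_and, Set.mem_ofPred_eq, hM1,
              ne_eq, ite_eq_right_iff, one_ne_zero, imp_false, not_not] at hq hq'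
            simp only at heq
            subst heq
            exact Prod.ext (ps_inj k i i' (hq.trans hq'.symm)) rfl
      _ = n := by simp
  have n2 : nnz M2 ≤ n := by
    unfold nnz
    calc _ ≤ (Finset.univ : Finset (Fin n)).card := by
          apply Finset.card_le_card_of_injOn (fun q : Fin n × II k => q.1)
          · intro q _; exact Finset.mem_coe.mpr (Finset.mem_univ _)
          · rintro ⟨y, i⟩ hq ⟨y', i'⟩ hq' heq
            simp only [Finset.coe_filter, Finset.mem_univ, true_and, Set.mem_ofPred_eq, hM2,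
              ne_eq, ite_eq_right_iff, one_ne_zero, imp_false, not_not] at hq hq'
            simp only at heq
            subst heq
            exact Prod.ext rfl (ps_inj k i i' (hq.trans hq'.symm))
      _ = n := by simp
  have hmain : M2 * (A * M1) = (fun x y : Fin n => τ ((y : ℤ) - (x : ℤ))) := by
    -- compare on all vectors
    have hvec : ∀ z : Fin n → ℂ, ∀ x : Fin n,
        ((M2 * (A * M1)).mulVec z) x = ∑ y : Fin n, τ ((y : ℤ) - (x : ℤ)) * z y := by
      intro z x
      rw [← Matrix.mulVec_mulVec, ← Matrix.mulVec_mulVec]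
      set v := M1.mulVec z with hv
      set w := A.mulVec v with hw
      set Z : ℂ[X] := ∑ y : Fin n, C (z y) * X ^ (y : ℕ) with hZ
      have hpv : pol k v = Z := by
        unfold pol
        have h1 : ∀ i, C (v i) * X ^ (ps k i) = ∑ y : Fin n,
            (if ps k i = (y : ℕ) then C (z y) * X ^ (y : ℕ) else 0 : ℂ[X]) := by
          intro i
          have h2 : v i = ∑ y : Fin n, (if ps k i = (y : ℕ) then z y else 0) := by
            rw [hv, Matrix.mulVec, dotProduct]
            exact Finset.sum_congr rfl fun y _ => by simp only [hM1, ite_mul, one_mul, zero_mul]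
          rw [h2, map_sum, Finset.sum_mul]
          apply Finset.sum_congr rfl
          intro y _
          split_ifs with h
          · rw [h]
          · simp
        rw [Finset.sum_congr rfl fun i _ => h1 i, Finset.sum_comm, hZ]
        apply Finset.sum_congr rfl
        intro y _
        obtain ⟨i0, hi0⟩ := ps_surj k (y : ℕ) (by have := y.2; omega)
        rw [Finset.sum_eq_single i0]
        · rw [if_pos hi0]
        · intro i _ hi
          rw [if_neg]
          intro h
          exact hi (ps_inj k i i0 (h.trans hi0.symm))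
        · intro h; exact absurd (Finset.mem_univ _) h
      have hpw : pol k w = toepPol n τ * Z := by
        have h1 := hA v
        rw [← hw, hpv, C_1] at h1
        have hdeg1 : (toepPol n τ * Z).degree < ((2 ^ k : ℕ) : WithBot ℕ) := by
          have d1 : (toepPol n τ).natDegree ≤ 2 * n - 2 := by
            unfold toepPol
            apply Polynomial.natDegree_sum_le_of_forall_le
            intro j hj
            refine (Polynomial.natDegree_C_mul_X_pow_le _ _).trans ?_
            have := Finset.mem_range.mp hj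
            omega
          have d2 : Z.natDegree ≤ n - 1 := by
            rw [hZ]
            apply Polynomial.natDegree_sum_le_of_forall_le
            intro j _
            refine (Polynomial.natDegree_C_mul_X_pow_le _ _).trans ?_
            have := j.2
            omega
          refine Polynomial.degree_le_natDegree.trans_lt ?_
          have d3 : (toepPol n τ * Z).natDegree ≤ (2 * n - 2) + (n - 1) :=
            Polynomial.natDegree_mul_le.trans (Nat.add_le_add d1 d2)
          exact_mod_cast (by omega : (toepPol n τ * Z).natDegree < 2 ^ k)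
        have hdeg2 := pol_degree k w
        have hdd : (pol k w - toepPol n τ * Z).degree < ((X : ℂ[X]) ^ (2 ^ k) - 1).degree := by
          have : ((X : ℂ[X]) ^ (2 ^ k) - 1).degree = ((2 ^ k : ℕ) : WithBot ℕ) := by
            rw [← C_1, Polynomial.degree_X_pow_sub_C (by positivity)]
          rw [this]
          exact (Polynomial.degree_sub_le _ _).trans_lt (max_lt hdeg2 hdeg1)
        exact sub_eq_zero.mp (Polynomial.eq_zero_of_dvd_of_degree_lt h1 hdd)
      obtain ⟨i0, hi0⟩ := ps_surj k ((x : ℕ) + n - 1) (by have := x.2; omega)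
      have hx1 : (M2.mulVec w) x = w i0 := by
        rw [Matrix.mulVec, dotProduct, Finset.sum_eq_single i0]
        · simp only [hM2, if_pos hi0, one_mul]
        · intro i _ hi
          have : ps k i ≠ (x : ℕ) + n - 1 := fun h => hi (ps_inj k i i0 (h.trans hi0.symm))
          simp only [hM2, if_neg this, zero_mul]
        · intro h; exact absurd (Finset.mem_univ _) h
      rw [hx1, ← pol_coeff k w i0, hpw, hi0, hZ, Finset.mul_sum, Polynomial.finsetSum_coeff]
      apply Finset.sum_congr rfl
      intro y _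
      have hy : (x : ℕ) + n - 1 = ((x : ℕ) + n - 1 - y) + y := by
        have := y.2; omega
      rw [← mul_assoc, Polynomial.coeff_mul_X_pow', if_pos (by have := y.2; omega),
        Polynomial.coeff_mul_C, toepPol_coeff]
      · congr 2
        have := y.2
        have := x.2
        omega
      · have := x.2
        omega
    funext x y
    have h := hvec (Pi.single y 1) x
    rw [Matrix.mulVec_single_one] at h
    rw [show (M2 * (A * M1)) x y = (M2 * (A * M1)).col y x from rfl, h, Finset.sum_eq_single y]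
    · simp
    · intro y' _ hy'
      simp [hy']
    · intro hh; exact absurd (Finset.mem_univ _) hh
  have hfin := (hL.pre M1).post M2
  rw [hmain] at hfin
  refine hfin.mono ?_
  rw [Fintype.card_fin]
  omega

/-- **Toeplitz matrices over `ℂ` have linear circuits of size `O(n log n)`.** -/
theorem toeplitz_circuit (n : ℕ) (hn : 1 ≤ n) (τ : ℤ → ℂ) :
    ∃ C : LinCircuit ℂ n n, C.Computes (fun x y => τ ((y : ℤ) - (x : ℤ))) ∧
      C.size ≤ n * (130 + 36 * Nat.log 2 n) := by
  set L := Nat.log 2 n with hL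
  have h1 : 2 ^ L ≤ n := Nat.pow_log_le_self 2 (by omega)
  have h2 : n < 2 ^ (L + 1) := Nat.lt_pow_succ_log_self (by norm_num) n
  -- choose `k` with `3 n ≤ 2^k ≤ 6 n`
  obtain ⟨k, hk1, hk2, hk3⟩ : ∃ k, 3 * n ≤ 2 ^ k ∧ 2 ^ k ≤ 6 * n ∧ k ≤ L + 3 := by
    by_cases h : 3 * n ≤ 2 ^ (L + 2)
    · refine ⟨L + 2, h, ?_, by omega⟩
      have : 2 ^ (L + 2) = 4 * 2 ^ L := by ring
      omega
    · refine ⟨L + 3, ?_, ?_, by omega⟩
      · have : 2 ^ (L + 3) = 4 * 2 ^ (L + 1) := by ring
        omega
      · have : 2 ^ (L + 3) = 2 * 2 ^ (L + 2) := by ring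
        omega
  obtain ⟨C, hC, hs⟩ := toeplitz_LCx n hn τ k hk1
  refine ⟨{ V := C.V
            label := C.label
            E := C.E
            wt := C.wt
            rank := C.rank
            acyclic := C.acyclic
            source := C.source
            form := C.form
            form_source := C.form_source
            form_gate := C.form_gate
            out := C.out }, fun i j => hC i j, ?_⟩
  change Fintype.card C.V + C.E.card ≤ _
  calc Fintype.card C.V + C.E.card ≤ 2 ^ k * (3 + 6 * k) + 4 * n := hs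
    _ ≤ (6 * n) * (3 + 6 * (L + 3)) + 4 * n := by gcongr
    _ = n * (130 + 36 * L) := by ring

end H633LC
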