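import Pool.Agent.H633R2.LC.Defs

/-!
# Linear circuits, cancelling gates, and the basic inequality

`LinCircuit F n r` : linear circuits over a field `F` with `n` input variables and `r` outputs.
`frame` : a circuit in which the set `T` of nodes meets every path from a variable `x_j` to an
output `i` whose coefficient of `x_j` is zero has large size or `T` is large.
-/

namespace H633LC

open Finset

namespace LinCircuit

variable {F : Type} [Field F] {n r : ℕ} (C : LinCircuit F n r)

theorem cancelGates_hits : C.Hits C.cancelGates := by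
  intro i j h0 s hs ⟨_, hp⟩
  have key : ∀ v, Relation.ReflTransGen (C.Step C.cancelGates) s v → C.form v j ≠ 0 := by
    intro v hp
    induction hp with
    | refl => rw [C.form_source _ _ hs]; simp
    | tail _ hstep ih =>
      intro hz
      obtain ⟨hE, hw, hv⟩ := hstep
      apply hv
      simp only [cancelGates, Finset.mem_filter, Finset.mem_univ, true_and]
      exact ⟨j, hz, _, hE, hw, ih⟩
  exact key _ hp h0

variable (T : Finset C.V)

/-- variables reaching `v` by a path avoiding `T` -/
def SS (v : C.V) (j : Fin n) : Prop := ∃ s, C.label s = some j ∧ C.Avoid T s v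

/-- outputs reached from `v` by a path avoiding `T` -/
def RR (v : C.V) (i : Fin r) : Prop := C.Avoid T v (C.out i)

theorem Avoid.right {C : LinCircuit F n r} {T : Finset C.V} {u v : C.V} (h : C.Avoid T u v) :
    v ∉ T := by
  obtain ⟨h1, h2⟩ := h
  induction h2 with
  | refl => exact h1
  | tail _ hs _ => exact hs.2.2

theorem Avoid.trans {C : LinCircuit F n r} {T : Finset C.V} {u v w : C.V} (h : C.Avoid T u v)
    (h' : C.Avoid T v w) : C.Avoid T u w := ⟨h.1, h.2.trans h'.2⟩

theorem avoid_of_step {C : LinCircuit F n r} {T : Finset C.V} {u v : C.V} (hu : u ∉ T)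
    (h : C.Step T u v) : C.Avoid T u v := ⟨hu, Relation.ReflTransGen.single h⟩

/-- decomposition of the forms: outside `T`-avoiding reachability everything lies in the span of
the forms of `T`. -/
theorem decomp : ∀ v : C.V, ∃ b : Fin n → F, (∀ j, b j ≠ 0 → C.SS T v j) ∧
    C.form v - b ∈ Submodule.span F (C.form '' (T : Set C.V)) := by
  classical
  have main : ∀ N : ℕ, ∀ v : C.V, C.rank v < N → ∃ b : Fin n → F, (∀ j, b j ≠ 0 → C.SS T v j) ∧
      C.form v - b ∈ Submodule.span F (C.form '' (T : Set C.V)) := by
    intro N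
    induction N with
    | zero => intro v hv; omega
    | succ N ih =>
      intro v hv
      by_cases hvT : v ∈ T
      · refine ⟨0, by simp, ?_⟩
        rw [sub_zero]
        exact Submodule.subset_span ⟨v, by exact_mod_cast hvT, rfl⟩
      · rcases hl : C.label v with _ | j0
        · have hpred : ∀ u, (u, v) ∈ C.E → ∃ b : Fin n → F, (∀ j, b j ≠ 0 → C.SS T u j) ∧
              C.form u - b ∈ Submodule.span F (C.form '' (T : Set C.V)) := fun u hu =>
            ih u (by have := C.acyclic u v hu; omega)
          choose! b hb1 hb2 using hpred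
          refine ⟨fun j => ∑ u ∈ Finset.univ.filter (fun u => (u, v) ∈ C.E), C.wt u v * b u j,
            ?_, ?_⟩
          · intro j hj
            obtain ⟨u, hu, hne⟩ := Finset.exists_ne_zero_of_sum_ne_zero hj
            simp only [Finset.mem_filter, Finset.mem_univ, true_and] at hu
            have hw : C.wt u v ≠ 0 := fun h => hne (by rw [h, zero_mul])
            have hbu : b u j ≠ 0 := fun h => hne (by rw [h, mul_zero])
            obtain ⟨s, hs, hp⟩ := hb1 u hu j hbu
            exact ⟨s, hs, hp.trans (avoid_of_step hp.right ⟨hu, hw, hvT⟩)⟩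
          · have : C.form v - (fun j => ∑ u ∈ Finset.univ.filter (fun u => (u, v) ∈ C.E),
                C.wt u v * b u j) = ∑ u ∈ Finset.univ.filter (fun u => (u, v) ∈ C.E),
                C.wt u v • (C.form u - b u) := by
              funext j
              simp only [Pi.sub_apply, Finset.sum_apply, Pi.smul_apply, smul_eq_mul, mul_sub,
                Finset.sum_sub_distrib]
              rw [C.form_gate v hl j]
            rw [this]
            apply Submodule.sum_mem
            intro u hu
            simp only [Finset.mem_filter, Finset.mem_univ, true_and] at hu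
            exact Submodule.smul_mem _ _ (hb2 u hu)
        · refine ⟨Pi.single j0 1, ?_, ?_⟩
          · intro j hj
            have : j = j0 := by
              by_contra hne
              exact hj (by simp [hne])
            subst this
            exact ⟨v, hl, hvT, Relation.ReflTransGen.refl⟩
          · rw [C.form_source v j0 hl, sub_self]
            exact Submodule.zero_mem _
  intro v
  exact main (C.rank v + 1) v (Nat.lt_succ_self _)

open Classical in
/-- outputs reached from `v` -/
noncomputable def RF (v : C.V) : Finset (Fin r) := Finset.univ.filter (fun i => C.RR T v i)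

open Classical in
/-- variables reaching `v` -/
noncomputable def SF (v : C.V) : Finset (Fin n) := Finset.univ.filter (fun j => C.SS T v j)

open Classical in
/-- the pairs (output, variable) connected by a path avoiding `T` -/
noncomputable def BB : Finset (Fin r × Fin n) :=
  Finset.univ.filter (fun q => C.SS T (C.out q.1) q.2)

theorem mem_RF {v : C.V} {i : Fin r} : i ∈ C.RF T v ↔ C.RR T v i := by
  simp [RF]

theorem mem_SF {v : C.V} {j : Fin n} : j ∈ C.SF T v ↔ C.SS T v j := by
  simp [SF]

theorem mem_BB {i : Fin r} {j : Fin n} : (i, j) ∈ C.BB T ↔ C.SS T (C.out i) j := by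
  simp [BB]

/-- The three ways in which a reachable pair `(i, j)` is charged. -/
theorem charge (κ l : ℕ)
    (hK : ∀ v : C.V, v ∉ T → (C.RF T v).card ≤ κ ∨ (C.SF T v).card ≤ l)
    (i : Fin r) (j : Fin n) (hij : C.SS T (C.out i) j) :
    (∃ s, C.label s = some j ∧ C.RR T s i ∧ (C.RF T s).card ≤ κ) ∨
    (∃ u v, (u, v) ∈ C.E ∧ C.SS T u j ∧ (C.SF T u).card ≤ l ∧ C.RR T v i ∧
      (C.RF T v).card ≤ κ) ∨
    (C.SF T (C.out i)).card ≤ l := by
  obtain ⟨s, hs, hsT, hp⟩ := hij
  have key : ∀ v, Relation.ReflTransGen (C.Step T) s v → C.Avoid T v (C.out i) →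
      (C.RF T v).card ≤ κ →
      (∃ s, C.label s = some j ∧ C.RR T s i ∧ (C.RF T s).card ≤ κ) ∨
      (∃ u v, (u, v) ∈ C.E ∧ C.SS T u j ∧ (C.SF T u).card ≤ l ∧ C.RR T v i ∧
        (C.RF T v).card ≤ κ) := by
    intro v hv
    induction hv with
    | refl => intro h1 h2; exact Or.inl ⟨s, hs, h1, h2⟩
    | @tail b d hb hstep ih =>
      intro h1 h2
      have hbA : C.Avoid T s b := ⟨hsT, hb⟩
      have hbT : b ∉ T := hbA.right
      have hbo : C.Avoid T b (C.out i) := (avoid_of_step hbT hstep).trans h1
      by_cases h3 : (C.RF T b).card ≤ κ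
      · exact ih hbo h3
      · have h4 : (C.SF T b).card ≤ l := (hK b hbT).resolve_left h3
        exact Or.inr ⟨b, d, hstep.1, ⟨s, hs, hbA⟩, h4, h1, h2⟩
  have hoT : C.out i ∉ T := Avoid.right ⟨hsT, hp⟩
  by_cases h : (C.RF T (C.out i)).card ≤ κ
  · rcases key (C.out i) hp ⟨hoT, Relation.ReflTransGen.refl⟩ h with h1 | h1
    · exact Or.inl h1
    · exact Or.inr (Or.inl h1)
  · exact Or.inr (Or.inr ((hK _ hoT).resolve_left h))

/-- The number of reachable pairs is at most `κ |V| + κ l |E| + l r`. -/
theorem BB_card (κ l : ℕ)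
    (hK : ∀ v : C.V, v ∉ T → (C.RF T v).card ≤ κ ∨ (C.SF T v).card ≤ l) :
    (C.BB T).card ≤ κ * Fintype.card C.V + κ * l * C.E.card + l * r := by
  classical
  set f1 : C.V → Finset (Fin r × Fin n) := fun s =>
    if (C.RF T s).card ≤ κ then (C.RF T s) ×ˢ (Finset.univ.filter (fun j => C.label s = some j))
    else ∅ with hf1
  set f2 : C.V × C.V → Finset (Fin r × Fin n) := fun e =>
    if (C.SF T e.1).card ≤ l ∧ (C.RF T e.2).card ≤ κ then (C.RF T e.2) ×ˢ (C.SF T e.1) else ∅
    with hf2
  set f3 : Fin r → Finset (Fin r × Fin n) := fun i =>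
    if (C.SF T (C.out i)).card ≤ l then {i} ×ˢ (C.SF T (C.out i)) else ∅ with hf3
  have hsub : C.BB T ⊆ (Finset.univ.biUnion f1 ∪ C.E.biUnion f2) ∪ Finset.univ.biUnion f3 := by
    rintro ⟨i, j⟩ hq
    rw [mem_BB] at hq
    simp only [Finset.mem_union, Finset.mem_biUnion, Finset.mem_univ, true_and]
    rcases C.charge T κ l hK i j hq with ⟨s, h1, h2, h3⟩ | ⟨u, v, h1, h2, h3, h4, h5⟩ | h
    · left; left
      refine ⟨s, ?_⟩
      simp only [hf1, if_pos h3, Finset.mem_product, Finset.mem_filter, Finset.mem_univ,
        true_and, mem_RF]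
      exact ⟨h2, h1⟩
    · left; right
      refine ⟨(u, v), h1, ?_⟩
      simp only [hf2, if_pos (And.intro h3 h5), Finset.mem_product, mem_RF, mem_SF]
      exact ⟨h4, h2⟩
    · right
      refine ⟨i, ?_⟩
      simp only [hf3, if_pos h, Finset.mem_product, Finset.mem_singleton, mem_SF, true_and]
      exact hq
  have c1 : (Finset.univ.biUnion f1).card ≤ κ * Fintype.card C.V := by
    refine Finset.card_biUnion_le.trans ?_
    have : ∀ s ∈ (Finset.univ : Finset C.V), (f1 s).card ≤ κ := by
      intro s _
      simp only [hf1]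
      split_ifs with h
      · rw [Finset.card_product]
        have h2 : (Finset.univ.filter (fun j => C.label s = some j)).card ≤ 1 := by
          rw [Finset.card_le_one]
          intro a ha b hb
          simp only [Finset.mem_filter, Finset.mem_univ, true_and] at ha hb
          rw [ha] at hb
          exact Option.some.inj hb
        calc _ ≤ κ * 1 := Nat.mul_le_mul h h2
          _ = κ := mul_one _
      · simp
    calc _ ≤ ∑ _s : C.V, κ := Finset.sum_le_sum this
      _ = κ * Fintype.card C.V := by simp [mul_comm]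
  have c2 : (C.E.biUnion f2).card ≤ κ * l * C.E.card := by
    refine Finset.card_biUnion_le.trans ?_
    have : ∀ e ∈ C.E, (f2 e).card ≤ κ * l := by
      intro e _
      simp only [hf2]
      split_ifs with h
      · rw [Finset.card_product]
        exact Nat.mul_le_mul h.2 h.1
      · simp
    calc _ ≤ ∑ _e ∈ C.E, κ * l := Finset.sum_le_sum this
      _ = κ * l * C.E.card := by rw [Finset.sum_const, smul_eq_mul, mul_comm]
  have c3 : (Finset.univ.biUnion f3).card ≤ l * r := by
    refine Finset.card_biUnion_le.trans ?_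
    have : ∀ i ∈ (Finset.univ : Finset (Fin r)), (f3 i).card ≤ l := by
      intro i _
      simp only [hf3]
      split_ifs with h
      · rw [Finset.card_product]; simpa using h
      · simp
    calc _ ≤ ∑ _i : Fin r, l := Finset.sum_le_sum this
      _ = l * r := by simp [mul_comm]
  calc (C.BB T).card ≤ _ := Finset.card_le_card hsub
    _ ≤ (Finset.univ.biUnion f1 ∪ C.E.biUnion f2).card + (Finset.univ.biUnion f3).card :=
        Finset.card_union_le _ _
    _ ≤ ((Finset.univ.biUnion f1).card + (C.E.biUnion f2).card)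
        + (Finset.univ.biUnion f3).card := by
        gcongr; exact Finset.card_union_le _ _
    _ ≤ _ := by gcongr

/-- Triangular families are small: if `ℓ x ∈ S`, `dim S ≤ t`, and the matrix `ℓ x (y x')` is
triangular with nonzero diagonal, the index set has at most `t` elements. -/
theorem triang_card {ι β : Type} [DecidableEq ι] (t : ℕ) (S : Submodule F (β → F))
    [Module.Finite F S] (hS : Module.finrank F S ≤ t) (X : Finset ι) (L : ι → β → F) (y : ι → β)
    (φ : ι → ℤ) (hL : ∀ x ∈ X, L x ∈ S) (hd : ∀ x ∈ X, L x (y x) ≠ 0)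
    (ht : ∀ x ∈ X, ∀ x' ∈ X, x' ≠ x → L x (y x') ≠ 0 → φ x' < φ x) : X.card ≤ t := by
  classical
  have hli : LinearIndependent F (fun x : X => (⟨L x.1, hL x.1 x.2⟩ : S)) := by
    rw [Fintype.linearIndependent_iff]
    intro g hg
    by_contra hcon
    push Not at hcon
    obtain ⟨x1, hx1⟩ := hcon
    obtain ⟨x0, hx0, hmax⟩ := Finset.exists_max_image
      (Finset.univ.filter (fun x : X => g x ≠ 0)) (fun x : X => φ x.1)
      ⟨x1, by simpa using hx1⟩
    simp only [Finset.mem_filter, Finset.mem_univ, true_and] at hx0 hmax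
    have h0 := congrArg (fun z : S => (z : β → F) (y x0.1)) hg
    simp only [Submodule.coe_sum, Submodule.coe_smul_of_tower, Finset.sum_apply, Pi.smul_apply,
      smul_eq_mul, Submodule.coe_zero, Pi.zero_apply] at h0
    rw [Finset.sum_eq_single x0] at h0
    · rcases mul_eq_zero.mp h0 with h | h
      · exact hx0 h
      · exact hd x0.1 x0.2 h
    · intro x _ hx
      by_cases hg0 : g x = 0
      · rw [hg0, zero_mul]
      · by_contra hne
        have hLne : L x.1 (y x0.1) ≠ 0 := fun h => hne (by rw [h, mul_zero])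
        have h1 := ht x.1 x.2 x0.1 x0.2 (fun h => hx (Subtype.ext h.symm)) hLne
        have h2 := hmax x hg0
        omega
    · intro h; exact absurd (Finset.mem_univ _) h
  have := hli.fintype_card_le_finrank
  simp only [Fintype.card_coe] at this
  omega

/-- **The basic inequality.** -/
theorem frame {α : Type} (A : Fin r → Fin n → F) (hA : C.Computes A) (hT : C.Hits T)
    (κ l : ℕ)
    (hK : ∀ (R : Finset (Fin r)) (S : Finset (Fin n)), (∀ i ∈ R, ∀ j ∈ S, A i j ≠ 0) →
      R.card ≤ κ ∨ S.card ≤ l)
    (Ω : Finset α) (X : α → Finset (Fin r)) (y : α → Fin r → Fin n) (φ : α → Fin r → ℤ)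
    (hpos : ∀ a ∈ Ω, ∀ x ∈ X a, A x (y a x) ≠ 0)
    (htri : ∀ a ∈ Ω, ∀ x ∈ X a, ∀ x' ∈ X a, x' ≠ x → A x (y a x') ≠ 0 → φ a x' < φ a x)
    (hinj : ∀ a ∈ Ω, ∀ b ∈ Ω, ∀ x ∈ X a, x ∈ X b → y a x = y b x → a = b) :
    ∑ a ∈ Ω, (X a).card ≤ Ω.card * T.card +
      (κ * Fintype.card C.V + κ * l * C.E.card + l * r) := by
  classical
  -- the reachability pattern is contained in the support of `A`
  have hsupp : ∀ i j, C.SS T (C.out i) j → A i j ≠ 0 := by
    intro i j ⟨s, hs, hp⟩ h0
    exact hT i j (by rw [hA i j, h0]) s hs hp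
  have hKv : ∀ v : C.V, v ∉ T → (C.RF T v).card ≤ κ ∨ (C.SF T v).card ≤ l := by
    intro v _
    apply hK
    intro i hi j hj
    rw [mem_RF] at hi
    rw [mem_SF] at hj
    obtain ⟨s, hs, hp⟩ := hj
    exact hsupp i j ⟨s, hs, hp.trans hi⟩
  have hB := C.BB_card T κ l hKv
  -- the low rank part
  choose b hb1 hb2 using C.decomp T
  set S : Submodule F (Fin n → F) := Submodule.span F (C.form '' (T : Set C.V)) with hSdef
  have hSfin : Module.finrank F S ≤ T.card := by
    have h1 : (C.form '' (T : Set C.V)) = ((T.image C.form : Finset (Fin n → F)) : Set _) := by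
      simp
    rw [hSdef, h1]
    exact (finrank_span_finset_le_card _).trans Finset.card_image_le
  have hmain : ∀ a ∈ Ω, ((X a).filter (fun x => (x, y a x) ∉ C.BB T)).card ≤ T.card := by
    intro a ha
    have hLval : ∀ x ∈ (X a).filter (fun x => (x, y a x) ∉ C.BB T),
        (C.form (C.out x) - b (C.out x)) (y a x) ≠ 0 := by
      intro x hx
      rw [Finset.mem_filter, mem_BB] at hx
      have : b (C.out x) (y a x) = 0 := by
        by_contra h
        exact hx.2 (hb1 _ _ h)
      rw [Pi.sub_apply, this, sub_zero, hA]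
      exact hpos a ha x hx.1
    refine triang_card (F := F) (ι := Fin r) (β := Fin n) T.card S hSfin _
      (fun x => C.form (C.out x) - b (C.out x)) (y a) (φ a) (fun x _ => hb2 _) hLval ?_
    intro x hx x' hx' hne hval
    rw [Finset.mem_filter] at hx hx'
    apply htri a ha x hx.1 x' hx'.1 hne
    intro h0
    apply hval
    have : b (C.out x) (y a x') = 0 := by
      by_contra h
      exact hsupp _ _ (hb1 _ _ h) h0
    simp only [Pi.sub_apply, this, sub_zero, hA x (y a x'), h0]
  have hcount : ∑ a ∈ Ω, ((X a).filter (fun x => (x, y a x) ∈ C.BB T)).card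
      ≤ (C.BB T).card := by
    rw [← Finset.card_sigma]
    apply Finset.card_le_card_of_injOn (fun q : (_ : α) × Fin r => (q.2, y q.1 q.2))
    · rintro ⟨a, x⟩ hq
      simp only [Finset.coe_sigma, Set.mem_sigma_iff, Finset.mem_coe, Finset.mem_filter] at hq
      exact hq.2.2
    · rintro ⟨a, x⟩ hq ⟨a', x'⟩ hq' heq
      simp only [Finset.coe_sigma, Set.mem_sigma_iff, Finset.mem_coe, Finset.mem_filter] at hq hq'
      simp only [Prod.mk.injEq] at heq
      obtain ⟨h1, h2⟩ := heq
      subst h1
      have := hinj a hq.1 a' hq'.1 x hq.2.1 hq'.2.1 h2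
      subst this
      rfl
  calc ∑ a ∈ Ω, (X a).card
      = ∑ a ∈ Ω, (((X a).filter (fun x => (x, y a x) ∉ C.BB T)).card +
          ((X a).filter (fun x => (x, y a x) ∈ C.BB T)).card) := by
        apply Finset.sum_congr rfl
        intro a _
        rw [add_comm, Finset.card_filter_add_card_filter_not]
    _ = ∑ a ∈ Ω, ((X a).filter (fun x => (x, y a x) ∉ C.BB T)).card +
          ∑ a ∈ Ω, ((X a).filter (fun x => (x, y a x) ∈ C.BB T)).card :=
        Finset.sum_add_distrib
    _ ≤ ∑ _a ∈ Ω, T.card + (C.BB T).card := by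
        apply Nat.add_le_add _ hcount
        exact Finset.sum_le_sum hmain
    _ ≤ _ := by
        rw [Finset.sum_const, smul_eq_mul]
        omega

end LinCircuit

end H633LC
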