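import Pool.Agent.H633R2.LC.Circ
import Pool.Agent.H633R2.LC.Asym

/-!
# Superlinear lower bounds when few gates cancel many variables
-/

namespace H633LC

open Finset

/-- restriction to part of the outputs does not change anything else -/
def LinCircuit.reindex {F : Type} [Field F] {n m r : ℕ} (C : LinCircuit F n m) (g : Fin r → Fin m) :
    LinCircuit F n r :=
  { V := C.V
    label := C.label
    E := C.E
    wt := C.wt
    rank := C.rank
    acyclic := C.acyclic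
    source := C.source
    form := C.form
    form_source := C.form_source
    form_gate := C.form_gate
    out := fun i => C.out (g i) }

theorem heavy_size {F : Type} [Field F] {n m : ℕ} (C : LinCircuit F n m) (D d : ℕ) (hd : 1 ≤ d)
    (hD : 3 * d < D) (hrow : ∀ i, D ≤ (C.supp (C.out i)).card)
    (hco : ∀ i i', i ≠ i' → (C.supp (C.out i) ∩ C.supp (C.out i')).card ≤ d)
    (z r : ℕ) (hr : r + (C.heavyGates z).card ≤ m) :
    r ^ 2 * D ≤ C.size * (3 * d * r + 2 * (z * C.size)) := by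
  have h := C.size_heavy D d hd hD hrow hco z r hr
  refine h.trans ?_
  unfold LinCircuit.size
  gcongr
  · exact Nat.le_add_left _ _
  · exact Nat.le_add_right _ _

theorem cancel_size {F : Type} [Field F] {n m : ℕ} (C : LinCircuit F n m) (D d : ℕ) (hd : 1 ≤ d)
    (hD : 3 * d < D) (hrow : ∀ i, D ≤ (C.supp (C.out i)).card)
    (hco : ∀ i i', i ≠ i' → (C.supp (C.out i) ∩ C.supp (C.out i')).card ≤ d) :
    m ^ 2 * D ≤ C.size * (3 * d * m + 2 * C.cancellations) := by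
  have h := C.size_cancellations D d hd hD hrow hco
  refine h.trans ?_
  unfold LinCircuit.size
  gcongr
  exact Nat.le_add_left _ _

/-- the circulant family satisfies the hypotheses with `D = p^l`, `d = p^(l-1)` -/
theorem circ_hyp {F : Type} [Field F] {n p l : ℕ} (hp : p.Prime) (hp5 : 5 ≤ p) (hl : 1 ≤ l)
    (hn : (2 * p) ^ (l + 1) ≤ n) (C : LinCircuit F n n) (hC : C.Computes (circMat F n p l)) :
    1 ≤ p ^ (l - 1) ∧ 3 * p ^ (l - 1) < p ^ l ∧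
    (∀ i, p ^ l ≤ (C.supp (C.out i)).card) ∧
    (∀ i i', i ≠ i' → (C.supp (C.out i) ∩ C.supp (C.out i')).card ≤ p ^ (l - 1)) := by
  have hp0 := hp.pos
  have hpl : p ^ l = p * p ^ (l - 1) := by
    rw [← pow_succ', Nat.sub_add_cancel hl]
  have h1 : 1 ≤ p ^ (l - 1) := Nat.one_le_pow _ _ hp0
  refine ⟨h1, ?_, ?_, ?_⟩
  · rw [hpl]
    have : 5 * p ^ (l - 1) ≤ p * p ^ (l - 1) := by gcongr
    omega
  · intro i
    apply circ_row (F := F) hp0 hn _ i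
    intro y
    rw [LinCircuit.mem_supp, hC i y]
  · intro i i' hne
    apply circ_codeg (F := F) hp (by omega) hn i i' hne
    intro y hy
    rw [Finset.mem_inter, LinCircuit.mem_supp, LinCircuit.mem_supp, hC i y, hC i' y] at hy
    exact hy

/-- **Few gates with many cancellations imply superlinear size.** -/
theorem circ_asym (δ : ℝ) (hδ : 0 < δ) : ∃ (l : ℕ) (δ' : ℝ), 1 ≤ l ∧ 0 < δ' ∧ ∃ n0 : ℕ,
    ∀ n : ℕ, n0 ≤ n → ∀ p : ℕ, p.Prime → (2 * p) ^ (l + 1) ≤ n → n < (4 * p) ^ (l + 1) →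
    ∀ (F : Type) [Field F] (C : LinCircuit F n n), C.Computes (circMat F n p l) →
      ((C.heavyGates ⌊(n : ℝ) ^ (1 - δ)⌋₊).card : ℝ) ≤ n - (n : ℝ) ^ (1 - δ') →
      (n : ℝ) ^ (1 + δ') ≤ C.size := by
  obtain ⟨l, hl⟩ := exists_nat_gt (2 / δ)
  have hl0 : (0 : ℝ) < l := lt_trans (by positivity) hl
  have hl1 : 1 ≤ l := by exact_mod_cast hl0
  set δ' : ℝ := 1 / (16 * (l + 1)) with hδ'
  have hδ'0 : 0 < δ' := by positivity
  have hx : 1 / ((l : ℝ) + 1) = 16 * δ' := by rw [hδ']; field_simp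
  have hδl : 32 * δ' < δ := by
    have h1 : 2 < δ * l := by rw [div_lt_iff₀ hδ] at hl; linarith
    have h2 : δ' * (16 * (l + 1)) = 1 := by rw [hδ']; field_simp
    nlinarith
  obtain ⟨n1, hn1⟩ := ev δ' (200 * 4 ^ (l + 1)) hδ'0
  refine ⟨l, δ', hl1, hδ'0, max n1 ((4 * 5) ^ (l + 1)), ?_⟩
  intro n hn p hp hp1 hp2 F _ C hC hheavy
  have hnn1 : n1 ≤ n := le_trans (le_max_left _ _) hn
  have hnn2 : (4 * 5) ^ (l + 1) ≤ n := le_trans (le_max_right _ _) hn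
  have hp5 : 5 ≤ p := by
    by_contra hlt
    rw [not_le] at hlt
    have h1 : (4 * p) ^ (l + 1) ≤ (4 * 5) ^ (l + 1) := Nat.pow_le_pow_left (by omega) _
    omega
  have hn1' : 1 ≤ n := le_trans (Nat.one_le_pow _ _ (by omega)) hnn2
  set X : ℝ := (n : ℝ) with hX
  have hX1 : 1 ≤ X := by rw [hX]; exact_mod_cast hn1'
  have hX0 : 0 < X := by linarith
  obtain ⟨h1, h2, h3, h4⟩ := circ_hyp hp hp5 hl1 hp1 C hC
  by_contra hcon
  rw [not_le] at hcon
  set s : ℝ := (C.size : ℝ) with hs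
  -- the number of good rows
  have hle : (C.heavyGates ⌊X ^ (1 - δ)⌋₊).card ≤ n := by
    have : ((C.heavyGates ⌊X ^ (1 - δ)⌋₊).card : ℝ) ≤ n := by
      have : 0 ≤ X ^ (1 - δ') := by positivity
      linarith
    exact_mod_cast this
  obtain ⟨r, hr⟩ := Nat.exists_eq_add_of_le hle
  have hrR : X ^ (1 - δ') ≤ (r : ℝ) := by
    have : (n : ℝ) = ((C.heavyGates ⌊X ^ (1 - δ)⌋₊).card : ℝ) + r := by exact_mod_cast hr
    linarith
  have hmain := heavy_size C (p ^ l) (p ^ (l - 1)) h1 h2 h3 h4 ⌊X ^ (1 - δ)⌋₊ r (by omega)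
  have hmainR : (r : ℝ) ^ 2 * (p : ℝ) ^ l ≤ s * (3 * (p : ℝ) ^ (l - 1) * r +
      2 * ((⌊X ^ (1 - δ)⌋₊ : ℝ) * s)) := by
    rw [hs]
    exact_mod_cast hmain
  have hz : (⌊X ^ (1 - δ)⌋₊ : ℝ) ≤ X ^ (1 - δ) := Nat.floor_le (by positivity)
  have hs0 : 0 ≤ s := by rw [hs]; positivity
  have hr0 : 0 < (r : ℝ) := lt_of_lt_of_le (by positivity) hrR
  have hp0 : (0 : ℝ) < p := by exact_mod_cast hp.pos
  have hpl : (p : ℝ) ^ l = p * (p : ℝ) ^ (l - 1) := by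
    rw [← pow_succ', Nat.sub_add_cancel hl1]
  -- `p` is large
  have hpX : X ^ (16 * δ') ≤ 4 * p := by
    have h5 : X ≤ (4 * (p : ℝ)) ^ (l + 1) := by
      rw [hX]; exact_mod_cast hp2.le
    calc X ^ (16 * δ') ≤ ((4 * (p : ℝ)) ^ (l + 1)) ^ (16 * δ') :=
          Real.rpow_le_rpow hX0.le h5 (by positivity)
      _ = 4 * p := by
          rw [← hx, ← Real.rpow_natCast, ← Real.rpow_mul (by positivity)]
          have : ((l + 1 : ℕ) : ℝ) * (1 / ((l : ℝ) + 1)) = 1 := by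
            push_cast; field_simp
          rw [this, Real.rpow_one]
  have hbig : 200 * 4 ^ (l + 1) ≤ X ^ δ' := hn1 n hnn1
  have hbig1 : (200 : ℝ) ≤ X ^ δ' := by
    have : (1 : ℝ) ≤ 4 ^ (l + 1) := one_le_pow₀ (by norm_num)
    linarith
  -- first term
  have hA : s * (3 * (p : ℝ) ^ (l - 1) * r) ≤ (r : ℝ) ^ 2 * (p : ℝ) ^ l / 4 := by
    have h6 : 12 * s ≤ r * p := by
      have e1 : X ^ (1 + δ') * X ^ δ' ≤ X ^ (1 - δ') * X ^ (16 * δ') := by
        rw [← Real.rpow_add hX0, ← Real.rpow_add hX0]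
        exact Real.rpow_le_rpow_of_exponent_le hX1 (by linarith)
      have e2 : X ^ (1 - δ') * X ^ (16 * δ') ≤ r * (4 * p) := by gcongr
      have e3 : s * 200 ≤ X ^ (1 + δ') * X ^ δ' := by gcongr
      nlinarith
    rw [hpl]
    have h7 : 0 ≤ (p : ℝ) ^ (l - 1) * r := by positivity
    nlinarith [mul_le_mul_of_nonneg_left h6 h7]
  -- second term
  have hB : s * (2 * ((⌊X ^ (1 - δ)⌋₊ : ℝ) * s)) ≤ (r : ℝ) ^ 2 * (p : ℝ) ^ l / 4 := by
    have e1 : s * (2 * ((⌊X ^ (1 - δ)⌋₊ : ℝ) * s)) ≤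
        X ^ (1 + δ') * (2 * (X ^ (1 - δ) * X ^ (1 + δ'))) := by gcongr
    -- `p ^ l ≥ X ^ (1 - 16 δ') / 4 ^ l`
    have e2 : X ^ (1 - 16 * δ') ≤ 4 ^ (l + 1) * (p : ℝ) ^ l := by
      have h5 : X ≤ (4 * (p : ℝ)) ^ (l + 1) := by
        rw [hX]; exact_mod_cast hp2.le
      have h8 : X ^ (1 - 16 * δ') ≤ ((4 * (p : ℝ)) ^ (l + 1)) ^ (1 - 16 * δ') := by
        apply Real.rpow_le_rpow hX0.le h5
        rw [← hx]
        have : 1 / ((l : ℝ) + 1) ≤ 1 := by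
          rw [div_le_one (by positivity)]; linarith
        linarith
      have h9 : ((4 * (p : ℝ)) ^ (l + 1)) ^ (1 - 16 * δ') = (4 * (p : ℝ)) ^ l := by
        rw [← hx, ← Real.rpow_natCast, ← Real.rpow_mul (by positivity)]
        have : ((l + 1 : ℕ) : ℝ) * (1 - 1 / ((l : ℝ) + 1)) = l := by
          push_cast; field_simp; ring
        rw [this, Real.rpow_natCast]
      rw [h9, mul_pow] at h8
      refine h8.trans ?_
      have : (4 : ℝ) ^ l ≤ 4 ^ (l + 1) := pow_le_pow_right₀ (by norm_num) (Nat.le_succ l)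
      gcongr
    have e3 : (X ^ (1 - δ')) ^ 2 ≤ (r : ℝ) ^ 2 := by gcongr
    have e4 : X ^ (1 + δ') * (X ^ (1 - δ) * X ^ (1 + δ')) * X ^ δ' ≤
        (X ^ (1 - δ')) ^ 2 * X ^ (1 - 16 * δ') := by
      rw [← Real.rpow_natCast, ← Real.rpow_mul hX0.le, ← Real.rpow_add hX0, ← Real.rpow_add hX0,
        ← Real.rpow_add hX0, ← Real.rpow_add hX0]
      apply Real.rpow_le_rpow_of_exponent_le hX1
      push_cast
      linarith
    have e5 : (X ^ (1 - δ')) ^ 2 * X ^ (1 - 16 * δ') ≤ (r : ℝ) ^ 2 * (4 ^ (l + 1) * (p : ℝ) ^ l) := by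
      gcongr
    set Q : ℝ := X ^ (1 + δ') * (X ^ (1 - δ) * X ^ (1 + δ')) with hQ
    have hQ0 : 0 ≤ Q := by positivity
    have e6 : Q * (200 * 4 ^ (l + 1)) ≤ (r : ℝ) ^ 2 * (4 ^ (l + 1) * (p : ℝ) ^ l) := by
      calc Q * (200 * 4 ^ (l + 1)) ≤ Q * X ^ δ' := by gcongr
        _ ≤ _ := e4.trans e5
    have h4pos : (0 : ℝ) < 4 ^ (l + 1) := by positivity
    have e7 : 4 ^ (l + 1) * (Q * 200) ≤ 4 ^ (l + 1) * ((r : ℝ) ^ 2 * (p : ℝ) ^ l) := by
      nlinarith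
    have e8 := le_of_mul_le_mul_left e7 h4pos
    have e9 : X ^ (1 + δ') * (2 * (X ^ (1 - δ) * X ^ (1 + δ'))) = 2 * Q := by rw [hQ]; ring
    rw [e9] at e1
    linarith
  have hfin : 0 < (r : ℝ) ^ 2 * (p : ℝ) ^ l := by positivity
  nlinarith

/-- such primes exist for every large `n` -/
theorem circ_exists (l n : ℕ) (hn : 4 ^ (l + 1) ≤ n) :
    ∃ p : ℕ, p.Prime ∧ (2 * p) ^ (l + 1) ≤ n ∧ n < (4 * p) ^ (l + 1) := by
  classical
  -- the largest prime with `(2p)^(l+1) ≤ n`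
  have hl0 : l + 1 ≠ 0 := by omega
  have hex : ∃ p, p ≤ n ∧ p.Prime ∧ (2 * p) ^ (l + 1) ≤ n := by
    refine ⟨2, ?_, Nat.prime_two, by simpa using hn⟩
    have : 2 ≤ 4 ^ (l + 1) := by
      calc 2 ≤ 4 ^ 1 := by norm_num
        _ ≤ 4 ^ (l + 1) := Nat.pow_le_pow_right (by norm_num) (by omega)
    omega
  set p := Nat.findGreatest (fun p => p.Prime ∧ (2 * p) ^ (l + 1) ≤ n) n with hp
  obtain ⟨p0, hp0n, hp0⟩ := hex
  have hpspec : p.Prime ∧ (2 * p) ^ (l + 1) ≤ n :=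
    Nat.findGreatest_spec (P := fun p => p.Prime ∧ (2 * p) ^ (l + 1) ≤ n) hp0n hp0
  refine ⟨p, hpspec.1, hpspec.2, ?_⟩
  by_contra hcon
  rw [not_lt] at hcon
  obtain ⟨q, hq, hq1, hq2⟩ := Nat.exists_prime_lt_and_le_two_mul p hpspec.1.ne_zero
  have h1 : (2 * q) ^ (l + 1) ≤ n := by
    refine le_trans (Nat.pow_le_pow_left ?_ _) hcon
    omega
  have h2 : q ≤ n := by
    calc q ≤ 2 * q := by omega
      _ ≤ (2 * q) ^ (l + 1) := Nat.le_self_pow hl0 _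
      _ ≤ n := h1
  have h3 := Nat.le_findGreatest (P := fun p => p.Prime ∧ (2 * p) ^ (l + 1) ≤ n) h2 ⟨hq, h1⟩
  omega

end H633LC
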