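import Pool.Agent.H633R2.LC.Upper

/-!
# Real circuits from complex circuits, and circuits with few cancelling gates in general
-/

namespace H633LC

open Finset

/-- the real part of a complex circuit -/
theorem realify {n r : ℕ} (C : LinCircuit ℂ n r) : ∃ C' : LinCircuit ℝ n r,
    (∀ i j, C'.form (C'.out i) j = (C.form (C.out i) j).re) ∧ C'.size ≤ 4 * C.size := by
  classical
  set E' : Finset ((C.V × Bool) × (C.V × Bool)) :=
    (C.E ×ˢ (Finset.univ : Finset (Bool × Bool))).image
      (fun q => ((q.1.1, q.2.1), (q.1.2, q.2.2))) with hE'
  have hmem : ∀ u a v b, (((u, a) : C.V × Bool), ((v, b) : C.V × Bool)) ∈ E' ↔ (u, v) ∈ C.E := by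
    intro u a v b
    rw [hE', Finset.mem_image]
    constructor
    · rintro ⟨⟨⟨u', v'⟩, ⟨a', b'⟩⟩, hq, heq⟩
      simp only [Prod.mk.injEq] at heq
      obtain ⟨⟨h1, -⟩, ⟨h2, -⟩⟩ := heq
      subst h1 h2
      exact (Finset.mem_product.mp hq).1
    · intro h
      exact ⟨((u, v), (a, b)), Finset.mem_product.mpr ⟨h, Finset.mem_univ _⟩, rfl⟩
  -- `false` is the real part, `true` the imaginary part
  set wt' : (C.V × Bool) → (C.V × Bool) → ℝ := fun x y =>
    if x.2 = y.2 then (C.wt x.1 y.1).re else if y.2 = true then (C.wt x.1 y.1).im
      else -(C.wt x.1 y.1).im with hwt'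
  set form' : (C.V × Bool) → Fin n → ℝ := fun x j =>
    if x.2 = true then (C.form x.1 j).im else (C.form x.1 j).re with hform'
  refine ⟨{ V := C.V × Bool
            label := fun x => if x.2 = true then none else C.label x.1
            E := E'
            wt := wt'
            rank := fun x => C.rank x.1
            acyclic := ?_
            source := ?_
            form := form'
            form_source := ?_
            form_gate := ?_
            out := fun i => (C.out i, false) }, ?_, ?_⟩
  · rintro ⟨u, a⟩ ⟨v, b⟩ h
    exact C.acyclic u v ((hmem u a v b).mp h)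
  · rintro ⟨u, a⟩ ⟨v, b⟩ h
    have := C.source u v ((hmem u a v b).mp h)
    simp [this]
  · rintro ⟨v, b⟩ j h
    cases b
    · have h' : C.label v = some j := by simpa using h
      funext j'
      have := congrFun (C.form_source v j h') j'
      simp only [hform', this]
      by_cases hj : j' = j
      · subst hj; simp
      · simp [Pi.single_eq_of_ne hj]
    · simp at h
  · rintro ⟨v, b⟩ h j
    -- the form of `v` is the sum over the in-neighbours, or `v` is a source and `b` is `true`
    have hgate : form' (v, b) j = ∑ u ∈ Finset.univ.filter (fun u => (u, v) ∈ C.E),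
        ∑ a : Bool, wt' (u, a) (v, b) * form' (u, a) j := by
      have hsum : ∀ u : C.V, ∑ a : Bool, wt' (u, a) (v, b) * form' (u, a) j =
          if b = true then (C.wt u v * C.form u j).im else (C.wt u v * C.form u j).re := by
        intro u
        rw [Fintype.sum_bool]
        cases b
        · simp [hwt', hform', Complex.mul_re]; ring
        · simp [hwt', hform', Complex.mul_im]
      rcases hl : C.label v with _ | j0
      · have h1 := C.form_gate v hl j
        rw [Finset.sum_congr rfl fun u _ => hsum u]
        cases b
        · simp only [hform', Bool.false_eq_true, if_false]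
          rw [h1, Complex.re_sum]
        · simp only [hform', if_true]
          rw [h1, Complex.im_sum]
      · have hb : b = true := by
          cases b
          · rw [if_neg (by simp)] at h
            rw [hl] at h
            exact absurd h (by simp)
          · rfl
        subst hb
        have hemp : Finset.univ.filter (fun u => (u, v) ∈ C.E) = ∅ := by
          rw [Finset.filter_eq_empty_iff]
          intro u _ hu
          rw [C.source u v hu] at hl
          exact absurd hl (by simp)
        rw [hemp, Finset.sum_empty]
        simp only [hform', if_true]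
        rw [C.form_source v j0 hl]
        by_cases hj : j = j0
        · subst hj; simp
        · simp [Pi.single_eq_of_ne hj]
    rw [hgate, Finset.sum_filter, Finset.sum_filter, Fintype.sum_prod_type]
    apply Finset.sum_congr rfl
    intro u _
    simp only [hmem]
    by_cases hu : (u, v) ∈ C.E
    · simp only [hu, if_true]
    · simp only [hu, if_false, Finset.sum_const_zero]
  · intro i j
    simp [hform']
  · change Fintype.card (C.V × Bool) + E'.card ≤ _
    have h1 : E'.card ≤ C.E.card * 4 := by
      refine Finset.card_image_le.trans ?_
      rw [Finset.card_product]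
      simp
    rw [Fintype.card_prod, Fintype.card_bool]
    unfold LinCircuit.size
    omega

open Classical in
/-- circuits with at most `t` cancelling gates, from a simulation with few cancelling gates -/
theorem few_cancel {F : Type} [Field F] {n : ℕ} (a b : ℕ)
    (sim : ∀ (r : ℕ) (C : LinCircuit F n r), ∃ C' : LinCircuit F n r,
      (∀ i, C'.form (C'.out i) = C.form (C.out i)) ∧ C'.cancelGates.card ≤ r ∧
      C'.size ≤ a * C.size + b * r)
    (A : Fin n → Fin n → F) (w : ℕ)
    (hw : ∀ x, (Finset.univ.filter (fun y => A x y ≠ 0)).card ≤ w)
    (C0 : LinCircuit F n n) (hC0 : C0.Computes A) (t : ℕ) (ht : t ≤ n) :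
    ∃ C : LinCircuit F n n, C.Computes A ∧ C.cancelGates.card ≤ t ∧
      C.size ≤ a * C0.size + (n - t) * w + (b + 2) * n := by
  set C1 : LinCircuit F n t :=
    { V := C0.V
      label := C0.label
      E := C0.E
      wt := C0.wt
      rank := C0.rank
      acyclic := C0.acyclic
      source := C0.source
      form := C0.form
      form_source := C0.form_source
      form_gate := C0.form_gate
      out := fun i => C0.out ⟨i, lt_of_lt_of_le i.2 ht⟩ } with hC1
  obtain ⟨C2, hf2, hc2, hs2⟩ := sim t C1
  have hs1 : C1.size = C0.size := rfl
  obtain ⟨D, hD, hcD, hsD⟩ := direct (F := F) (n := n) (r := n - t)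
    (fun i j => A ⟨t + i, by have := i.2; omega⟩ j)
  obtain ⟨G, hG, hcG, hsG⟩ := stack C2 D (r := n) (fun i =>
    if h : (i : ℕ) < t then Sum.inl ⟨i, h⟩ else Sum.inr ⟨i - t, by have := i.2; omega⟩)
  refine ⟨G, ?_, ?_, ?_⟩
  · intro i j
    rw [hG i]
    by_cases h : (i : ℕ) < t
    · simp only [h, dif_pos, Sum.elim_inl]
      rw [hf2]
      exact hC0 i j
    · simp only [h, dif_neg, not_false_eq_true, Sum.elim_inr]
      rw [hD _ j]
      have : (⟨t + (i - t), by have := i.2; omega⟩ : Fin n) = i := Fin.ext (by simp; omega)
      change A (⟨t + (i - t), by have := i.2; omega⟩ : Fin n) j = _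
      rw [this]
  · omega
  · have hnz : ((Finset.univ : Finset (Fin (n - t) × Fin n)).filter
        (fun q : Fin (n - t) × Fin n =>
          A ⟨t + q.1, by have := q.1.2; omega⟩ q.2 ≠ 0)).card ≤ (n - t) * w := by
      rw [Finset.card_filter, Fintype.sum_prod_type]
      calc _ = ∑ i : Fin (n - t), (Finset.univ.filter
            (fun y : Fin n => A ⟨t + i, by have := i.2; omega⟩ y ≠ 0)).card := by
            apply Finset.sum_congr rfl
            intro i _
            rw [Finset.card_filter]
        _ ≤ ∑ _i : Fin (n - t), w := Finset.sum_le_sum fun i _ => hw _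
        _ = (n - t) * w := by simp
    calc G.size ≤ C2.size + D.size := hsG
      _ ≤ (a * C0.size + b * t) + (n + (n - t) + (n - t) * w) := by
          refine Nat.add_le_add (hs2.trans ?_) (hsD.trans (Nat.add_le_add_left hnz _))
          rw [hs1]
      _ ≤ a * C0.size + (n - t) * w + (b + 2) * n := by
          have h1 : b * t ≤ b * n := Nat.mul_le_mul_left b ht
          have h2 : (b + 2) * n = b * n + 2 * n := by ring
          omega

/-- every variable which occurs has a source -/
theorem exists_source {F : Type} [Field F] {n r : ℕ} (C : LinCircuit F n r) (j : Fin n) :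
    ∀ N : ℕ, ∀ v : C.V, C.rank v < N → C.form v j ≠ 0 → ∃ s, C.label s = some j := by
  intro N
  induction N with
  | zero => intro v hv; omega
  | succ N ih =>
    intro v hv hj
    rcases hl : C.label v with _ | j0
    · rw [C.form_gate v hl j] at hj
      obtain ⟨u, hu, hne⟩ := Finset.exists_ne_zero_of_sum_ne_zero hj
      simp only [Finset.mem_filter, Finset.mem_univ, true_and] at hu
      have hfu : C.form u j ≠ 0 := fun h => hne (by rw [h, mul_zero])
      exact ih u (by have := C.acyclic u v hu; omega) hfu
    · rw [C.form_source v j0 hl] at hj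
      have : j = j0 := by
        by_contra hne
        exact hj (by simp [hne])
      subst this
      exact ⟨v, hl⟩

/-- a circuit for a matrix without zero columns has size at least `n` -/
theorem n_le_size {F : Type} [Field F] {n r : ℕ} (C : LinCircuit F n r) (A : Fin r → Fin n → F)
    (hC : C.Computes A) (hA : ∀ j, ∃ i, A i j ≠ 0) : n ≤ C.size := by
  have h1 : ∀ j, ∃ s, C.label s = some j := by
    intro j
    obtain ⟨i, hi⟩ := hA j
    rw [← hC i j] at hi
    exact exists_source C j _ (C.out i) (Nat.lt_succ_self _) hi
  choose s hs using h1
  have h2 : Function.Injective s := by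
    intro j j' h
    have := hs j
    rw [h, hs j'] at this
    exact (Option.some.inj this).symm
  have h3 := Fintype.card_le_of_injective s h2
  rw [Fintype.card_fin] at h3
  unfold LinCircuit.size
  omega

end H633LC
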