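import Pool.Agent.H633R2.LC.Upper
import Pool.Agent.H633R2.LC.Asym

/-!
# The separator theorem in final form
-/

namespace H633LC

open Finset

theorem toep_eq_toeplitz01 (F : Type) [Field F] (n m k : ℕ) (Ω : Finset (Fin k → ℕ)) :
    toep F n m k Ω = toeplitz01 F n (Ω.image (shift m k)) := by
  funext x y
  unfold toep toeplitz01
  have : (∃ w ∈ Ω.image (shift m k), (y : ℕ) = x + w) ↔
      (∃ a ∈ Ω, (y : ℕ) = x + shift m k a) := by
    simp only [Finset.mem_image]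
    constructor
    · rintro ⟨w, ⟨a, ha, rfl⟩, h⟩; exact ⟨a, ha, h⟩
    · rintro ⟨a, ha, h⟩; exact ⟨_, ⟨a, ha, rfl⟩, h⟩
  simp only [this]

theorem liftShifts_card {p k : ℕ} [hpf : Fact p.Prime] {E : Type} [Field E] [Algebra (ZMod p) E]
    (β : Module.Basis (Fin k) (ZMod p) E) {m : ℕ} (hm : p ≤ m) :
    (liftShifts β m).card = (normOne β).card := by
  unfold liftShifts
  apply Finset.card_image_of_injOn
  intro a ha b hb h
  have hp := hpf.out.pos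
  exact shift_inj (by omega) hm ((mem_normOne β).mp ha).1 ((mem_normOne β).mp hb).1 h

theorem separator (ε : ℝ) (hε : 0 < ε) : ∃ (k h : ℕ) (γ c : ℝ), 1 ≤ k ∧ 1 ≤ h ∧ 0 < γ ∧
    0 < c ∧ ∃ n0 : ℕ, ∀ n : ℕ, n0 ≤ n →
    (∃ (u p : ℕ) (_ : Fact p.Prime) (E : Type) (_ : Field E) (_ : Algebra (ZMod p) E),
      u ^ ((k + 2) * (h + 1)) ≤ n ∧ n < (u + 1) ^ ((k + 2) * (h + 1)) ∧ u ^ h ≤ 2 * p ∧
      p ≤ u ^ h ∧ Nonempty (Module.Basis (Fin k) (ZMod p) E)) ∧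
    ∀ (u p : ℕ) (_ : Fact p.Prime), u ^ ((k + 2) * (h + 1)) ≤ n →
      n < (u + 1) ^ ((k + 2) * (h + 1)) → u ^ h ≤ 2 * p → p ≤ u ^ h →
    ∀ (E : Type) [Field E] [Algebra (ZMod p) E] (β : Module.Basis (Fin k) (ZMod p) E),
      (n : ℝ) ^ (1 - ε) ≤ (liftShifts β (u * p)).card ∧
      (∀ (F : Type) [Field F] (C : LinCircuit F n n),
        C.Computes (toeplitz01 F n (liftShifts β (u * p))) →
        ∀ T : Finset C.V, C.Hits T → (n : ℝ) ^ (1 - γ) ≤ n - T.card →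
        c * (liftShifts β (u * p)).card * (n - T.card) ≤ C.size) := by
  obtain ⟨k, h, γ, c, hk, hh, hγ, hc, n0, hmain⟩ := norm_asym ε hε
  refine ⟨k, h, γ, c, hk, hh, hγ, hc, max n0 (2 ^ ((k + 2) * (h + 1))), fun n hn => ?_⟩
  have hn0 : n0 ≤ n := le_trans (le_max_left _ _) hn
  have hn1 : 2 ^ ((k + 2) * (h + 1)) ≤ n := le_trans (le_max_right _ _) hn
  constructor
  · obtain ⟨u, p, h1, h2, -, h3, h4, hp, E, i1, i2, h5⟩ := norm_exists k h hk n hn1 hh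
    exact ⟨u, p, hp, E, i1, i2, h1, h2, h3, h4, h5⟩
  · intro u p hp h1 h2 h3 h4 E _ _ β
    obtain ⟨hu, g1, g2⟩ := hmain n hn0 u h1 h2 p hp h3 h4 E β
    have hcard : (liftShifts β (u * p)).card = (normOne β).card :=
      liftShifts_card β (Nat.le_mul_of_pos_left p hu)
    rw [hcard]
    refine ⟨g1, ?_⟩
    intro F _ C hC T hT hT2
    refine g2 F C ?_ T hT hT2
    rw [toep_eq_toeplitz01]
    exact hC

end H633LC
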