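import Pool.Agent.H633R2.LC.Frame

/-!
# Over `ℝ` and over `ℂ`, as many cancelling gates as outputs always suffice
-/

namespace H633LC

open Finset

section mk

variable {F : Type} [Field F] {n r : ℕ}

/-- the forms computed in a labelled weighted DAG -/
theorem exists_form (V : Type) [Fintype V] [DecidableEq V] (label : V → Option (Fin n))
    (E : Finset (V × V)) (wt : V → V → F) (rank : V → ℕ)
    (acyclic : ∀ u v, (u, v) ∈ E → rank u < rank v) :
    ∃ form : V → Fin n → F, (∀ v j, label v = some j → form v = Pi.single j 1) ∧
      (∀ v, label v = none → ∀ j,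
        form v j = ∑ u ∈ Finset.univ.filter (fun u => (u, v) ∈ E), wt u v * form u j) := by
  classical
  have main : ∀ N : ℕ, ∃ form : V → Fin n → F,
      (∀ v, rank v < N → ∀ j, label v = some j → form v = Pi.single j 1) ∧
      (∀ v, rank v < N → label v = none → ∀ j,
        form v j = ∑ u ∈ Finset.univ.filter (fun u => (u, v) ∈ E), wt u v * form u j) := by
    intro N
    induction N with
    | zero => exact ⟨fun _ _ => 0, fun v hv => absurd hv (by omega), fun v hv => absurd hv (by omega)⟩
    | succ N ih =>
      obtain ⟨f, hf1, hf2⟩ := ih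
      refine ⟨fun v => if rank v < N then f v else
        match label v with
        | some j => Pi.single j 1
        | none => fun j => ∑ u ∈ Finset.univ.filter (fun u => (u, v) ∈ E), wt u v * f u j,
        ?_, ?_⟩
      · intro v hv j hj
        by_cases h : rank v < N
        · simp only [h, if_true]; exact hf1 v h j hj
        · simp only [h, if_false, hj]
      · intro v hv hl j
        have hsum : ∑ u ∈ Finset.univ.filter (fun u => (u, v) ∈ E), wt u v *
            ((if rank u < N then f u else
              match label u with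
              | some j => Pi.single j 1
              | none => fun j => ∑ w ∈ Finset.univ.filter (fun w => (w, u) ∈ E),
                wt w u * f w j) : Fin n → F) j =
            ∑ u ∈ Finset.univ.filter (fun u => (u, v) ∈ E), wt u v * f u j := by
          apply Finset.sum_congr rfl
          intro u hu
          simp only [Finset.mem_filter, Finset.mem_univ, true_and] at hu
          have : rank u < N := by have := acyclic u v hu; omega
          simp only [this, if_true]
        rw [hsum]
        by_cases h : rank v < N
        · simp only [h, if_true]; exact hf2 v h hl j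
        · simp only [h, if_false, hl]
  obtain ⟨f, h1, h2⟩ := main ((Finset.univ.sup rank) + 1)
  have hr : ∀ v, rank v < Finset.univ.sup rank + 1 := fun v =>
    Nat.lt_succ_of_le (Finset.le_sup (Finset.mem_univ v))
  exact ⟨f, fun v => h1 v (hr v), fun v => h2 v (hr v)⟩

end mk

/-- General simulation: `U` is a finite commutative group of phases. -/
theorem simulate_gen {F : Type} [Field F] [Algebra ℝ F] {U : Type} [AddCommGroup U] [Fintype U]
    [DecidableEq U] (χ : U → F) (hχ0 : χ 0 = 1) (hχ : ∀ u v, χ (u + v) = χ u * χ v)
    (pos : F → U → ℝ) (hpos : ∀ a u, 0 ≤ pos a u)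
    (hdec : ∀ a, ∑ u, algebraMap ℝ F (pos a u) * χ u = a) {n r : ℕ} (C : LinCircuit F n r) :
    ∃ C' : LinCircuit F n r, (∀ i, C'.form (C'.out i) = C.form (C.out i)) ∧
      C'.cancelGates.card ≤ r ∧
      C'.size ≤ (Fintype.card U) ^ 2 * C.size + (Fintype.card U + 1) * r := by
  classical
  set ι := algebraMap ℝ F with hι
  have hinj : Function.Injective ι := ι.injective
  set label' : ((C.V × U) ⊕ Fin r) → Option (Fin n) := fun v => Sum.elim (fun q => if q.2 = 0 then C.label q.1 else none)
    (fun _ => none) v with hlabel
  set E1 : Finset (((C.V × U) ⊕ Fin r) × ((C.V × U) ⊕ Fin r)) := (C.E ×ˢ (Finset.univ : Finset (U × U))).image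
    (fun q => (Sum.inl (q.1.1, q.2.1), Sum.inl (q.1.2, q.2.2))) with hE1
  set E2 : Finset (((C.V × U) ⊕ Fin r) × ((C.V × U) ⊕ Fin r)) := ((Finset.univ : Finset (Fin r × U))).image
    (fun q => (Sum.inl (C.out q.1, q.2), Sum.inr q.1)) with hE2
  set wt' : ((C.V × U) ⊕ Fin r) → ((C.V × U) ⊕ Fin r) → F := fun a b => match a, b with
    | Sum.inl (v, u), Sum.inl (w, u') => ι (pos (C.wt v w) (u' - u))
    | Sum.inl (_, u), Sum.inr _ => χ u
    | _, _ => 0 with hwt
  set rank' : ((C.V × U) ⊕ Fin r) → ℕ := fun v => Sum.elim (fun q => C.rank q.1)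
    (fun _ => Finset.univ.sup C.rank + 1) v with hrank
  have hmem1 : ∀ v u w u', ((Sum.inl (v, u) : ((C.V × U) ⊕ Fin r)), (Sum.inl (w, u') : ((C.V × U) ⊕ Fin r))) ∈ E1 ∪ E2 ↔
      (v, w) ∈ C.E := by
    intro v u w u'
    simp only [Finset.mem_union, hE1, hE2, Finset.mem_image, Finset.mem_product,
      Finset.mem_univ, and_true, true_and, Prod.mk.injEq, Sum.inl.injEq, Prod.exists, reduceCtorEq,
      and_false, exists_false, or_false]
    constructor
    · rintro ⟨a, b, u1, u2, hab, h⟩
      obtain ⟨⟨rfl, rfl⟩, rfl, rfl⟩ := h
      exact hab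
    · intro h
      exact ⟨v, w, u, u', h, ⟨rfl, rfl⟩, rfl, rfl⟩
  have hmem2 : ∀ v u i, ((Sum.inl (v, u) : ((C.V × U) ⊕ Fin r)), (Sum.inr i : ((C.V × U) ⊕ Fin r))) ∈ E1 ∪ E2 ↔ v = C.out i := by
    intro v u i
    simp only [Finset.mem_union, hE1, hE2, Finset.mem_image, Finset.mem_product,
      Finset.mem_univ, and_true, true_and, Prod.mk.injEq, Sum.inl.injEq, Prod.exists, reduceCtorEq,
      and_false, exists_false, false_or, Sum.inr.injEq]
    constructor
    · rintro ⟨i', u', ⟨h1, h2⟩, rfl⟩
      exact h1.symm
    · rintro rfl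
      exact ⟨i, u, ⟨rfl, rfl⟩, rfl⟩
  have hmem3 : ∀ i (b : ((C.V × U) ⊕ Fin r)), ((Sum.inr i : ((C.V × U) ⊕ Fin r)), b) ∉ E1 ∪ E2 := by
    intro i b
    simp only [Finset.mem_union, hE1, hE2, Finset.mem_image, Finset.mem_product,
      Finset.mem_univ, and_true, true_and, Prod.mk.injEq, Prod.exists, reduceCtorEq,
      false_and, and_false, exists_false, or_false, not_false_eq_true]
  have hacyc : ∀ a b, (a, b) ∈ E1 ∪ E2 → rank' a < rank' b := by
    rintro (⟨v, u⟩ | i) (⟨w, u'⟩ | i') h
    · rw [hmem1] at h
      exact C.acyclic v w h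
    · simp only [hrank, Sum.elim_inl, Sum.elim_inr]
      exact Nat.lt_succ_of_le (Finset.le_sup (f := C.rank) (Finset.mem_univ v))
    · exact absurd h (hmem3 i _)
    · exact absurd h (hmem3 i _)
  obtain ⟨form', hf1, hf2⟩ := exists_form ((C.V × U) ⊕ Fin r) label' (E1 ∪ E2) wt' rank' hacyc
  -- in-neighbours of inner nodes
  have hin1 : ∀ (w : C.V) (u' : U) (g : ((C.V × U) ⊕ Fin r) → F),
      ∑ a ∈ Finset.univ.filter (fun a => (a, (Sum.inl (w, u') : ((C.V × U) ⊕ Fin r))) ∈ E1 ∪ E2), g a =
      ∑ v ∈ Finset.univ.filter (fun v => (v, w) ∈ C.E), ∑ u : U, g (Sum.inl (v, u)) := by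
    intro w u' g
    rw [Finset.sum_filter, Fintype.sum_sum_type]
    have h2 : ∑ i : Fin r, (if ((Sum.inr i : ((C.V × U) ⊕ Fin r)), (Sum.inl (w, u') : ((C.V × U) ⊕ Fin r))) ∈ E1 ∪ E2 then
        g (Sum.inr i) else 0) = 0 := by
      apply Finset.sum_eq_zero
      intro i _
      rw [if_neg (hmem3 i _)]
    rw [h2, add_zero, Fintype.sum_prod_type, Finset.sum_filter]
    apply Finset.sum_congr rfl
    intro v _
    by_cases h : (v, w) ∈ C.E
    · rw [if_pos h]
      apply Finset.sum_congr rfl
      intro u _
      rw [if_pos ((hmem1 v u w u').mpr h)]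
    · rw [if_neg h]
      apply Finset.sum_eq_zero
      intro u _
      rw [if_neg (fun h' => h ((hmem1 v u w u').mp h'))]
  have hin2 : ∀ (i : Fin r) (g : ((C.V × U) ⊕ Fin r) → F),
      ∑ a ∈ Finset.univ.filter (fun a => (a, (Sum.inr i : ((C.V × U) ⊕ Fin r))) ∈ E1 ∪ E2), g a =
      ∑ u : U, g (Sum.inl (C.out i, u)) := by
    intro i g
    rw [Finset.sum_filter, Fintype.sum_sum_type]
    have h2 : ∑ i' : Fin r, (if ((Sum.inr i' : ((C.V × U) ⊕ Fin r)), (Sum.inr i : ((C.V × U) ⊕ Fin r))) ∈ E1 ∪ E2 then
        g (Sum.inr i') else 0) = 0 := by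
      apply Finset.sum_eq_zero
      intro i' _
      rw [if_neg (hmem3 i' _)]
    rw [h2, add_zero, Fintype.sum_prod_type, Finset.sum_eq_single (C.out i)]
    · apply Finset.sum_congr rfl
      intro u _
      rw [if_pos ((hmem2 _ u i).mpr rfl)]
    · intro v _ hv
      apply Finset.sum_eq_zero
      intro u _
      rw [if_neg (fun h' => hv ((hmem2 v u i).mp h'))]
    · intro h; exact absurd (Finset.mem_univ _) h
  -- the inner forms are nonnegative reals and add up to the old forms
  have key : ∀ N : ℕ, ∀ v : C.V, C.rank v < N →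
      (∀ u j, ∃ x : ℝ, 0 ≤ x ∧ form' (Sum.inl (v, u)) j = ι x) ∧
      (∀ j, ∑ u, χ u * form' (Sum.inl (v, u)) j = C.form v j) := by
    intro N
    induction N with
    | zero => intro v hv; omega
    | succ N ih =>
      intro v hv
      rcases hl : C.label v with _ | j0
      · have hl' : ∀ u, label' (Sum.inl (v, u)) = none := by
          intro u
          simp only [hlabel, Sum.elim_inl, hl, ite_self]
        have hrec : ∀ u j, form' (Sum.inl (v, u)) j = ∑ w ∈ Finset.univ.filter
            (fun w => (w, v) ∈ C.E), ∑ u' : U, ι (pos (C.wt w v) (u - u')) *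
              form' (Sum.inl (w, u')) j := by
          intro u j
          rw [hf2 _ (hl' u) j, hin1]
        constructor
        · intro u j
          rw [hrec u j]
          have hx : ∀ w, w ∈ Finset.univ.filter (fun w => (w, v) ∈ C.E) → ∀ u', ∃ x : ℝ, 0 ≤ x ∧
              ι (pos (C.wt w v) (u - u')) * form' (Sum.inl (w, u')) j = ι x := by
            intro w hw u'
            simp only [Finset.mem_filter, Finset.mem_univ, true_and] at hw
            obtain ⟨x, hx0, hx⟩ := (ih w (by have := C.acyclic w v hw; omega)).1 u' j
            exact ⟨_, mul_nonneg (hpos _ _) hx0, by rw [hx, ← map_mul]⟩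
          choose! x hx0 hx using hx
          refine ⟨∑ w ∈ Finset.univ.filter (fun w => (w, v) ∈ C.E), ∑ u' : U, x w u', ?_, ?_⟩
          · exact Finset.sum_nonneg fun w hw => Finset.sum_nonneg fun u' _ => hx0 w hw u'
          · rw [map_sum]
            apply Finset.sum_congr rfl
            intro w hw
            rw [map_sum]
            exact Finset.sum_congr rfl fun u' _ => hx w hw u'
        · intro j
          have hstep : ∀ u, χ u * form' (Sum.inl (v, u)) j = ∑ w ∈ Finset.univ.filter
            (fun w => (w, v) ∈ C.E), ∑ u' : U, χ u * (ι (pos (C.wt w v) (u - u')) *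
              form' (Sum.inl (w, u')) j) := by
            intro u
            rw [hrec u j, Finset.mul_sum]
            exact Finset.sum_congr rfl fun w _ => Finset.mul_sum _ _ _
          rw [Finset.sum_congr rfl fun u _ => hstep u, Finset.sum_comm, C.form_gate v hl j]
          apply Finset.sum_congr rfl
          intro w hw
          simp only [Finset.mem_filter, Finset.mem_univ, true_and] at hw
          rw [Finset.sum_comm, ← (ih w (by have := C.acyclic w v hw; omega)).2 j, Finset.mul_sum]
          apply Finset.sum_congr rfl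
          intro u' _
          have h3 : ∑ u : U, χ u * (ι (pos (C.wt w v) (u - u')) * form' (Sum.inl (w, u')) j) =
              ∑ d : U, χ (d + u') * (ι (pos (C.wt w v) d) * form' (Sum.inl (w, u')) j) := by
            rw [← Equiv.sum_comp (Equiv.addRight u')]
            apply Finset.sum_congr rfl
            intro d _
            simp
          rw [h3]
          nth_rewrite 2 [← hdec (C.wt w v)]
          rw [Finset.sum_mul]
          apply Finset.sum_congr rfl
          intro d _
          rw [hχ]; ring
      · have hl0 : label' (Sum.inl (v, 0)) = some j0 := by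
          simp only [hlabel, Sum.elim_inl, if_true, hl]
        have hlu : ∀ u, u ≠ 0 → label' (Sum.inl (v, u)) = none := by
          intro u hu
          simp only [hlabel, Sum.elim_inl, if_neg hu]
        have hnoin : ∀ w, (w, v) ∉ C.E := by
          intro w hw
          rw [C.source w v hw] at hl
          exact absurd hl (by simp)
        have hz : ∀ u, u ≠ 0 → ∀ j, form' (Sum.inl (v, u)) j = 0 := by
          intro u hu j
          rw [hf2 _ (hlu u hu) j, hin1]
          apply Finset.sum_eq_zero
          intro w hw
          simp only [Finset.mem_filter, Finset.mem_univ, true_and] at hw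
          exact absurd hw (hnoin w)
        constructor
        · intro u j
          by_cases hu : u = 0
          · subst hu
            rw [hf1 _ j0 hl0]
            by_cases hj : j = j0
            · subst hj; exact ⟨1, zero_le_one, by simp⟩
            · exact ⟨0, le_refl _, by simp [hj]⟩
          · exact ⟨0, le_refl _, by rw [hz u hu j, map_zero]⟩
        · intro j
          rw [Finset.sum_eq_single 0]
          · rw [hχ0, one_mul, hf1 _ j0 hl0, C.form_source v j0 hl]
          · intro u _ hu
            rw [hz u hu j, mul_zero]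
          · intro h; exact absurd (Finset.mem_univ _) h
  have key' : ∀ v : C.V, (∀ u j, ∃ x : ℝ, 0 ≤ x ∧ form' (Sum.inl (v, u)) j = ι x) ∧
      (∀ j, ∑ u, χ u * form' (Sum.inl (v, u)) j = C.form v j) := fun v =>
    key (C.rank v + 1) v (Nat.lt_succ_self _)
  have hsrc : ∀ a b, (a, b) ∈ E1 ∪ E2 → label' b = none := by
    rintro (⟨v, u⟩ | i) (⟨w, u'⟩ | i') h
    · rw [hmem1] at h
      simp only [hlabel, Sum.elim_inl, C.source v w h, ite_self]
    · simp only [hlabel, Sum.elim_inr]
    · exact absurd h (hmem3 i _)
    · exact absurd h (hmem3 i _)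
  set C' : LinCircuit F n r :=
    { V := ((C.V × U) ⊕ Fin r)
      label := label'
      E := E1 ∪ E2
      wt := wt'
      rank := rank'
      acyclic := hacyc
      source := hsrc
      form := form'
      form_source := hf1
      form_gate := by
        intro v hv j
        rw [hf2 v hv j]
      out := fun i => Sum.inr i } with hC'
  refine ⟨C', ?_, ?_, ?_⟩
  · intro i
    funext j
    have h1 : form' (Sum.inr i) j = ∑ u : U, χ u * form' (Sum.inl (C.out i, u)) j := by
      rw [hf2 (Sum.inr i) (by simp [hlabel]) j, hin2]
    exact h1.trans ((key' (C.out i)).2 j)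
  · have hsub : C'.cancelGates ⊆ (Finset.univ : Finset (Fin r)).image
        (fun i => (Sum.inr i : ((C.V × U) ⊕ Fin r))) := by
      intro a ha
      simp only [LinCircuit.cancelGates, Finset.mem_filter, Finset.mem_univ, true_and] at ha
      obtain ⟨j, hz, b, hbE, hbw, hbf⟩ := ha
      rcases a with ⟨v, u⟩ | i
      · exfalso
        rcases b with ⟨w, u'⟩ | i'
        · change ((Sum.inl (w, u') : ((C.V × U) ⊕ Fin r)), (Sum.inl (v, u) : ((C.V × U) ⊕ Fin r))) ∈ E1 ∪ E2 at hbE
          have hwv : (w, v) ∈ C.E := (hmem1 w u' v u).mp hbE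
          have hl : C.label v = none := C.source w v hwv
          have hl' : label' (Sum.inl (v, u)) = none := by
            simp only [hlabel, Sum.elim_inl, hl, ite_self]
          change form' (Sum.inl (v, u)) j = 0 at hz
          change ι (pos (C.wt w v) (u - u')) ≠ 0 at hbw
          change form' (Sum.inl (w, u')) j ≠ 0 at hbf
          rw [hf2 _ hl' j, hin1] at hz
          choose x hx0 hx using fun w' : C.V => (key' w').1
          have hzz : ι (∑ w' ∈ Finset.univ.filter (fun w' => (w', v) ∈ C.E), ∑ u'' : U,
              pos (C.wt w' v) (u - u'') * x w' u'' j) = ι 0 := by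
            rw [map_zero, ← hz, map_sum]
            apply Finset.sum_congr rfl
            intro w' _
            rw [map_sum]
            apply Finset.sum_congr rfl
            intro u'' _
            rw [map_mul, ← hx w' u'' j]
          have h0 := hinj hzz
          have hnn : ∀ w' ∈ Finset.univ.filter (fun w' => (w', v) ∈ C.E), 0 ≤ ∑ u'' : U,
              pos (C.wt w' v) (u - u'') * x w' u'' j := fun w' _ =>
            Finset.sum_nonneg fun u'' _ => mul_nonneg (hpos _ _) (hx0 _ _ _)
          have h1 := (Finset.sum_eq_zero_iff_of_nonneg hnn).mp h0 w (by simp [hwv])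
          have h2 := (Finset.sum_eq_zero_iff_of_nonneg (fun u'' _ =>
            mul_nonneg (hpos (C.wt w v) (u - u'')) (hx0 w u'' j))).mp h1 u' (Finset.mem_univ _)
          rcases mul_eq_zero.mp h2 with h3 | h3
          · exact hbw (by rw [h3, map_zero])
          · exact hbf (by rw [hx w u' j, h3, map_zero])
        · exact hmem3 i' _ hbE
      · exact Finset.mem_image.mpr ⟨i, Finset.mem_univ _, rfl⟩
    calc C'.cancelGates.card ≤ _ := Finset.card_le_card hsub
      _ ≤ (Finset.univ : Finset (Fin r)).card := Finset.card_image_le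
      _ = r := by simp
  · have hV : Fintype.card ((C.V × U) ⊕ Fin r) = Fintype.card C.V * Fintype.card U + r := by
      simp
    have hEc : (E1 ∪ E2).card ≤ C.E.card * (Fintype.card U) ^ 2 + r * Fintype.card U := by
      refine (Finset.card_union_le _ _).trans ?_
      gcongr
      · refine Finset.card_image_le.trans ?_
        rw [Finset.card_product, Finset.card_univ, Fintype.card_prod, sq]
      · refine Finset.card_image_le.trans ?_
        rw [Finset.card_univ, Fintype.card_prod, Fintype.card_fin]
    have hU1 : 1 ≤ Fintype.card U := Fintype.card_pos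
    have hU2 : Fintype.card U ≤ (Fintype.card U) ^ 2 := Nat.le_self_pow (by norm_num) _
    change Fintype.card ((C.V × U) ⊕ Fin r) + (E1 ∪ E2).card ≤ _
    unfold LinCircuit.size
    rw [hV]
    calc Fintype.card C.V * Fintype.card U + r + (E1 ∪ E2).card
        ≤ Fintype.card C.V * (Fintype.card U) ^ 2 + r + (C.E.card * (Fintype.card U) ^ 2 +
          r * Fintype.card U) := by gcongr
      _ = _ := by ring

theorem simulate_real {n r : ℕ} (C : LinCircuit ℝ n r) :
    ∃ C' : LinCircuit ℝ n r, (∀ i, C'.form (C'.out i) = C.form (C.out i)) ∧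
      C'.cancelGates.card ≤ r ∧ C'.size ≤ 4 * C.size + 3 * r := by
  have two : ∀ u : ZMod 2, u = 0 ∨ u = 1 := by decide
  have h11 : (1 : ZMod 2) + 1 = 0 := by decide
  have h := simulate_gen (F := ℝ) (U := ZMod 2) (fun u => if u = 0 then 1 else -1) (by simp)
    (by
      intro u v
      rcases two u with rfl | rfl <;> rcases two v with rfl | rfl <;> simp [h11])
    (fun a u => if u = 0 then max a 0 else max (-a) 0)
    (by
      intro a u
      split_ifs
      · exact le_max_right _ _
      · exact le_max_right _ _)
    (by
      intro a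
      have : (Finset.univ : Finset (ZMod 2)) = {0, 1} := by decide
      rw [this, Finset.sum_pair (by decide)]
      simp only [if_true, one_ne_zero, if_false, Algebra.algebraMap_self, RingHom.id_apply]
      rcases le_total a 0 with h | h
      · rw [max_eq_right h, max_eq_left (by linarith)]; ring
      · rw [max_eq_left h, max_eq_right (by linarith)]; ring) C
  simpa [ZMod.card] using h

theorem simulate_complex {n r : ℕ} (C : LinCircuit ℂ n r) :
    ∃ C' : LinCircuit ℂ n r, (∀ i, C'.form (C'.out i) = C.form (C.out i)) ∧
      C'.cancelGates.card ≤ r ∧ C'.size ≤ 16 * C.size + 5 * r := by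
  have hI2 : Complex.I ^ 2 = -1 := Complex.I_sq
  have h := simulate_gen (F := ℂ) (U := ZMod 4) (fun u => Complex.I ^ (u.val)) (by simp)
    (by
      intro u v
      rw [← pow_add, ZMod.val_add, ← Complex.I_pow_eq_pow_mod (u.val + v.val)])
    (fun a u => if u = 0 then max a.re 0 else if u = 1 then max a.im 0 else
      if u = 2 then max (-a.re) 0 else max (-a.im) 0)
    (by
      intro a u
      split_ifs <;> exact le_max_right _ _)
    (by
      intro a
      have : (Finset.univ : Finset (ZMod 4)) = {0, 1, 2, 3} := by decide
      have v2 : (2 : ZMod 4).val = 2 := rfl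
      have v3 : (3 : ZMod 4).val = 3 := rfl
      have v1 : (1 : ZMod 4).val = 1 := rfl
      have v0 : (0 : ZMod 4).val = 0 := rfl
      rw [this, Finset.sum_insert (by decide), Finset.sum_insert (by decide),
        Finset.sum_pair (by decide)]
      have e10 : ¬ (1 : ZMod 4) = 0 := by decide
      have e20 : ¬ (2 : ZMod 4) = 0 := by decide
      have e21 : ¬ (2 : ZMod 4) = 1 := by decide
      have e30 : ¬ (3 : ZMod 4) = 0 := by decide
      have e31 : ¬ (3 : ZMod 4) = 1 := by decide
      have e32 : ¬ (3 : ZMod 4) = 2 := by decide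
      simp only [if_true, e10, e20, e21, e30, e31, e32, if_false, v0, v1, v2, v3, pow_zero,
        pow_one, mul_one, hI2, Complex.I_pow_three, Complex.coe_algebraMap]
      apply Complex.ext
      · simp
        rcases le_total a.re 0 with h | h
        · rw [max_eq_right h, max_eq_left (by linarith)]; ring
        · rw [max_eq_left h, max_eq_right (by linarith)]; ring
      · simp
        rcases le_total a.im 0 with h | h
        · rw [max_eq_right h, max_eq_left (by linarith)]; ring
        · rw [max_eq_left h, max_eq_right (by linarith)]; ring) C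
  simpa [ZMod.card] using h

end H633LC
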