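import Pool.Agent.H633R2.LC.Frame

/-!
# Size versus the number of cancellations
-/

namespace H633LC

open Finset

namespace LinCircuit

variable {F : Type} [Field F] {n m : ℕ} (C : LinCircuit F n m)

open Classical in
/-- the variables occurring in the form of `v` -/
noncomputable def supp (v : C.V) : Finset (Fin n) := Finset.univ.filter (fun j => C.form v j ≠ 0)

theorem mem_supp {v : C.V} {j : Fin n} : j ∈ C.supp v ↔ C.form v j ≠ 0 := by simp [supp]

theorem mem_cancelSet {v : C.V} {j : Fin n} : j ∈ C.cancelSet v ↔ C.Cancels v j := by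
  simp [cancelSet]

/-- `v` is special for the output `i` -/
def Special (d : ℕ) (i : Fin m) (v : C.V) : Prop :=
  3 * d < (C.supp v).card ∧ 2 * (C.supp v).card < 3 * (C.supp v ∩ C.supp (C.out i)).card

/-- a step between nodes, ending in a special node -/
def SStep (d : ℕ) (i : Fin m) (u v : C.V) : Prop :=
  (u, v) ∈ C.E ∧ C.wt u v ≠ 0 ∧ C.Special d i v

open Classical in
/-- the special region of the output `i` -/
noncomputable def ZZ (d : ℕ) (i : Fin m) : Finset C.V :=
  Finset.univ.filter (fun v => C.Special d i v ∧ Relation.ReflTransGen (C.SStep d i) v (C.out i))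

open Classical in
/-- the edges entering the special region -/
noncomputable def BE (d : ℕ) (i : Fin m) : Finset (C.V × C.V) :=
  C.E.filter (fun e => C.wt e.1 e.2 ≠ 0 ∧ e.2 ∈ C.ZZ d i ∧ e.1 ∉ C.ZZ d i)

variable {C} {d : ℕ} {i : Fin m}

theorem mem_ZZ {v : C.V} : v ∈ C.ZZ d i ↔
    C.Special d i v ∧ Relation.ReflTransGen (C.SStep d i) v (C.out i) := by
  simp [ZZ]

theorem mem_BE {u v : C.V} : (u, v) ∈ C.BE d i ↔
    (u, v) ∈ C.E ∧ C.wt u v ≠ 0 ∧ v ∈ C.ZZ d i ∧ u ∉ C.ZZ d i := by
  simp [BE]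

theorem label_of_special (hd : 1 ≤ d) {v : C.V} (hv : C.Special d i v) : C.label v = none := by
  rcases h : C.label v with _ | j
  · rfl
  · exfalso
    have h1 : C.supp v ⊆ {j} := by
      intro j' hj'
      rw [mem_supp, C.form_source v j h] at hj'
      rw [Finset.mem_singleton]
      by_contra hne
      exact hj' (by simp [hne])
    have h2 := Finset.card_le_card h1
    rw [Finset.card_singleton] at h2
    have := hv.1
    omega

theorem cover (hd : 1 ≤ d) (j : Fin n) : ∀ N : ℕ, ∀ v : C.V, C.rank v < N → v ∈ C.ZZ d i →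
    j ∈ C.supp v → ∃ e ∈ C.BE d i, j ∈ C.supp e.1 := by
  intro N
  induction N with
  | zero => intro v hv; omega
  | succ N ih =>
    intro v hv hvZ hj
    have hvs := (mem_ZZ.mp hvZ).1
    have hl := label_of_special hd hvs
    rw [mem_supp, C.form_gate v hl j] at hj
    obtain ⟨u, hu, hne⟩ := Finset.exists_ne_zero_of_sum_ne_zero hj
    simp only [Finset.mem_filter, Finset.mem_univ, true_and] at hu
    have hw : C.wt u v ≠ 0 := fun h => hne (by rw [h, zero_mul])
    have hfu : C.form u j ≠ 0 := fun h => hne (by rw [h, mul_zero])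
    by_cases huZ : u ∈ C.ZZ d i
    · exact ih u (by have := C.acyclic u v hu; omega) huZ ((mem_supp C).mpr hfu)
    · exact ⟨(u, v), mem_BE.mpr ⟨hu, hw, hvZ, huZ⟩, (mem_supp C).mpr hfu⟩

theorem junk {v : C.V} (hv : v ∈ C.ZZ d i) (k : Fin n) (hk : k ∉ C.supp (C.out i))
    (h : k ∈ C.supp v ∨ ∃ u, (u, v) ∈ C.E ∧ C.wt u v ≠ 0 ∧ k ∈ C.supp u) :
    ∃ w ∈ C.ZZ d i, k ∈ C.cancelSet w := by
  obtain ⟨hs, hp⟩ := mem_ZZ.mp hv
  clear hv
  induction hp using Relation.ReflTransGen.head_induction_on with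
  | refl =>
    refine ⟨C.out i, mem_ZZ.mpr ⟨hs, Relation.ReflTransGen.refl⟩, ?_⟩
    rcases h with h | ⟨u, hu, hw, hku⟩
    · exact absurd h hk
    · rw [mem_cancelSet]
      rw [mem_supp, not_not] at hk
      exact ⟨hk, u, hu, hw, (mem_supp C).mp hku⟩
  | @head a c hstep hp' ih =>
    have ha : a ∈ C.ZZ d i := mem_ZZ.mpr ⟨hs, Relation.ReflTransGen.head hstep hp'⟩
    by_cases hka : k ∈ C.supp a
    · exact ih (Or.inr ⟨a, hstep.1, hstep.2.1, hka⟩) hstep.2.2
    · rcases h with h | ⟨u, hu, hw, hku⟩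
      · exact absurd h hka
      · refine ⟨a, ha, ?_⟩
        rw [mem_cancelSet]
        rw [mem_supp, not_not] at hka
        exact ⟨hka, u, hu, hw, (mem_supp C).mp hku⟩

/-- number of cancellations in the special region -/
noncomputable def tau (C : LinCircuit F n m) (d : ℕ) (i : Fin m) : ℕ :=
  ∑ w ∈ C.ZZ d i, (C.cancelSet w).card

theorem edge_bound {e : C.V × C.V} (he : e ∈ C.BE d i) :
    (C.supp e.1 ∩ C.supp (C.out i)).card ≤ 3 * d + 2 * C.tau d i := by
  classical
  obtain ⟨u, v⟩ := e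
  obtain ⟨hE, hw, hv, hu⟩ := mem_BE.mp he
  have hns : ¬ C.Special d i u := by
    intro hs
    exact hu (mem_ZZ.mpr ⟨hs, Relation.ReflTransGen.head ⟨hE, hw, (mem_ZZ.mp hv).1⟩
      (mem_ZZ.mp hv).2⟩)
  unfold Special at hns
  rw [not_and_or, not_lt, not_lt] at hns
  have hsplit : (C.supp u).card = (C.supp u ∩ C.supp (C.out i)).card +
      (C.supp u \ C.supp (C.out i)).card := by
    rw [Finset.card_inter_add_card_sdiff]
  have hj : (C.supp u \ C.supp (C.out i)).card ≤ C.tau d i := by
    have hsub : C.supp u \ C.supp (C.out i) ⊆ (C.ZZ d i).biUnion C.cancelSet := by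
      intro k hk
      rw [Finset.mem_sdiff] at hk
      obtain ⟨w, hw1, hw2⟩ := junk hv k hk.2 (Or.inr ⟨u, hE, hw, hk.1⟩)
      exact Finset.mem_biUnion.mpr ⟨w, hw1, hw2⟩
    exact (Finset.card_le_card hsub).trans Finset.card_biUnion_le
  change (C.supp u ∩ C.supp (C.out i)).card ≤ _
  rcases hns with h | h
  · omega
  · omega

theorem out_mem_ZZ (h : 3 * d < (C.supp (C.out i)).card) : C.out i ∈ C.ZZ d i := by
  refine mem_ZZ.mpr ⟨⟨h, ?_⟩, Relation.ReflTransGen.refl⟩
  rw [Finset.inter_self]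
  omega

theorem row_bound (hd : 1 ≤ d) (h : 3 * d < (C.supp (C.out i)).card) :
    (C.supp (C.out i)).card ≤ (C.BE d i).card * (3 * d + 2 * C.tau d i) := by
  classical
  have hsub : C.supp (C.out i) ⊆ (C.BE d i).biUnion
      (fun e => C.supp e.1 ∩ C.supp (C.out i)) := by
    intro j hj
    obtain ⟨e, he, hje⟩ := cover hd j (C.rank (C.out i) + 1) (C.out i) (Nat.lt_succ_self _)
      (out_mem_ZZ h) hj
    exact Finset.mem_biUnion.mpr ⟨e, he, Finset.mem_inter.mpr ⟨hje, hj⟩⟩
  calc (C.supp (C.out i)).card ≤ _ := Finset.card_le_card hsub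
    _ ≤ ∑ e ∈ C.BE d i, (C.supp e.1 ∩ C.supp (C.out i)).card := Finset.card_biUnion_le
    _ ≤ ∑ _e ∈ C.BE d i, (3 * d + 2 * C.tau d i) := Finset.sum_le_sum fun e he => edge_bound he
    _ = _ := by rw [Finset.sum_const, smul_eq_mul]

theorem ZZ_disj {i i' : Fin m}
    (hco : (C.supp (C.out i) ∩ C.supp (C.out i')).card ≤ d) :
    Disjoint (C.ZZ d i) (C.ZZ d i') := by
  classical
  rw [Finset.disjoint_left]
  intro v hv hv'
  obtain ⟨⟨h1, h2⟩, -⟩ := mem_ZZ.mp hv
  obtain ⟨⟨-, h3⟩, -⟩ := mem_ZZ.mp hv'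
  have h4 : (C.supp v ∩ C.supp (C.out i)).card + (C.supp v ∩ C.supp (C.out i')).card ≤
      (C.supp v).card + (C.supp (C.out i) ∩ C.supp (C.out i')).card := by
    rw [← Finset.card_union_add_card_inter]
    apply Nat.add_le_add
    · apply Finset.card_le_card
      intro x hx
      rw [Finset.mem_union, Finset.mem_inter, Finset.mem_inter] at hx
      rcases hx with h | h
      · exact h.1
      · exact h.1
    · apply Finset.card_le_card
      intro x hx
      rw [Finset.mem_inter, Finset.mem_inter, Finset.mem_inter] at hx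
      exact Finset.mem_inter.mpr ⟨hx.1.2, hx.2.2⟩
  omega

/-- Cauchy-Schwarz in the form needed here -/
theorem cs {ι : Type} (I : Finset ι) (a b : ι → ℕ) (D : ℕ) (h : ∀ i ∈ I, D ≤ a i * b i) :
    I.card ^ 2 * D ≤ (∑ i ∈ I, a i) * ∑ i ∈ I, b i := by
  have h1 : (I.card : ℝ) * Real.sqrt D ≤
      Real.sqrt (∑ i ∈ I, (a i : ℝ)) * Real.sqrt (∑ i ∈ I, (b i : ℝ)) := by
    calc (I.card : ℝ) * Real.sqrt D = ∑ _i ∈ I, Real.sqrt D := by
          rw [Finset.sum_const, nsmul_eq_mul]
      _ ≤ ∑ i ∈ I, Real.sqrt (a i) * Real.sqrt (b i) := by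
          apply Finset.sum_le_sum
          intro i hi
          rw [← Real.sqrt_mul (Nat.cast_nonneg _)]
          apply Real.sqrt_le_sqrt
          exact_mod_cast h i hi
      _ ≤ _ := Real.sum_sqrt_mul_sqrt_le _ (fun _ => Nat.cast_nonneg _) (fun _ => Nat.cast_nonneg _)
  have h2 : ((I.card : ℝ) * Real.sqrt D) ^ 2 ≤
      (Real.sqrt (∑ i ∈ I, (a i : ℝ)) * Real.sqrt (∑ i ∈ I, (b i : ℝ))) ^ 2 :=
    pow_le_pow_left₀ (by positivity) h1 2
  rw [mul_pow, mul_pow, Real.sq_sqrt (Nat.cast_nonneg _),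
    Real.sq_sqrt (Finset.sum_nonneg fun _ _ => Nat.cast_nonneg _),
    Real.sq_sqrt (Finset.sum_nonneg fun _ _ => Nat.cast_nonneg _)] at h2
  exact_mod_cast h2

variable (C)

/-- total number of cancellations -/
noncomputable def cancellations : ℕ := ∑ v : C.V, (C.cancelSet v).card

open Classical in
/-- the nodes at which more than `z` variables cancel -/
noncomputable def heavyGates (z : ℕ) : Finset C.V :=
  Finset.univ.filter (fun v => z < (C.cancelSet v).card)

/-- core inequality for a set `I` of outputs -/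
theorem core (D d : ℕ) (hd : 1 ≤ d) (hD : 3 * d < D)
    (hrow : ∀ i, D ≤ (C.supp (C.out i)).card)
    (hco : ∀ i i', i ≠ i' → (C.supp (C.out i) ∩ C.supp (C.out i')).card ≤ d)
    (I : Finset (Fin m)) :
    I.card ^ 2 * D ≤ C.E.card * (3 * d * I.card + 2 * ∑ i ∈ I, C.tau d i) := by
  classical
  have h1 : ∀ i ∈ I, D ≤ (C.BE d i).card * (3 * d + 2 * C.tau d i) := fun i _ =>
    (hrow i).trans (row_bound hd (hD.trans_le (hrow i)))
  have h2 := cs I (fun i => (C.BE d i).card) (fun i => 3 * d + 2 * C.tau d i) D h1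
  refine h2.trans (Nat.mul_le_mul ?_ ?_)
  · rw [← Finset.card_biUnion]
    · apply Finset.card_le_card
      intro e he
      obtain ⟨i, -, hi⟩ := Finset.mem_biUnion.mp he
      exact (Finset.mem_filter.mp hi).1
    · intro i _ i' _ hne
      rw [Function.onFun, Finset.disjoint_left]
      rintro ⟨u, v⟩ he he'
      exact (Finset.disjoint_left.mp (ZZ_disj (hco i i' hne))) (mem_BE.mp he).2.2.1
        (mem_BE.mp he').2.2.1
  · rw [Finset.sum_add_distrib, Finset.sum_const, smul_eq_mul, Finset.mul_sum]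
    linarith [mul_comm I.card (3 * d)]

/-- **Size versus total number of cancellations.** -/
theorem size_cancellations (D d : ℕ) (hd : 1 ≤ d) (hD : 3 * d < D)
    (hrow : ∀ i, D ≤ (C.supp (C.out i)).card)
    (hco : ∀ i i', i ≠ i' → (C.supp (C.out i) ∩ C.supp (C.out i')).card ≤ d) :
    m ^ 2 * D ≤ C.E.card * (3 * d * m + 2 * C.cancellations) := by
  classical
  have h := C.core D d hd hD hrow hco Finset.univ
  rw [Finset.card_univ, Fintype.card_fin] at h
  refine h.trans (Nat.mul_le_mul_left _ (Nat.add_le_add_left (Nat.mul_le_mul_left _ ?_) _))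
  unfold tau cancellations
  rw [← Finset.sum_biUnion]
  · exact Finset.sum_le_sum_of_subset (Finset.subset_univ _)
  · intro i _ i' _ hne
    exact ZZ_disj (hco i i' hne)

/-- **Size versus the number of gates with many cancellations.** -/
theorem size_heavy (D d : ℕ) (hd : 1 ≤ d) (hD : 3 * d < D)
    (hrow : ∀ i, D ≤ (C.supp (C.out i)).card)
    (hco : ∀ i i', i ≠ i' → (C.supp (C.out i) ∩ C.supp (C.out i')).card ≤ d)
    (z r : ℕ) (hr : r + (C.heavyGates z).card ≤ m) :
    r ^ 2 * D ≤ C.E.card * (3 * d * r + 2 * (z * Fintype.card C.V)) := by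
  classical
  -- the outputs whose special region contains no heavy gate
  set I0 : Finset (Fin m) := Finset.univ.filter (fun i => Disjoint (C.ZZ d i) (C.heavyGates z))
    with hI0
  have hbad : (Finset.univ.filter (fun i : Fin m => ¬ Disjoint (C.ZZ d i) (C.heavyGates z))).card
      ≤ (C.heavyGates z).card := by
    have hex : ∀ i : Fin m, ∃ v : C.V, ¬ Disjoint (C.ZZ d i) (C.heavyGates z) →
        v ∈ C.ZZ d i ∧ v ∈ C.heavyGates z := by
      intro i
      by_cases h : Disjoint (C.ZZ d i) (C.heavyGates z)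
      · exact ⟨C.out i, fun h' => absurd h h'⟩
      · rw [Finset.not_disjoint_iff] at h
        obtain ⟨v, hv⟩ := h
        exact ⟨v, fun _ => hv⟩
    choose g hg using hex
    apply Finset.card_le_card_of_injOn g
    · intro i hi
      simp only [Finset.coe_filter, Finset.mem_univ, true_and, Set.mem_ofPred_eq] at hi
      exact (hg i hi).2
    · intro i hi i' hi' heq
      simp only [Finset.coe_filter, Finset.mem_univ, true_and, Set.mem_ofPred_eq] at hi hi'
      by_contra hne
      have h1 := (hg i hi).1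
      rw [heq] at h1
      exact (Finset.disjoint_left.mp (ZZ_disj (hco i i' hne))) h1 (hg i' hi').1
  have hgood : r ≤ I0.card := by
    have h1 := Finset.card_filter_add_card_filter_not (s := (Finset.univ : Finset (Fin m)))
      (fun i => Disjoint (C.ZZ d i) (C.heavyGates z))
    rw [Finset.card_univ, Fintype.card_fin] at h1
    change I0.card + _ = m at h1
    omega
  obtain ⟨I, hI, hIr⟩ := Finset.exists_subset_card_eq hgood
  have h := C.core D d hd hD hrow hco I
  rw [hIr] at h
  refine h.trans (Nat.mul_le_mul_left _ (Nat.add_le_add_left (Nat.mul_le_mul_left _ ?_) _))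
  calc ∑ i ∈ I, C.tau d i ≤ ∑ i ∈ I, z * (C.ZZ d i).card := by
        apply Finset.sum_le_sum
        intro i hi
        have hdis := (Finset.mem_filter.mp (hI hi)).2
        unfold tau
        calc ∑ w ∈ C.ZZ d i, (C.cancelSet w).card ≤ ∑ _w ∈ C.ZZ d i, z := by
              apply Finset.sum_le_sum
              intro w hw
              by_contra hlt
              rw [not_le] at hlt
              exact (Finset.disjoint_left.mp hdis) hw (by simp [heavyGates, hlt])
          _ = z * (C.ZZ d i).card := by rw [Finset.sum_const, smul_eq_mul, mul_comm]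
    _ = z * ∑ i ∈ I, (C.ZZ d i).card := by rw [Finset.mul_sum]
    _ ≤ z * Fintype.card C.V := by
        apply Nat.mul_le_mul_left
        rw [← Finset.card_biUnion]
        · exact Finset.card_le_univ _
        · intro i _ i' _ hne
          exact ZZ_disj (hco i i' hne)

end LinCircuit

end H633LC
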