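import Pool.Agent.H633R2.LC.CNorm
import Pool.Agent.H633R2.LC.Realify
import Pool.Agent.H633R2.LC.Heavy

/-!
# The threshold theorem for cancelling gates
-/

namespace H633LC

open Finset

theorem circ_fft (n : ℕ) (hn : 1 ≤ n) (W : Finset ℕ) : ∃ C : LinCircuit ℂ n n,
    C.Computes (circ01 ℂ n W) ∧ C.size ≤ n * (130 + 36 * Nat.log 2 n) := by
  classical
  obtain ⟨C0, hC0, hs0⟩ := toeplitz_circuit n hn
    (fun e => if ∃ w ∈ W, e ≡ (w : ℤ) [ZMOD n] then 1 else 0)
  refine ⟨C0, ?_, hs0⟩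
  intro x y
  rw [hC0 x y]
  unfold circ01
  have : (∃ w ∈ W, ((y : ℕ) : ℤ) - ((x : ℕ) : ℤ) ≡ (w : ℤ) [ZMOD n]) ↔
      (∃ w ∈ W, (y : ℕ) ≡ x + w [MOD n]) := by
    constructor
    · rintro ⟨w, hw, h⟩
      refine ⟨w, hw, ?_⟩
      rw [← Int.natCast_modEq_iff]
      have h2 := h.add_left ((x : ℕ) : ℤ)
      push_cast
      convert h2 using 1
      ring
    · rintro ⟨w, hw, h⟩
      refine ⟨w, hw, ?_⟩
      rw [← Int.natCast_modEq_iff] at h
      have h2 := h.sub_right ((x : ℕ) : ℤ)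
      push_cast at h2
      convert h2 using 1
      ring
  simp only [this]

theorem circ_fft_real (n : ℕ) (hn : 1 ≤ n) (W : Finset ℕ) : ∃ C : LinCircuit ℝ n n,
    C.Computes (circ01 ℝ n W) ∧ C.size ≤ n * (520 + 144 * Nat.log 2 n) := by
  classical
  obtain ⟨C0, hC0, hs0⟩ := circ_fft n hn W
  obtain ⟨C1, hC1, hs1⟩ := realify C0
  refine ⟨C1, ?_, ?_⟩
  · intro x y
    rw [hC1, hC0 x y]
    unfold circ01
    split_ifs <;> simp
  · refine hs1.trans ?_
    calc 4 * C0.size ≤ 4 * (n * (130 + 36 * Nat.log 2 n)) := by gcongr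
      _ = _ := by ring

theorem circ01_col {F : Type} [Field F] {n : ℕ} {W : Finset ℕ} (hW : ∀ w ∈ W, w < n)
    (hne : W.Nonempty) (y : Fin n) : ∃ x, circ01 F n W x y ≠ 0 := by
  obtain ⟨w, hw⟩ := hne
  have h1 := hW w hw
  have hn0 : 0 < n := y.pos
  refine ⟨⟨(y + (n - w)) % n, Nat.mod_lt _ hn0⟩, ?_⟩
  rw [circ01_ne]
  refine ⟨w, hw, ?_⟩
  change (y : ℕ) ≡ (y + (n - w)) % n + w [MOD n]
  have h2 : (y + (n - w)) % n + w ≡ (y + (n - w)) + w [MOD n] :=
    (Nat.mod_modEq _ _).add_right w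
  have h3 : (y : ℕ) + (n - w) + w = y + n := by omega
  rw [h3] at h2
  have h4 : (y : ℕ) + n ≡ y [MOD n] := by
    unfold Nat.ModEq; simp
  exact (h2.trans h4).symm

open Classical in
theorem circ01_upper {n : ℕ} (W : Finset ℕ) (hW : ∀ w ∈ W, w < n) (hne : W.Nonempty) :
    (∀ C0 : LinCircuit ℝ n n, C0.Computes (circ01 ℝ n W) → ∀ t ≤ n, ∃ C : LinCircuit ℝ n n,
      C.Computes (circ01 ℝ n W) ∧ C.cancelGates.card ≤ t ∧
      C.size ≤ 9 * C0.size + (n - t) * W.card) ∧
    (∀ C0 : LinCircuit ℂ n n, C0.Computes (circ01 ℂ n W) → ∀ t ≤ n, ∃ C : LinCircuit ℂ n n,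
      C.Computes (circ01 ℂ n W) ∧ C.cancelGates.card ≤ t ∧
      C.size ≤ 23 * C0.size + (n - t) * W.card) := by
  have hrow : ∀ (F : Type) [Field F] (x : Fin n),
      (Finset.univ.filter (fun y => circ01 F n W x y ≠ 0)).card ≤ W.card := by
    intro F _ x
    apply le_of_eq
    apply circ01_row (F := F) hW _ x
    intro y
    simp
  constructor
  · intro C0 hC0 t ht
    obtain ⟨C, h1, h2, h3⟩ := few_cancel (F := ℝ) 4 3 (fun r C => simulate_real C)
      (circ01 ℝ n W) W.card (hrow ℝ) C0 hC0 t ht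
    refine ⟨C, h1, h2, h3.trans ?_⟩
    have := n_le_size C0 _ hC0 (circ01_col hW hne)
    omega
  · intro C0 hC0 t ht
    obtain ⟨C, h1, h2, h3⟩ := few_cancel (F := ℂ) 16 5 (fun r C => simulate_complex C)
      (circ01 ℂ n W) W.card (hrow ℂ) C0 hC0 t ht
    refine ⟨C, h1, h2, h3.trans ?_⟩
    have := n_le_size C0 _ hC0 (circ01_col hW hne)
    omega

/-- **Threshold theorem**, all parts. -/
theorem threshold (ε : ℝ) (hε : 0 < ε) : ∃ (k : ℕ) (c : ℝ), 2 ≤ k ∧ 0 < c ∧ ∃ n0 : ℕ,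
    ∀ n : ℕ, n0 ≤ n →
    (∃ (p : ℕ) (_ : Fact p.Prime) (E : Type) (_ : Field E) (_ : Algebra (ZMod p) E),
      (2 * p) ^ k ≤ n ∧ n < (4 * p) ^ k ∧ Nonempty (Module.Basis (Fin k) (ZMod p) E)) ∧
    ∀ (p : ℕ) (_ : Fact p.Prime), (2 * p) ^ k ≤ n → n < (4 * p) ^ k →
    ∀ (E : Type) [Field E] [Algebra (ZMod p) E] (β : Module.Basis (Fin k) (ZMod p) E),
      (∀ w ∈ normShifts β, w < n) ∧
      (n : ℝ) ^ (1 - ε) ≤ (normShifts β).card ∧
      (∀ (F : Type) [Field F] (C : LinCircuit F n n),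
        C.Computes (circ01 F n (normShifts β)) → ∀ H : Finset C.V, H.card ≤ n →
        c * ((n : ℝ) - H.card) ^ 2 * (normShifts β).card ≤
          C.E.card * (((n : ℝ) - H.card) + ∑ v ∈ Finset.univ \ H, ((C.cancelSet v).card : ℝ))) ∧
      (∀ (F : Type) [Field F] (C : LinCircuit F n n),
        C.Computes (circ01 F n (normShifts β)) →
        c * ((n : ℝ) - C.cancelGates.card) * (normShifts β).card ≤ C.size) := by
  classical
  obtain ⟨k0, hk0⟩ := exists_nat_gt (2 / ε)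
  set k : ℕ := k0 + 2 with hk
  have hk2 : 2 ≤ k := by omega
  have hkR : 2 / ε < k := by
    rw [hk]; push_cast; linarith
  obtain ⟨Q, p0, hQ, hmain⟩ := cnorm_master k hk2
  have hk1 : 1 ≤ k := by omega
  obtain ⟨n1, hn1⟩ := ev (ε / 2) (4 ^ (k - 1)) (by positivity)
  have hQR : (0 : ℝ) < Q := by exact_mod_cast hQ
  refine ⟨k, 1 / Q, hk2, by positivity, max n1 (max ((4 * p0) ^ k) (4 ^ k)), ?_⟩
  intro n hn
  have hnn1 : n1 ≤ n := le_trans (le_max_left _ _) hn
  have hnn2 : (4 * p0) ^ k ≤ n := le_trans (le_trans (le_max_left _ _) (le_max_right _ _)) hn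
  have hnn3 : 4 ^ k ≤ n := le_trans (le_trans (le_max_right _ _) (le_max_right _ _)) hn
  constructor
  · have hk' : k - 1 + 1 = k := by omega
    obtain ⟨p, hp, hp1, hp2⟩ := circ_exists (k - 1) n (by rw [hk']; exact hnn3)
    rw [hk'] at hp1 hp2
    have hpf : Fact p.Prime := ⟨hp⟩
    refine ⟨p, hpf, GaloisField p k, inferInstance, inferInstance, hp1, hp2, ?_⟩
    have hfr : Module.finrank (ZMod p) (GaloisField p k) = k := GaloisField.finrank p (by omega)
    exact ⟨(Module.finBasis (ZMod p) (GaloisField p k)).reindex (finCongr hfr)⟩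
  intro p hpf hp1 hp2 E _ _ β
  have hpp := hpf.out.pos
  have hp0 : p0 ≤ p := by
    by_contra hlt
    rw [not_le] at hlt
    have : (4 * p) ^ k ≤ (4 * p0) ^ k := Nat.pow_le_pow_left (by omega) k
    omega
  obtain ⟨hm1, hm2, hm3⟩ := hmain p n hpf hp0 hp1 E β
  have hn1' : 1 ≤ n := le_trans (Nat.one_le_pow _ _ (by norm_num)) hnn3
  set X : ℝ := (n : ℝ) with hX
  have hX1 : 1 ≤ X := by rw [hX]; exact_mod_cast hn1'
  have hX0 : 0 < X := by linarith
  set D : ℕ := (normShifts β).card with hD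
  have hgen : ∀ (F : Type) [Field F] (C : LinCircuit F n n),
        C.Computes (circ01 F n (normShifts β)) → ∀ H : Finset C.V, H.card ≤ n →
        1 / (Q : ℝ) * (X - H.card) ^ 2 * D ≤
          C.E.card * ((X - H.card) + ∑ v ∈ Finset.univ \ H, ((C.cancelSet v).card : ℝ)) := by
    intro F _ C hC H hH
    obtain ⟨r, hr⟩ := Nat.exists_eq_add_of_le hH
    have h1 := hm3 F C hC H r (by omega)
    have h2 : (r : ℝ) ^ 2 * D ≤ Q * C.E.card * (r + ∑ v ∈ Finset.univ \ H,
        ((C.cancelSet v).card : ℝ)) := by exact_mod_cast h1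
    have h3 : X - H.card = r := by
      have : (n : ℝ) = H.card + r := by exact_mod_cast hr
      rw [hX]; linarith
    rw [h3]
    have h4 : 1 / (Q : ℝ) * (r : ℝ) ^ 2 * D = ((r : ℝ) ^ 2 * D) / Q := by ring
    rw [h4, div_le_iff₀ hQR]
    linarith
  refine ⟨fun w hw => by have := hm1 w hw; omega, ?_, hgen, ?_⟩
  · -- the number of ones
    have h1 : X ≤ (4 * (p : ℝ)) ^ k := by
      rw [hX]; exact_mod_cast hp2.le
    have hkpos : (0 : ℝ) < k := by exact_mod_cast hk1
    have h2 : X ^ (1 / (k : ℝ)) ≤ 4 * p := by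
      calc X ^ (1 / (k : ℝ)) ≤ ((4 * (p : ℝ)) ^ k) ^ (1 / (k : ℝ)) :=
            Real.rpow_le_rpow hX0.le h1 (by positivity)
        _ = 4 * p := by
            rw [one_div, Real.pow_rpow_inv_natCast (by positivity) (by omega)]
    have h3 : (X ^ (1 / (k : ℝ))) ^ (k - 1) ≤ (4 * (p : ℝ)) ^ (k - 1) :=
      pow_le_pow_left₀ (by positivity) h2 _
    have h4 : (4 * (p : ℝ)) ^ (k - 1) ≤ 4 ^ (k - 1) * D := by
      rw [mul_pow]
      gcongr
      exact_mod_cast hm2
    have h5 : X ^ (1 - ε / 2) ≤ (X ^ (1 / (k : ℝ))) ^ (k - 1) := by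
      rw [← Real.rpow_natCast, ← Real.rpow_mul hX0.le]
      apply Real.rpow_le_rpow_of_exponent_le hX1
      push_cast [hk1]
      have h6 : 2 < ε * k := by rwa [div_lt_iff₀ hε, mul_comm] at hkR
      rw [one_div, inv_mul_eq_div, le_div_iff₀ hkpos]
      nlinarith
    have h7 : (4 : ℝ) ^ (k - 1) ≤ X ^ (ε / 2) := hn1 n hnn1
    have h8 : X ^ (ε / 2) * X ^ (1 - ε) = X ^ (1 - ε / 2) := by
      rw [← Real.rpow_add hX0]; congr 1; ring
    have h9 : (4 : ℝ) ^ (k - 1) * X ^ (1 - ε) ≤ 4 ^ (k - 1) * D := by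
      calc (4 : ℝ) ^ (k - 1) * X ^ (1 - ε) ≤ X ^ (ε / 2) * X ^ (1 - ε) := by gcongr
        _ = X ^ (1 - ε / 2) := h8
        _ ≤ _ := h5.trans (h3.trans h4)
    exact le_of_mul_le_mul_left h9 (by positivity)
  · intro F _ C hC
    by_cases hH : C.cancelGates.card ≤ n
    · have h1 := hgen F C hC C.cancelGates hH
      have h2 : ∑ v ∈ Finset.univ \ C.cancelGates, ((C.cancelSet v).card : ℝ) = 0 := by
        apply Finset.sum_eq_zero
        intro v hv
        rw [Finset.mem_sdiff] at hv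
        have : C.cancelSet v = ∅ := by
          rw [Finset.eq_empty_iff_forall_notMem]
          intro j hj
          apply hv.2
          rw [LinCircuit.mem_cancelSet] at hj
          simp only [LinCircuit.cancelGates, Finset.mem_filter, Finset.mem_univ, true_and]
          exact ⟨j, hj⟩
        rw [this]; simp
      rw [h2, add_zero] at h1
      set y : ℝ := X - C.cancelGates.card with hy
      have hy0 : 0 ≤ y := by
        rw [hy, hX]
        have : (C.cancelGates.card : ℝ) ≤ n := by exact_mod_cast hH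
        linarith
      have hE : (C.E.card : ℝ) ≤ C.size := by
        unfold LinCircuit.size; push_cast; linarith [Nat.cast_nonneg (α := ℝ) (Fintype.card C.V)]
      rcases eq_or_lt_of_le hy0 with h0 | h0
      · rw [← h0, mul_zero, zero_mul]
        positivity
      · have h3 : y * (1 / (Q : ℝ) * y * D) ≤ y * C.E.card := by
          calc y * (1 / (Q : ℝ) * y * D) = 1 / (Q : ℝ) * y ^ 2 * D := by ring
            _ ≤ _ := h1
            _ = y * C.E.card := by ring
        exact (le_of_mul_le_mul_left h3 h0).trans hE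
    · have h1 : X - C.cancelGates.card ≤ 0 := by
        rw [not_le] at hH
        have : (n : ℝ) ≤ C.cancelGates.card := by exact_mod_cast hH.le
        rw [hX]; linarith
      have h2 : 1 / (Q : ℝ) * (X - C.cancelGates.card) * D ≤ 0 := by
        have h3 : 0 ≤ 1 / (Q : ℝ) * D := by positivity
        nlinarith
      exact h2.trans (by positivity)

end H633LC
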