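import Pool.Agent.H633R2.LC.Tau

/-!
# The master inequality: size versus cancellations outside an arbitrary set of nodes
-/

namespace H633LC

open Finset

namespace LinCircuit

variable {F : Type} [Field F] {n m : ℕ} (C : LinCircuit F n m)

/-- `v` is special for the output `i` -/
def Sp (κ l : ℕ) (i : Fin m) (v : C.V) : Prop :=
  2 * l < (C.supp v).card ∧
    2 * (κ + 1) * (C.supp v \ C.supp (C.out i)).card < (C.supp v).card

/-- a step between nodes, ending in a special node outside `H` -/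
def HStep (κ l : ℕ) (H : Finset C.V) (i : Fin m) (u v : C.V) : Prop :=
  (u, v) ∈ C.E ∧ C.wt u v ≠ 0 ∧ C.Sp κ l i v ∧ v ∉ H

open Classical in
/-- the region of the output `i` -/
noncomputable def HZ (κ l : ℕ) (H : Finset C.V) (i : Fin m) : Finset C.V :=
  Finset.univ.filter (fun v => C.Sp κ l i v ∧ v ∉ H ∧
    Relation.ReflTransGen (C.HStep κ l H i) v (C.out i))

open Classical in
/-- the edges entering the region -/
noncomputable def HB (κ l : ℕ) (H : Finset C.V) (i : Fin m) : Finset (C.V × C.V) :=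
  C.E.filter (fun e => C.wt e.1 e.2 ≠ 0 ∧ e.2 ∈ C.HZ κ l H i ∧ e.1 ∉ C.HZ κ l H i)

open Classical in
/-- the edges entering the region from a node which is not special -/
noncomputable def HN (κ l : ℕ) (H : Finset C.V) (i : Fin m) : Finset (C.V × C.V) :=
  (C.HB κ l H i).filter (fun e => ¬ C.Sp κ l i e.1)

open Classical in
/-- the special nodes of `H` feeding the region -/
noncomputable def HT (κ l : ℕ) (H : Finset C.V) (i : Fin m) : Finset C.V :=
  H.filter (fun u => C.Sp κ l i u ∧ (u = C.out i ∨ ∃ v, (u, v) ∈ C.HB κ l H i))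

/-- number of cancellations in the region -/
noncomputable def htau (κ l : ℕ) (H : Finset C.V) (i : Fin m) : ℕ :=
  ∑ w ∈ C.HZ κ l H i, (C.cancelSet w).card

variable {C} {κ l : ℕ} {H : Finset C.V} {i : Fin m}

theorem mem_HZ {v : C.V} : v ∈ C.HZ κ l H i ↔ C.Sp κ l i v ∧ v ∉ H ∧
    Relation.ReflTransGen (C.HStep κ l H i) v (C.out i) := by
  simp [HZ]

theorem mem_HB {u v : C.V} : (u, v) ∈ C.HB κ l H i ↔
    (u, v) ∈ C.E ∧ C.wt u v ≠ 0 ∧ v ∈ C.HZ κ l H i ∧ u ∉ C.HZ κ l H i := by
  simp [HB]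

theorem mem_HT {u : C.V} : u ∈ C.HT κ l H i ↔
    u ∈ H ∧ C.Sp κ l i u ∧ (u = C.out i ∨ ∃ v, (u, v) ∈ C.HB κ l H i) := by
  simp [HT]

theorem label_of_Sp (hl : 1 ≤ l) {v : C.V} (hv : C.Sp κ l i v) : C.label v = none := by
  rcases h : C.label v with _ | j
  · rfl
  · exfalso
    have h1 : C.supp v ⊆ {j} := by
      intro j' hj'
      rw [mem_supp, C.form_source v j h] at hj'
      rw [Finset.mem_singleton]
      by_contra hne
      exact hj' (by simp [hne])
    have h2 := Finset.card_le_card h1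
    rw [Finset.card_singleton] at h2
    have := hv.1
    omega

theorem hcover (hl : 1 ≤ l) (j : Fin n) : ∀ N : ℕ, ∀ v : C.V, C.rank v < N →
    v ∈ C.HZ κ l H i → j ∈ C.supp v → ∃ e ∈ C.HB κ l H i, j ∈ C.supp e.1 := by
  intro N
  induction N with
  | zero => intro v hv; omega
  | succ N ih =>
    intro v hv hvZ hj
    have hlab := label_of_Sp hl (mem_HZ.mp hvZ).1
    rw [mem_supp, C.form_gate v hlab j] at hj
    obtain ⟨u, hu, hne⟩ := Finset.exists_ne_zero_of_sum_ne_zero hj
    simp only [Finset.mem_filter, Finset.mem_univ, true_and] at hu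
    have hw : C.wt u v ≠ 0 := fun h => hne (by rw [h, zero_mul])
    have hfu : C.form u j ≠ 0 := fun h => hne (by rw [h, mul_zero])
    by_cases huZ : u ∈ C.HZ κ l H i
    · exact ih u (by have := C.acyclic u v hu; omega) huZ ((mem_supp C).mpr hfu)
    · exact ⟨(u, v), mem_HB.mpr ⟨hu, hw, hvZ, huZ⟩, (mem_supp C).mpr hfu⟩

theorem hjunk {v : C.V} (hv : v ∈ C.HZ κ l H i) (k : Fin n) (hk : k ∉ C.supp (C.out i))
    (h : k ∈ C.supp v ∨ ∃ u, (u, v) ∈ C.E ∧ C.wt u v ≠ 0 ∧ k ∈ C.supp u) :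
    ∃ w ∈ C.HZ κ l H i, k ∈ C.cancelSet w := by
  obtain ⟨hs, hH, hp⟩ := mem_HZ.mp hv
  clear hv
  induction hp using Relation.ReflTransGen.head_induction_on with
  | refl =>
    refine ⟨C.out i, mem_HZ.mpr ⟨hs, hH, Relation.ReflTransGen.refl⟩, ?_⟩
    rcases h with h | ⟨u, hu, hw, hku⟩
    · exact absurd h hk
    · rw [mem_cancelSet]
      rw [mem_supp, not_not] at hk
      exact ⟨hk, u, hu, hw, (mem_supp C).mp hku⟩
  | @head a b hstep hp' ih =>
    have ha : a ∈ C.HZ κ l H i := mem_HZ.mpr ⟨hs, hH, Relation.ReflTransGen.head hstep hp'⟩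
    by_cases hka : k ∈ C.supp a
    · exact ih (Or.inr ⟨a, hstep.1, hstep.2.1, hka⟩) hstep.2.2.1 hstep.2.2.2
    · rcases h with h | ⟨u, hu, hw, hku⟩
      · exact absurd h hka
      · refine ⟨a, ha, ?_⟩
        rw [mem_cancelSet]
        rw [mem_supp, not_not] at hka
        exact ⟨hka, u, hu, hw, (mem_supp C).mp hku⟩

theorem hedge {e : C.V × C.V} (he : e ∈ C.HN κ l H i) :
    (C.supp e.1).card ≤ 2 * l + 2 * (κ + 1) * C.htau κ l H i := by
  classical
  obtain ⟨u, v⟩ := e
  obtain ⟨he1, hns⟩ := Finset.mem_filter.mp he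
  obtain ⟨hE, hw, hv, hu⟩ := mem_HB.mp he1
  unfold Sp at hns
  rw [not_and_or, not_lt, not_lt] at hns
  have hj : (C.supp u \ C.supp (C.out i)).card ≤ C.htau κ l H i := by
    have hsub : C.supp u \ C.supp (C.out i) ⊆ (C.HZ κ l H i).biUnion C.cancelSet := by
      intro k hk
      rw [Finset.mem_sdiff] at hk
      obtain ⟨w, hw1, hw2⟩ := hjunk hv k hk.2 (Or.inr ⟨u, hE, hw, hk.1⟩)
      exact Finset.mem_biUnion.mpr ⟨w, hw1, hw2⟩
    exact (Finset.card_le_card hsub).trans Finset.card_biUnion_le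
  rcases hns with h | h
  · exact h.trans (Nat.le_add_right _ _)
  · calc (C.supp u).card ≤ 2 * (κ + 1) * (C.supp u \ C.supp (C.out i)).card := h
      _ ≤ 2 * (κ + 1) * C.htau κ l H i := Nat.mul_le_mul_left _ hj
      _ ≤ _ := Nat.le_add_left _ _

theorem hrow_bound (hl : 1 ≤ l) (hout : C.out i ∉ H) (hs : 2 * l < (C.supp (C.out i)).card) :
    (C.supp (C.out i)).card ≤ (C.HN κ l H i).card * (2 * l + 2 * (κ + 1) * C.htau κ l H i) +
      ∑ u ∈ C.HT κ l H i, (C.supp u).card := by
  classical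
  have hoZ : C.out i ∈ C.HZ κ l H i := by
    refine mem_HZ.mpr ⟨⟨hs, ?_⟩, hout, Relation.ReflTransGen.refl⟩
    rw [Finset.sdiff_self, Finset.card_empty, mul_zero]
    omega
  have hsub : C.supp (C.out i) ⊆ (C.HN κ l H i).biUnion (fun e => C.supp e.1) ∪
      (C.HT κ l H i).biUnion C.supp := by
    intro j hj
    obtain ⟨⟨u, v⟩, he, hje⟩ := hcover hl j (C.rank (C.out i) + 1) (C.out i) (Nat.lt_succ_self _)
      hoZ hj
    rw [Finset.mem_union]
    by_cases hsp : C.Sp κ l i u
    · right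
      obtain ⟨hE, hw, hv, hu⟩ := mem_HB.mp he
      have huH : u ∈ H := by
        by_contra huH
        apply hu
        obtain ⟨h1, h2, h3⟩ := mem_HZ.mp hv
        exact mem_HZ.mpr ⟨hsp, huH, Relation.ReflTransGen.head ⟨hE, hw, h1, h2⟩ h3⟩
      exact Finset.mem_biUnion.mpr ⟨u, mem_HT.mpr ⟨huH, hsp, Or.inr ⟨v, he⟩⟩, hje⟩
    · left
      exact Finset.mem_biUnion.mpr ⟨(u, v), Finset.mem_filter.mpr ⟨he, hsp⟩, hje⟩
  calc (C.supp (C.out i)).card ≤ _ := Finset.card_le_card hsub
    _ ≤ _ := Finset.card_union_le _ _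
    _ ≤ ∑ e ∈ C.HN κ l H i, (C.supp e.1).card + ∑ u ∈ C.HT κ l H i, (C.supp u).card :=
        Nat.add_le_add Finset.card_biUnion_le Finset.card_biUnion_le
    _ ≤ ∑ _e ∈ C.HN κ l H i, (2 * l + 2 * (κ + 1) * C.htau κ l H i) +
        ∑ u ∈ C.HT κ l H i, (C.supp u).card := by
        gcongr with e he
        exact hedge he
    _ = _ := by rw [Finset.sum_const, smul_eq_mul]

open Classical in
/-- a node is special for at most `κ` outputs -/
theorem mult_le (hfree : ∀ (R : Finset (Fin m)) (S : Finset (Fin n)),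
      (∀ i ∈ R, ∀ j ∈ S, C.form (C.out i) j ≠ 0) → R.card ≤ κ ∨ S.card ≤ l) (v : C.V) :
    (Finset.univ.filter (fun i : Fin m => C.Sp κ l i v)).card ≤ κ := by
  by_contra hcon
  rw [not_le] at hcon
  obtain ⟨I, hI, hIc⟩ := Finset.exists_subset_card_eq (Nat.succ_le_of_lt hcon)
  have hSp : ∀ i ∈ I, C.Sp κ l i v := fun i hi => (Finset.mem_filter.mp (hI hi)).2
  set S : Finset (Fin n) := (C.supp v).filter (fun j => ∀ i ∈ I, C.form (C.out i) j ≠ 0) with hS
  have hSl : S.card ≤ l := by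
    rcases hfree I S (fun i hi j hj => (Finset.mem_filter.mp hj).2 i hi) with h | h
    · omega
    · exact h
  have hsub : C.supp v ⊆ S ∪ I.biUnion (fun i => C.supp v \ C.supp (C.out i)) := by
    intro j hj
    rw [Finset.mem_union, Finset.mem_biUnion]
    by_cases h : ∀ i ∈ I, C.form (C.out i) j ≠ 0
    · left; exact Finset.mem_filter.mpr ⟨hj, h⟩
    · right
      push Not at h
      obtain ⟨i, hi, h0⟩ := h
      refine ⟨i, hi, Finset.mem_sdiff.mpr ⟨hj, ?_⟩⟩
      rw [mem_supp, not_not]; exact h0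
  have h1 : (C.supp v).card ≤ l + ∑ i ∈ I, (C.supp v \ C.supp (C.out i)).card :=
    (Finset.card_le_card hsub).trans ((Finset.card_union_le _ _).trans
      (Nat.add_le_add hSl Finset.card_biUnion_le))
  have h2 : 2 * (κ + 1) * ∑ i ∈ I, (C.supp v \ C.supp (C.out i)).card ≤
      (κ + 1) * (C.supp v).card := by
    rw [Finset.mul_sum]
    calc _ ≤ ∑ _i ∈ I, (C.supp v).card := Finset.sum_le_sum fun i hi => (hSp i hi).2.le
      _ = (κ + 1) * (C.supp v).card := by rw [Finset.sum_const, smul_eq_mul, hIc]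
  obtain ⟨i0, hi0⟩ : I.Nonempty := by
    rw [← Finset.card_pos]; omega
  have h3 := (hSp i0 hi0).1
  have h4 : (κ + 1) * (C.supp v).card ≤ (κ + 1) * (2 * l) := by
    have := Nat.mul_le_mul_left (2 * (κ + 1)) h1
    rw [mul_add] at this
    nlinarith
  have h5 := Nat.le_of_mul_le_mul_left h4 (by omega)
  omega

theorem shared_small (hκ : 1 ≤ κ) {d : ℕ} {i i' : Fin m}
    (hco : (C.supp (C.out i) ∩ C.supp (C.out i')).card ≤ d) {v : C.V} (h : C.Sp κ l i v)
    (h' : C.Sp κ l i' v) : (C.supp v).card ≤ 2 * d := by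
  classical
  have hsub : C.supp v ⊆ (C.supp v \ C.supp (C.out i)) ∪ ((C.supp v \ C.supp (C.out i')) ∪
      (C.supp (C.out i) ∩ C.supp (C.out i'))) := by
    intro j hj
    simp only [Finset.mem_union, Finset.mem_sdiff, Finset.mem_inter]
    tauto
  have h1 := (Finset.card_le_card hsub).trans ((Finset.card_union_le _ _).trans
    (Nat.add_le_add_left (Finset.card_union_le _ _) _))
  have h2 : 4 * (C.supp v \ C.supp (C.out i)).card ≤
      2 * (κ + 1) * (C.supp v \ C.supp (C.out i)).card := Nat.mul_le_mul_right _ (by omega)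
  have h3 : 4 * (C.supp v \ C.supp (C.out i')).card ≤
      2 * (κ + 1) * (C.supp v \ C.supp (C.out i')).card := Nat.mul_le_mul_right _ (by omega)
  have h4 := h.2
  have h5 := h'.2
  omega

variable (C)

open Classical in
/-- the outputs served by `H` -/
noncomputable def HG (κ l D : ℕ) (H : Finset C.V) : Finset (Fin m) :=
  Finset.univ.filter (fun i => C.out i ∈ H ∨ D ≤ 2 * ∑ u ∈ C.HT κ l H i, (C.supp u).card)

/-- at most `|H|` outputs are served by `H` -/
theorem served_le (κ l d D : ℕ) (hκ : 1 ≤ κ) (hD1 : 2 * l < D) (hD2 : 4 * κ * d ≤ D)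
    (hrow : ∀ i, D ≤ (C.supp (C.out i)).card)
    (hfree : ∀ (R : Finset (Fin m)) (S : Finset (Fin n)),
      (∀ i ∈ R, ∀ j ∈ S, C.form (C.out i) j ≠ 0) → R.card ≤ κ ∨ S.card ≤ l)
    (hco : ∀ i i', i ≠ i' → (C.supp (C.out i) ∩ C.supp (C.out i')).card ≤ d)
    (H : Finset C.V) : (C.HG κ l D H).card ≤ H.card := by
  classical
  set mu : C.V → ℕ := fun u => (Finset.univ.filter (fun i : Fin m => u ∈ C.HT κ l H i)).card
    with hmu
  have hmuκ : ∀ u, mu u ≤ κ := by
    intro u
    refine (Finset.card_le_card ?_).trans (mult_le hfree u)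
    intro i hi
    rw [Finset.mem_filter] at hi ⊢
    exact ⟨hi.1, (mem_HT.mp hi.2).2.1⟩
  have hmu1 : ∀ i, ∀ u ∈ C.HT κ l H i, 1 ≤ mu u := by
    intro i u hu
    exact Finset.card_pos.mpr ⟨i, Finset.mem_filter.mpr ⟨Finset.mem_univ _, hu⟩⟩
  have hshare : ∀ i, ∀ u ∈ C.HT κ l H i, 2 * d < (C.supp u).card → mu u = 1 := by
    intro i u hu hlt
    refine le_antisymm ?_ (hmu1 i u hu)
    rw [Finset.card_le_one]
    intro a ha b hb
    by_contra hne
    rw [Finset.mem_filter] at ha hb
    have := shared_small hκ (hco a b hne) (mem_HT.mp ha.2).2.1 (mem_HT.mp hb.2).2.1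
    omega
  -- the weight of an output served by `H` is at least one
  have hw : ∀ i ∈ C.HG κ l D H, (1 : ℚ) ≤ ∑ u ∈ C.HT κ l H i, (1 : ℚ) / mu u := by
    intro i hi
    have hone : ∀ u ∈ C.HT κ l H i, mu u = 1 →
        (1 : ℚ) ≤ ∑ u ∈ C.HT κ l H i, (1 : ℚ) / mu u := by
      intro u hu h1
      calc (1 : ℚ) = 1 / mu u := by rw [h1]; norm_num
        _ ≤ _ := Finset.single_le_sum (f := fun u => (1 : ℚ) / mu u)
            (fun _ _ => by positivity) hu
    rw [HG, Finset.mem_filter] at hi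
    rcases hi.2 with h | h
    · have hsup := hrow i
      have hT : C.out i ∈ C.HT κ l H i := by
        refine mem_HT.mpr ⟨h, ⟨by omega, ?_⟩, Or.inl rfl⟩
        rw [Finset.sdiff_self, Finset.card_empty, mul_zero]
        omega
      refine hone _ hT (hshare i _ hT ?_)
      have : 4 * d ≤ 4 * κ * d := by
        calc 4 * d = 4 * 1 * d := by ring
          _ ≤ 4 * κ * d := by gcongr
      omega
    · by_cases hex : ∃ u ∈ C.HT κ l H i, mu u = 1
      · obtain ⟨u, hu, h1⟩ := hex
        exact hone u hu h1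
      · push Not at hex
        have hsm : ∀ u ∈ C.HT κ l H i, (C.supp u).card ≤ 2 * d := by
          intro u hu
          by_contra hlt
          exact hex u hu (hshare i u hu (not_le.mp hlt))
        have h2 : D ≤ 4 * d * (C.HT κ l H i).card := by
          calc D ≤ 2 * ∑ u ∈ C.HT κ l H i, (C.supp u).card := h
            _ ≤ 2 * ∑ _u ∈ C.HT κ l H i, 2 * d := by gcongr with u hu; exact hsm u hu
            _ = 4 * d * (C.HT κ l H i).card := by
                rw [Finset.sum_const, smul_eq_mul]; ring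
        have hd : 0 < 4 * d := by
          rcases Nat.eq_zero_or_pos d with h0 | h0
          · rw [h0] at h2; omega
          · omega
        have h3 : κ ≤ (C.HT κ l H i).card := by
          have : 4 * d * κ ≤ 4 * d * (C.HT κ l H i).card := by
            calc 4 * d * κ = 4 * κ * d := by ring
              _ ≤ _ := hD2.trans h2
          exact Nat.le_of_mul_le_mul_left this hd
        have hκq : (0 : ℚ) < κ := by exact_mod_cast hκ
        calc (1 : ℚ) = κ * (1 / κ) := by field_simp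
          _ ≤ (C.HT κ l H i).card * (1 / κ) := by gcongr
          _ = ∑ _u ∈ C.HT κ l H i, (1 : ℚ) / κ := by rw [Finset.sum_const, nsmul_eq_mul]
          _ ≤ _ := by
              apply Finset.sum_le_sum
              intro u hu
              have h4 : (0 : ℚ) < mu u := by exact_mod_cast hmu1 i u hu
              apply one_div_le_one_div_of_le h4
              exact_mod_cast hmuκ u
  have h1 : ((C.HG κ l D H).card : ℚ) ≤ H.card := by
    calc ((C.HG κ l D H).card : ℚ) = ∑ _i ∈ C.HG κ l D H, (1 : ℚ) := by simp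
      _ ≤ ∑ i ∈ C.HG κ l D H, ∑ u ∈ C.HT κ l H i, (1 : ℚ) / mu u := Finset.sum_le_sum hw
      _ ≤ ∑ i : Fin m, ∑ u ∈ C.HT κ l H i, (1 : ℚ) / mu u :=
          Finset.sum_le_sum_of_subset_of_nonneg (Finset.subset_univ _)
            (fun _ _ _ => Finset.sum_nonneg fun _ _ => by positivity)
      _ = ∑ i : Fin m, ∑ u ∈ H, (if u ∈ C.HT κ l H i then (1 : ℚ) / mu u else 0) := by
          apply Finset.sum_congr rfl
          intro i _
          rw [← Finset.sum_filter]
          apply Finset.sum_congr _ (fun _ _ => rfl)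
          ext u
          rw [Finset.mem_filter]
          exact ⟨fun hu => ⟨(mem_HT.mp hu).1, hu⟩, fun hu => hu.2⟩
      _ = ∑ u ∈ H, ∑ i : Fin m, (if u ∈ C.HT κ l H i then (1 : ℚ) / mu u else 0) :=
          Finset.sum_comm
      _ ≤ ∑ _u ∈ H, (1 : ℚ) := by
          apply Finset.sum_le_sum
          intro u _
          rw [← Finset.sum_filter, Finset.sum_const, nsmul_eq_mul]
          change (mu u : ℚ) * (1 / mu u) ≤ 1
          rw [mul_one_div]
          exact div_self_le_one _
      _ = H.card := by simp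
  exact_mod_cast h1

/-- **The master inequality.** -/
theorem master (κ l d D : ℕ) (hκ : 1 ≤ κ) (hl : 1 ≤ l) (hD1 : 2 * l < D) (hD2 : 4 * κ * d ≤ D)
    (hrow : ∀ i, D ≤ (C.supp (C.out i)).card)
    (hfree : ∀ (R : Finset (Fin m)) (S : Finset (Fin n)),
      (∀ i ∈ R, ∀ j ∈ S, C.form (C.out i) j ≠ 0) → R.card ≤ κ ∨ S.card ≤ l)
    (hco : ∀ i i', i ≠ i' → (C.supp (C.out i) ∩ C.supp (C.out i')).card ≤ d)
    (H : Finset C.V) (r : ℕ) (hr : r + H.card ≤ m) :
    r ^ 2 * D ≤ 4 * κ * C.E.card *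
      (l * r + κ * (κ + 1) * ∑ v ∈ Finset.univ \ H, (C.cancelSet v).card) := by
  classical
  have hserved := C.served_le κ l d D hκ hD1 hD2 hrow hfree hco H
  set G := C.HG κ l D H with hG
  have hbadc : r ≤ (Finset.univ \ G).card := by
    rw [Finset.card_sdiff, Finset.inter_univ, Finset.card_univ, Fintype.card_fin]
    omega
  obtain ⟨I, hI, hIr⟩ := Finset.exists_subset_card_eq hbadc
  have h1 : ∀ i ∈ I, D ≤ (C.HN κ l H i).card * (4 * l + 4 * (κ + 1) * C.htau κ l H i) := by
    intro i hi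
    have h2 := hI hi
    rw [Finset.mem_sdiff, hG, HG, Finset.mem_filter, not_and, not_or, not_le] at h2
    obtain ⟨h3, h4⟩ := h2.2 (Finset.mem_univ _)
    have h5 := hrow i
    have h6 := hrow_bound (κ := κ) hl h3 (by omega : 2 * l < (C.supp (C.out i)).card)
    have h7 : (C.HN κ l H i).card * (4 * l + 4 * (κ + 1) * C.htau κ l H i) =
        2 * ((C.HN κ l H i).card * (2 * l + 2 * (κ + 1) * C.htau κ l H i)) := by ring
    rw [h7]
    omega
  have h2 := cs I (fun i => (C.HN κ l H i).card)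
    (fun i => 4 * l + 4 * (κ + 1) * C.htau κ l H i) D h1
  rw [hIr] at h2
  have hsumN : ∑ i ∈ I, (C.HN κ l H i).card ≤ κ * C.E.card := by
    calc ∑ i ∈ I, (C.HN κ l H i).card ≤ ∑ i : Fin m, (C.HN κ l H i).card :=
          Finset.sum_le_sum_of_subset (Finset.subset_univ _)
      _ = ∑ i : Fin m, ∑ e ∈ C.E, (if e ∈ C.HN κ l H i then 1 else 0) := by
          apply Finset.sum_congr rfl
          intro i _
          rw [← Finset.sum_filter, Finset.card_eq_sum_ones]
          apply Finset.sum_congr _ (fun _ _ => rfl)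
          ext e
          rw [Finset.mem_filter]
          refine ⟨fun he => ⟨?_, he⟩, fun he => he.2⟩
          exact (Finset.mem_filter.mp (Finset.mem_filter.mp he).1).1
      _ = ∑ e ∈ C.E, ∑ i : Fin m, (if e ∈ C.HN κ l H i then 1 else 0) := Finset.sum_comm
      _ ≤ ∑ _e ∈ C.E, κ := by
          apply Finset.sum_le_sum
          rintro ⟨u, v⟩ _
          rw [← Finset.card_filter]
          refine (Finset.card_le_card ?_).trans (mult_le hfree v)
          intro i hi
          rw [Finset.mem_filter] at hi ⊢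
          exact ⟨hi.1, (mem_HZ.mp (mem_HB.mp (Finset.mem_filter.mp hi.2).1).2.2.1).1⟩
      _ = κ * C.E.card := by rw [Finset.sum_const, smul_eq_mul, mul_comm]
  have hsumτ : ∑ i ∈ I, C.htau κ l H i ≤ κ * ∑ v ∈ Finset.univ \ H, (C.cancelSet v).card := by
    calc ∑ i ∈ I, C.htau κ l H i ≤ ∑ i : Fin m, C.htau κ l H i :=
          Finset.sum_le_sum_of_subset (Finset.subset_univ _)
      _ = ∑ i : Fin m, ∑ w ∈ Finset.univ \ H,
            (if w ∈ C.HZ κ l H i then (C.cancelSet w).card else 0) := by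
          apply Finset.sum_congr rfl
          intro i _
          rw [← Finset.sum_filter, htau]
          apply Finset.sum_congr _ (fun _ _ => rfl)
          ext w
          rw [Finset.mem_filter, Finset.mem_sdiff]
          exact ⟨fun hw => ⟨⟨Finset.mem_univ _, (mem_HZ.mp hw).2.1⟩, hw⟩, fun hw => hw.2⟩
      _ = ∑ w ∈ Finset.univ \ H, ∑ i : Fin m,
            (if w ∈ C.HZ κ l H i then (C.cancelSet w).card else 0) := Finset.sum_comm
      _ ≤ ∑ w ∈ Finset.univ \ H, κ * (C.cancelSet w).card := by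
          apply Finset.sum_le_sum
          intro w _
          rw [← Finset.sum_filter, Finset.sum_const, smul_eq_mul]
          apply Nat.mul_le_mul_right
          refine (Finset.card_le_card ?_).trans (mult_le hfree w)
          intro i hi
          rw [Finset.mem_filter] at hi ⊢
          exact ⟨hi.1, (mem_HZ.mp hi.2).1⟩
      _ = _ := by rw [Finset.mul_sum]
  refine h2.trans ?_
  have h3 : ∑ i ∈ I, (4 * l + 4 * (κ + 1) * C.htau κ l H i) ≤
      4 * (l * r + κ * (κ + 1) * ∑ v ∈ Finset.univ \ H, (C.cancelSet v).card) := by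
    rw [Finset.sum_add_distrib, Finset.sum_const, smul_eq_mul, hIr, ← Finset.mul_sum]
    have := Nat.mul_le_mul_left (4 * (κ + 1)) hsumτ
    nlinarith
  calc (∑ i ∈ I, (C.HN κ l H i).card) * ∑ i ∈ I, (4 * l + 4 * (κ + 1) * C.htau κ l H i)
      ≤ (κ * C.E.card) *
        (4 * (l * r + κ * (κ + 1) * ∑ v ∈ Finset.univ \ H, (C.cancelSet v).card)) :=
        Nat.mul_le_mul hsumN h3
    _ = _ := by ring

end LinCircuit

end H633LC
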