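import Pool.Agent.H633R2.LC.Sim
import Pool.Agent.H633R2.LC.FFT

/-!
# Upper bounds with a prescribed number of cancelling gates
-/

namespace H633LC

open Finset

variable {F : Type} [Field F]

open Classical in
/-- the direct circuit: no gate cancels anything -/
theorem direct {n r : ℕ} (B : Fin r → Fin n → F) : ∃ C : LinCircuit F n r, C.Computes B ∧
    C.cancelGates.card = 0 ∧
    C.size ≤ n + r + ((Finset.univ : Finset (Fin r × Fin n)).filter
      (fun q : Fin r × Fin n => B q.1 q.2 ≠ 0)).card := by
  set E : Finset ((Fin n ⊕ Fin r) × (Fin n ⊕ Fin r)) :=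
    ((Finset.univ : Finset (Fin r × Fin n)).filter (fun q => B q.1 q.2 ≠ 0)).image
      (fun q => (Sum.inl q.2, Sum.inr q.1)) with hE
  set wt : (Fin n ⊕ Fin r) → (Fin n ⊕ Fin r) → F := fun a b => match a, b with
    | Sum.inl j, Sum.inr i => B i j
    | _, _ => 0 with hwt
  set form : (Fin n ⊕ Fin r) → Fin n → F := fun a => match a with
    | Sum.inl j => Pi.single j 1
    | Sum.inr i => B i with hform
  have hm1 : ∀ j i, ((Sum.inl j : Fin n ⊕ Fin r), (Sum.inr i : Fin n ⊕ Fin r)) ∈ E ↔
      B i j ≠ 0 := by
    intro j i; simp [hE]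
  have hm2 : ∀ a j, (a, (Sum.inl j : Fin n ⊕ Fin r)) ∉ E := by
    intro a j; simp [hE]
  have hm3 : ∀ i b, ((Sum.inr i : Fin n ⊕ Fin r), b) ∉ E := by
    intro i b; simp [hE]
  set C : LinCircuit F n r :=
    { V := Fin n ⊕ Fin r
      label := fun a => Sum.elim (fun j => some j) (fun _ => none) a
      E := E
      wt := wt
      rank := fun a => Sum.elim (fun _ => 0) (fun _ => 1) a
      acyclic := by
        rintro (j | i) (j' | i') h
        · exact absurd h (hm2 _ _)
        · simp
        · exact absurd h (hm2 _ _)
        · exact absurd h (hm3 _ _)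
      source := by
        rintro (j | i) (j' | i') h
        · exact absurd h (hm2 _ _)
        · rfl
        · exact absurd h (hm2 _ _)
        · rfl
      form := form
      form_source := by
        rintro (j | i) j' h
        · simp only [Sum.elim_inl, Option.some.injEq] at h
          subst h; rfl
        · simp at h
      form_gate := by
        rintro (j | i) h j'
        · simp at h
        · rw [Finset.sum_filter, Fintype.sum_sum_type]
          have h2 : ∑ i' : Fin r, (if ((Sum.inr i' : Fin n ⊕ Fin r), (Sum.inr i : Fin n ⊕ Fin r)) ∈ E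
              then wt (Sum.inr i') (Sum.inr i) * form (Sum.inr i') j' else 0) = 0 :=
            Finset.sum_eq_zero fun i' _ => if_neg (hm3 i' _)
          rw [h2, add_zero, Finset.sum_eq_single j']
          · split_ifs with hh
            · change B i j' = B i j' * (Pi.single j' (1 : F) : Fin n → F) j'
              simp
            · rw [hm1] at hh
              push Not at hh
              exact hh
          · intro j _ hj
            split_ifs with hh
            · change B i j * (Pi.single j (1 : F) : Fin n → F) j' = 0
              rw [Pi.single_eq_of_ne (Ne.symm hj), mul_zero]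
            · rfl
          · intro hh; exact absurd (Finset.mem_univ _) hh
      out := Sum.inr } with hC
  refine ⟨C, fun i j => rfl, ?_, ?_⟩
  · rw [Finset.card_eq_zero, Finset.eq_empty_iff_forall_notMem]
    intro v hv
    simp only [LinCircuit.cancelGates, Finset.mem_filter, Finset.mem_univ, true_and] at hv
    obtain ⟨j, hz, u, huE, huw, huf⟩ := hv
    rcases v with v | v
    · exact hm2 u v huE
    · rcases u with u | u
      · change (Pi.single u (1 : F) : Fin n → F) j ≠ 0 at huf
        have : j = u := by
          by_contra hne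
          exact huf (by simp [hne])
        subst this
        exact huw hz
      · exact hm3 u _ huE
  · change Fintype.card (Fin n ⊕ Fin r) + E.card ≤ _
    rw [Fintype.card_sum, Fintype.card_fin, Fintype.card_fin]
    exact Nat.add_le_add_left Finset.card_image_le _

/-- two circuits on the same variables -/
theorem stack {n r₁ r₂ r : ℕ} (C : LinCircuit F n r₁) (D : LinCircuit F n r₂)
    (sel : Fin r → Fin r₁ ⊕ Fin r₂) : ∃ G : LinCircuit F n r,
    (∀ i, G.form (G.out i) = Sum.elim (fun a => C.form (C.out a)) (fun a => D.form (D.out a))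
      (sel i)) ∧
    G.cancelGates.card ≤ C.cancelGates.card + D.cancelGates.card ∧
    G.size ≤ C.size + D.size := by
  classical
  set E1 : Finset ((C.V ⊕ D.V) × (C.V ⊕ D.V)) := C.E.image (fun q => (Sum.inl q.1, Sum.inl q.2))
    with hE1
  set E2 : Finset ((C.V ⊕ D.V) × (C.V ⊕ D.V)) := D.E.image (fun q => (Sum.inr q.1, Sum.inr q.2))
    with hE2
  set wt' : (C.V ⊕ D.V) → (C.V ⊕ D.V) → F := fun a b => match a, b with
    | Sum.inl v, Sum.inl w => C.wt v w
    | Sum.inr v, Sum.inr w => D.wt v w
    | _, _ => 0 with hwt
  set form' : (C.V ⊕ D.V) → Fin n → F := fun a => Sum.elim C.form D.form a with hform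
  have hm1 : ∀ v w, ((Sum.inl v : C.V ⊕ D.V), (Sum.inl w : C.V ⊕ D.V)) ∈ E1 ∪ E2 ↔
      (v, w) ∈ C.E := by
    intro v w
    simp [hE1, hE2]
  have hm2 : ∀ v w, ((Sum.inr v : C.V ⊕ D.V), (Sum.inr w : C.V ⊕ D.V)) ∈ E1 ∪ E2 ↔
      (v, w) ∈ D.E := by
    intro v w
    simp [hE1, hE2]
  have hm3 : ∀ v w, ((Sum.inl v : C.V ⊕ D.V), (Sum.inr w : C.V ⊕ D.V)) ∉ E1 ∪ E2 := by
    intro v w
    simp [hE1, hE2]
  have hm4 : ∀ v w, ((Sum.inr v : C.V ⊕ D.V), (Sum.inl w : C.V ⊕ D.V)) ∉ E1 ∪ E2 := by
    intro v w
    simp [hE1, hE2]
  set G : LinCircuit F n r :=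
    { V := C.V ⊕ D.V
      label := fun a => Sum.elim C.label D.label a
      E := E1 ∪ E2
      wt := wt'
      rank := fun a => Sum.elim C.rank D.rank a
      acyclic := by
        rintro (v | v) (w | w) h
        · exact C.acyclic v w ((hm1 v w).mp h)
        · exact absurd h (hm3 _ _)
        · exact absurd h (hm4 _ _)
        · exact D.acyclic v w ((hm2 v w).mp h)
      source := by
        rintro (v | v) (w | w) h
        · exact C.source v w ((hm1 v w).mp h)
        · exact absurd h (hm3 _ _)
        · exact absurd h (hm4 _ _)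
        · exact D.source v w ((hm2 v w).mp h)
      form := form'
      form_source := by
        rintro (v | v) j h
        · exact C.form_source v j h
        · exact D.form_source v j h
      form_gate := by
        rintro (v | v) h j
        · rw [Finset.sum_filter, Fintype.sum_sum_type]
          have h2 : ∑ u : D.V, (if ((Sum.inr u : C.V ⊕ D.V), (Sum.inl v : C.V ⊕ D.V)) ∈ E1 ∪ E2
              then wt' (Sum.inr u) (Sum.inl v) * form' (Sum.inr u) j else 0) = 0 :=
            Finset.sum_eq_zero fun u _ => if_neg (hm4 u v)
          rw [h2, add_zero]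
          simp only [hm1]
          rw [← Finset.sum_filter]
          exact C.form_gate v h j
        · rw [Finset.sum_filter, Fintype.sum_sum_type]
          have h2 : ∑ u : C.V, (if ((Sum.inl u : C.V ⊕ D.V), (Sum.inr v : C.V ⊕ D.V)) ∈ E1 ∪ E2
              then wt' (Sum.inl u) (Sum.inr v) * form' (Sum.inl u) j else 0) = 0 :=
            Finset.sum_eq_zero fun u _ => if_neg (hm3 u v)
          rw [h2, zero_add]
          simp only [hm2]
          rw [← Finset.sum_filter]
          exact D.form_gate v h j
      out := fun i => Sum.elim (fun a => Sum.inl (C.out a)) (fun a => Sum.inr (D.out a)) (sel i) }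
    with hG
  refine ⟨G, ?_, ?_, ?_⟩
  · intro i
    change form' (Sum.elim (fun a => Sum.inl (C.out a)) (fun a => Sum.inr (D.out a)) (sel i)) = _
    rcases sel i with a | a
    · rfl
    · rfl
  · have hsub : G.cancelGates ⊆ C.cancelGates.image (fun v => (Sum.inl v : C.V ⊕ D.V)) ∪
        D.cancelGates.image (fun v => (Sum.inr v : C.V ⊕ D.V)) := by
      intro v hv
      simp only [LinCircuit.cancelGates, Finset.mem_filter, Finset.mem_univ, true_and] at hv
      obtain ⟨j, hz, u, huE, huw, huf⟩ := hv
      rw [Finset.mem_union, Finset.mem_image, Finset.mem_image]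
      rcases v with v | v
      · left
        refine ⟨v, ?_, rfl⟩
        rcases u with u | u
        · simp only [LinCircuit.cancelGates, Finset.mem_filter, Finset.mem_univ, true_and]
          exact ⟨j, hz, u, (hm1 u v).mp huE, huw, huf⟩
        · exact absurd huE (hm4 u v)
      · right
        refine ⟨v, ?_, rfl⟩
        rcases u with u | u
        · exact absurd huE (hm3 u v)
        · simp only [LinCircuit.cancelGates, Finset.mem_filter, Finset.mem_univ, true_and]
          exact ⟨j, hz, u, (hm2 u v).mp huE, huw, huf⟩
    calc G.cancelGates.card ≤ _ := Finset.card_le_card hsub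
      _ ≤ _ := Finset.card_union_le _ _
      _ ≤ _ := Nat.add_le_add Finset.card_image_le Finset.card_image_le
  · change Fintype.card (C.V ⊕ D.V) + (E1 ∪ E2).card ≤ _
    have h1 : (E1 ∪ E2).card ≤ C.E.card + D.E.card :=
      (Finset.card_union_le _ _).trans (Nat.add_le_add Finset.card_image_le Finset.card_image_le)
    rw [Fintype.card_sum]
    unfold LinCircuit.size
    omega

/-- 0/1 Toeplitz matrices over `ℂ`: circuits with at most `t` cancelling gates, `t ≤ n` -/
theorem toeplitz_upper (n : ℕ) (hn : 1 ≤ n) (W : Finset ℕ) (t : ℕ) (ht : t ≤ n) :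
    ∃ C : LinCircuit ℂ n n, C.Computes (toeplitz01 ℂ n W) ∧ C.cancelGates.card ≤ t ∧
      C.size ≤ (n - t) * W.card + n * (2087 + 576 * Nat.log 2 n) := by
  classical
  obtain ⟨C0, hC0, hs0⟩ := toeplitz_circuit n hn
    (fun e => if ∃ w ∈ W, e = (w : ℤ) then 1 else 0)
  have hC0' : C0.Computes (toeplitz01 ℂ n W) := by
    intro x y
    rw [hC0 x y]
    unfold toeplitz01
    have : (∃ w ∈ W, ((y : ℕ) : ℤ) - ((x : ℕ) : ℤ) = (w : ℤ)) ↔
        (∃ w ∈ W, (y : ℕ) = x + w) := by
      constructor
      · rintro ⟨w, hw, h⟩; exact ⟨w, hw, by omega⟩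
      · rintro ⟨w, hw, h⟩; exact ⟨w, hw, by omega⟩
    simp only [this]
  -- the first `t` outputs
  set C1 : LinCircuit ℂ n t :=
    { V := C0.V
      label := C0.label
      E := C0.E
      wt := C0.wt
      rank := C0.rank
      acyclic := C0.acyclic
      source := C0.source
      form := C0.form
      form_source := C0.form_source
      form_gate := C0.form_gate
      out := fun i => C0.out ⟨i, lt_of_lt_of_le i.2 ht⟩ } with hC1
  obtain ⟨C2, hf2, hc2, hs2⟩ := simulate_complex C1
  have hs1 : C1.size = C0.size := rfl
  -- the other outputs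
  obtain ⟨D, hD, hcD, hsD⟩ := direct (F := ℂ) (n := n) (r := n - t)
    (fun i j => toeplitz01 ℂ n W ⟨t + i, by have := i.2; omega⟩ j)
  obtain ⟨G, hG, hcG, hsG⟩ := stack C2 D (r := n) (fun i =>
    if h : (i : ℕ) < t then Sum.inl ⟨i, h⟩ else Sum.inr ⟨i - t, by have := i.2; omega⟩)
  refine ⟨G, ?_, ?_, ?_⟩
  · intro i j
    rw [hG i]
    by_cases h : (i : ℕ) < t
    · simp only [h, dif_pos, Sum.elim_inl]
      rw [hf2]
      exact hC0' i j
    · simp only [h, dif_neg, not_false_eq_true, Sum.elim_inr]
      rw [hD _ j]
      have : (⟨t + (i - t), by have := i.2; omega⟩ : Fin n) = i := Fin.ext (by simp; omega)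
      change toeplitz01 ℂ n W (⟨t + (i - t), by have := i.2; omega⟩ : Fin n) j = _
      rw [this]
  · omega
  · have hnz : ((Finset.univ : Finset (Fin (n - t) × Fin n)).filter
        (fun q : Fin (n - t) × Fin n =>
          toeplitz01 ℂ n W ⟨t + q.1, by have := q.1.2; omega⟩ q.2 ≠ 0)).card
        ≤ (n - t) * W.card := by
      calc _ ≤ ((Finset.univ : Finset (Fin (n - t))) ×ˢ W).card := by
            apply Finset.card_le_card_of_injOn
              (fun q : Fin (n - t) × Fin n => (q.1, (q.2 : ℕ) - (t + q.1)))
            · rintro ⟨i, j⟩ hq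
              simp only [Finset.coe_filter, Finset.mem_univ, true_and, Set.mem_ofPred_eq,
                toeplitz01, ne_eq, ite_eq_right_iff, one_ne_zero, imp_false, not_not] at hq
              obtain ⟨w, hw, h⟩ := hq
              simp only [Finset.coe_product, Set.mem_prod, Finset.mem_coe, Finset.mem_univ,
                true_and]
              have : (j : ℕ) - (t + i) = w := by omega
              rw [this]
              exact hw
            · rintro ⟨i, j⟩ hq ⟨i', j'⟩ hq' heq
              simp only [Finset.coe_filter, Finset.mem_univ, true_and, Set.mem_ofPred_eq,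
                toeplitz01, ne_eq, ite_eq_right_iff, one_ne_zero, imp_false, not_not] at hq hq'
              obtain ⟨w, hw, h⟩ := hq
              obtain ⟨w', hw', h'⟩ := hq'
              simp only [Prod.mk.injEq] at heq
              obtain ⟨h1, h2⟩ := heq
              subst h1
              have h3 : (j : ℕ) = (t + i) + w := h
              have h4 : (j' : ℕ) = (t + i) + w' := h'
              have h5 : (j : ℕ) = j' := by omega
              exact Prod.ext rfl (Fin.ext h5)
        _ = (n - t) * W.card := by
            rw [Finset.card_product, Finset.card_univ, Fintype.card_fin]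
    calc G.size ≤ C2.size + D.size := hsG
      _ ≤ (16 * (n * (130 + 36 * Nat.log 2 n)) + 5 * t) + (n + (n - t) + (n - t) * W.card) := by
          refine Nat.add_le_add (hs2.trans ?_) (hsD.trans (Nat.add_le_add_left hnz _))
          rw [hs1]
          gcongr
      _ ≤ (n - t) * W.card + n * (2087 + 576 * Nat.log 2 n) := by
          have e1 : 16 * (n * (130 + 36 * Nat.log 2 n)) = n * (2080 + 576 * Nat.log 2 n) := by ring
          have e2 : n * (2087 + 576 * Nat.log 2 n) = n * (2080 + 576 * Nat.log 2 n) + 7 * n := by
            ring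
          rw [e1, e2]
          omega

end H633LC
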